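import Pool.Agent.Q117.SI.Stm
import Pool.Agent.Q117.LF.Ubs
import Pool.Agent.Y843.HG.VGold

/-!
Project SI (helper117), job UBI: the upper bound in short intervals.
-/

set_option autoImplicit false

namespace Pool.Agent.Q117.SI

open Finset Filter
open Pool.Agent.Q117.LF
open Pool.Agent.Q253.Thin (SysZ IS int_upper)
open Pool.Agent.Y843.HS (Pr VV Pr_mem)
open Pool.Agent.Y843.HG (V1 V1_bounds)

namespace UBI

/-- Bernoulli in the form needed here -/
lemma bern (k : ℕ) (x : ℝ) (hx0 : 0 ≤ x) (hx1 : x ≤ 1) (h : 2 * (k * x) ≤ 1) :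
    (1 - x) ^ (2 * k) ≤ 1 - k * x := by
  have h1 : (1 - x) ^ (2 * k) * (1 + x) ^ (2 * k) ≤ 1 := by
    rw [← mul_pow]
    apply pow_le_one₀
    · exact mul_nonneg (by linarith) (by linarith)
    · nlinarith
  have h2 : 1 + (2 * k : ℕ) * x ≤ (1 + x) ^ (2 * k) := one_add_mul_le_pow (by linarith) _
  have h3 : (0 : ℝ) ≤ (1 - x) ^ (2 * k) := pow_nonneg (by linarith) _
  have hk : 0 ≤ (k : ℝ) * x := by positivity
  have h4 : (1 - x) ^ (2 * k) * (1 + 2 * (k * x)) ≤ 1 := by
    refine le_trans (mul_le_mul_of_nonneg_left ?_ h3) h1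
    push_cast at h2
    linarith
  have h5 : 1 ≤ (1 - k * x) * (1 + 2 * (k * x)) := by nlinarith
  have h6 : 0 < 1 + 2 * ((k : ℝ) * x) := by linarith
  exact le_of_mul_le_mul_right (h4.trans h5) h6

/-- comparison of the products at two scales -/
lemma scales (k a0 : ℕ) (h : ℝ) (hh : 0 < h) : ∃ C : ℝ, 0 < C ∧ ∀ (X H : ℕ) (al : Fin k → ℕ)
    (be : Fin k → ℤ), (∀ l, 1 ≤ al l ∧ al l ≤ a0) → (∀ p : ℕ, p.Prime → om al be p < p) →
    2 ≤ H → H ≤ X → 2 * k ≤ H → a0 ≤ H → h * Real.log X ≤ Real.log H →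
      VV (ubsZ al be) 0 H ≤ C * VN X al be := by
  classical
  obtain ⟨c, C, hc, hC, hV⟩ := V1_bounds
  refine ⟨(C / (c * h)) ^ (2 * k), by positivity, ?_⟩
  intro X H al be hal hom hH2 hHX hHk hHa hlog
  have hlH : 0 < Real.log H := Real.log_pos (by exact_mod_cast (show 1 < H by omega))
  have hlX : 0 < Real.log X := Real.log_pos (by exact_mod_cast (show 1 < X by omega))
  have hfac : ∀ p : ℕ, p.Prime → 0 < 1 - ((ubsZ al be p).card : ℝ) / p := by
    intro p hp
    have hp0 : (0 : ℝ) < p := by exact_mod_cast hp.pos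
    rw [sub_pos, div_lt_one hp0, ubsZ_card]
    exact_mod_cast hom p hp
  have hsplit : Pr 0 X = Pr 0 H ∪ Pr H X := by
    ext p
    rw [mem_union, Pr_mem, Pr_mem, Pr_mem]
    constructor
    · rintro ⟨⟨h1, h2⟩, h3⟩
      rcases Nat.lt_or_ge H p with h4 | h4
      · exact Or.inr ⟨⟨h4, h2⟩, h3⟩
      · exact Or.inl ⟨⟨h1, h4⟩, h3⟩
    · rintro (⟨⟨h1, h2⟩, h3⟩ | ⟨⟨h1, h2⟩, h3⟩)
      · exact ⟨⟨h1, by omega⟩, h3⟩
      · exact ⟨⟨by omega, h2⟩, h3⟩
  have hdisj : Disjoint (Pr 0 H) (Pr H X) := by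
    rw [disjoint_left]
    intro p h1 h2
    rw [Pr_mem] at h1 h2
    omega
  have hVN : VN X al be = VV (ubsZ al be) 0 H * VV (ubsZ al be) H X := by
    have e : VN X al be = VV (ubsZ al be) 0 X := by
      unfold VV VN
      have : Pr 0 X = (Icc 1 X).filter Nat.Prime := by
        ext p
        rw [Pr_mem, mem_filter, mem_Icc]
        constructor
        · rintro ⟨⟨h3, h4⟩, h5⟩
          exact ⟨⟨h3, h4⟩, h5⟩
        · rintro ⟨⟨h3, h4⟩, h5⟩
          exact ⟨⟨h3, h4⟩, h5⟩
      rw [this]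
      rfl
    rw [e]
    unfold VV
    rw [hsplit, prod_union hdisj]
  have hV1 : V1 X = V1 H * ∏ p ∈ Pr H X, (1 - 1 / (p : ℝ)) := by
    unfold V1
    rw [hsplit, prod_union hdisj]
  obtain ⟨x1, x2⟩ := hV X (by omega)
  obtain ⟨y1, y2⟩ := hV H hH2
  have hV1H : 0 < V1 H := lt_of_lt_of_le (by positivity) y1
  -- the product of 1 - 1/p over (H, X]
  have hq : c * h / C ≤ ∏ p ∈ Pr H X, (1 - 1 / (p : ℝ)) := by
    have e : ∏ p ∈ Pr H X, (1 - 1 / (p : ℝ)) = V1 X / V1 H := by
      rw [hV1, mul_div_cancel_left₀ _ hV1H.ne']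
    rw [e, le_div_iff₀ hV1H]
    calc c * h / C * V1 H ≤ c * h / C * (C / Real.log H) :=
          mul_le_mul_of_nonneg_left y2 (by positivity)
      _ = c * h / Real.log H := by field_simp
      _ ≤ c / Real.log X := by
          rw [div_le_div_iff₀ hlH hlX]
          nlinarith
      _ ≤ _ := x1
  have hlow : (c * h / C) ^ (2 * k) ≤ VV (ubsZ al be) H X := by
    refine (pow_le_pow_left₀ (by positivity) hq (2 * k)).trans ?_
    rw [← prod_pow]
    unfold VV
    refine prod_le_prod (fun p hp => ?_) fun p hp => ?_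
    · rw [Pr_mem] at hp
      have h1 : (1 : ℝ) ≤ p := by exact_mod_cast hp.2.one_le
      have h2 : 1 / (p : ℝ) ≤ 1 := by rw [div_le_one (by linarith)]; exact h1
      exact pow_nonneg (by linarith) _
    · rw [Pr_mem] at hp
      have hp1 : (1 : ℝ) ≤ p := by exact_mod_cast hp.2.one_le
      have hp0 : (0 : ℝ) < p := by linarith
      have h2 : 1 / (p : ℝ) ≤ 1 := by rw [div_le_one hp0]; exact hp1
      have h3 : 2 * ((k : ℝ) * (1 / (p : ℝ))) ≤ 1 := by
        have h4 : (2 * (k : ℝ)) ≤ p := by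
          exact_mod_cast (show 2 * k ≤ p by omega)
        rw [← mul_assoc, mul_one_div, div_le_one hp0]
        exact h4
      refine (bern k (1 / (p : ℝ)) (by positivity) h2 h3).trans ?_
      have h5 : ((ubsZ al be p).card : ℝ) ≤ k := by
        exact_mod_cast ubsZ_le al be hal hp.2 (by omega)
      have h6 : ((ubsZ al be p).card : ℝ) / p ≤ k * (1 / (p : ℝ)) := by
        rw [mul_one_div]
        exact div_le_div_of_nonneg_right h5 hp0.le
      linarith
  have hVH0 : 0 ≤ VV (ubsZ al be) 0 H := by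
    unfold VV
    exact prod_nonneg fun p hp => (hfac p (Pr_mem.1 hp).2).le
  have hone : (C / (c * h)) ^ (2 * k) * (c * h / C) ^ (2 * k) = 1 := by
    rw [← mul_pow]
    have : C / (c * h) * (c * h / C) = 1 := by field_simp
    rw [this, one_pow]
  rw [hVN]
  calc VV (ubsZ al be) 0 H = VV (ubsZ al be) 0 H *
        ((C / (c * h)) ^ (2 * k) * (c * h / C) ^ (2 * k)) := by rw [hone, mul_one]
    _ ≤ VV (ubsZ al be) 0 H * ((C / (c * h)) ^ (2 * k) * VV (ubsZ al be) H X) := by
        refine mul_le_mul_of_nonneg_left (mul_le_mul_of_nonneg_left hlow (by positivity)) hVH0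
    _ = _ := by ring

end UBI

open UBI in
theorem ubi : St_UBI := by
  classical
  intro k t a0 h ht hh0 hh1
  obtain ⟨C, hC, hint⟩ := int_upper (k + a0 + 1) t (by omega) ht
  obtain ⟨X₀, hX₀⟩ := hint 1 one_pos
  obtain ⟨C', hC', hsc⟩ := scales k a0 h hh0
  set M : ℝ := (X₀ : ℝ) + 2 * k + a0 + 4 with hM
  have hM1 : 1 ≤ M := by
    have : (0 : ℝ) ≤ X₀ := by positivity
    have : (0 : ℝ) ≤ 2 * k := by positivity
    have : (0 : ℝ) ≤ a0 := by positivity
    linarith
  refine ⟨C * C', by positivity, max (M ^ (1 / h)) (((max a0 k : ℕ) : ℝ) ^ t + 4), ?_⟩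
  intro X hX al be hal B H hHX hHX2
  have hX1 : M ^ (1 / h) ≤ X := (le_max_left _ _).trans hX
  have hX3 : ((max a0 k : ℕ) : ℝ) ^ t + 4 ≤ X := (le_max_right _ _).trans hX
  have hXp : (4 : ℝ) ≤ X := by
    have : (0 : ℝ) ≤ ((max a0 k : ℕ) : ℝ) ^ t := by positivity
    linarith
  have hX0 : 0 < X := by linarith
  have hMX : M ≤ X ^ h := by
    have h1 : (M ^ (1 / h)) ^ h ≤ X ^ h := Real.rpow_le_rpow (by positivity) hX1 hh0.le
    rwa [← Real.rpow_mul (by linarith), one_div_mul_cancel hh0.ne', Real.rpow_one] at h1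
  have hMH : M ≤ H := hMX.trans hHX
  have ht0 : (0 : ℝ) < t := by exact_mod_cast ht
  have hom : ∀ p : ℕ, om al be p ≤ p := by
    intro p
    unfold om
    refine (card_le_card (filter_subset _ _)).trans ?_
    rw [card_range]
  have hVN0 : 0 ≤ VN ⌊X⌋₊ al be := by
    unfold VN
    apply prod_nonneg
    intro p hp
    rw [mem_filter] at hp
    have hp0 : (0 : ℝ) < p := by exact_mod_cast hp.2.pos
    rw [sub_nonneg, div_le_one hp0]
    exact_mod_cast hom p
  by_cases hfix : ∃ p : ℕ, p.Prime ∧ om al be p = p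
  · -- a fixed prime divisor
    obtain ⟨p, hp, hpo⟩ := hfix
    have hpk : p ≤ max a0 k := by
      by_contra hcon
      push Not at hcon
      have h1 := ubsZ_le al be hal hp ((le_max_left _ _).trans_lt hcon)
      rw [ubsZ_card, hpo] at h1
      have := le_max_right a0 k
      omega
    have hpX : (p : ℝ) ≤ X ^ (1 / (t : ℝ)) := by
      have h1 : (p : ℝ) ^ t ≤ X := by
        have h2 : (p : ℝ) ≤ ((max a0 k : ℕ) : ℝ) := by exact_mod_cast hpk
        have h3 : (p : ℝ) ^ t ≤ ((max a0 k : ℕ) : ℝ) ^ t := pow_le_pow_left₀ (by positivity) h2 t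
        linarith
      calc (p : ℝ) = ((p : ℝ) ^ t) ^ (1 / (t : ℝ)) := by
            rw [← Real.rpow_natCast, ← Real.rpow_mul (by positivity), mul_one_div_cancel ht0.ne',
              Real.rpow_one]
        _ ≤ _ := Real.rpow_le_rpow (by positivity) h1 (by positivity)
    have hall : ubsZ al be p = range p := by
      apply eq_of_subset_of_card_le
      · exact filter_subset _ _
      · rw [ubsZ_card, hpo, card_range]
    have hempty : (Ioc B (B + H)).filter
        (fun n : ℕ => ∀ l, Ro (X ^ (1 / (t : ℝ))) (fm al be l n)) = ∅ := by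
      rw [filter_eq_empty_iff]
      rintro n _ h2
      have h3 : n % p ∈ ubsZ al be p := by
        rw [hall, mem_range]
        exact Nat.mod_lt _ hp.pos
      rw [ubsZ, mem_filter] at h3
      obtain ⟨-, l, hl⟩ := h3
      have h4 := h2 l p hp ((ubs_dvd_mod al be l p n).1 hl)
      linarith
    rw [hempty, card_empty, Nat.cast_zero]
    positivity
  · push Not at hfix
    have homlt : ∀ p : ℕ, p.Prime → om al be p < p := fun p hp =>
      lt_of_le_of_ne (hom p) (hfix p hp)
    have hS : SysZ (k + a0 + 1) (ubsZ al be) := by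
      refine ⟨?_, ?_, ?_⟩
      · intro p hp
        rcases Nat.lt_or_ge a0 p with h | h
        · have := ubsZ_le al be hal hp h
          omega
        · rw [ubsZ_card]
          have := hom p
          omega
      · intro p hp
        rw [ubsZ_card]
        exact homlt p hp
      · intro p hp c hc
        rw [ubsZ, mem_filter, mem_range] at hc
        exact hc.1
    have hk0 : (0 : ℝ) ≤ k := by positivity
    have ha0 : (0 : ℝ) ≤ a0 := by positivity
    have hx0 : (0 : ℝ) ≤ X₀ := by positivity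
    have hXf : X₀ ≤ H := by
      have : (X₀ : ℝ) ≤ H := by linarith
      exact_mod_cast this
    have hH2 : 2 ≤ H := by
      have : ((2 : ℕ) : ℝ) ≤ H := by push_cast; linarith
      exact_mod_cast this
    have hHk : 2 * k ≤ H := by
      have : ((2 * k : ℕ) : ℝ) ≤ H := by push_cast; linarith
      exact_mod_cast this
    have hHa : a0 ≤ H := by
      have : (a0 : ℝ) ≤ H := by linarith
      exact_mod_cast this
    have h1 := hX₀ H hXf (ubsZ al be) hS B (B + H) (by push_cast; linarith)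
    have hsub : (Ioc B (B + H)).filter
        (fun n : ℕ => ∀ l, Ro (X ^ (1 / (t : ℝ))) (fm al be l n)) ⊆
        IS t H B (B + H) (ubsZ al be) := by
      intro n hn
      rw [mem_filter] at hn
      obtain ⟨hn1, hn3⟩ := hn
      unfold IS
      rw [mem_filter]
      refine ⟨hn1, fun q hq hqX hmem => ?_⟩
      rw [ubsZ, mem_filter] at hmem
      obtain ⟨-, l, hl⟩ := hmem
      have h2 := hn3 l q hq ((ubs_dvd_mod al be l q n).1 hl)
      have h3 : ((H : ℕ) : ℝ) ^ (1 / (t : ℝ)) ≤ X ^ (1 / (t : ℝ)) :=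
        Real.rpow_le_rpow (by positivity) hHX2 (by positivity)
      linarith
    have h2 : (((Ioc B (B + H)).filter
        (fun n : ℕ => ∀ l, Ro (X ^ (1 / (t : ℝ))) (fm al be l n))).card : ℝ) ≤
        ((IS t H B (B + H) (ubsZ al be)).card : ℝ) := by
      exact_mod_cast card_le_card hsub
    have hfl2 : (⌊X⌋₊ : ℝ) ≤ X := Nat.floor_le hX0.le
    have hHf : H ≤ ⌊X⌋₊ := Nat.le_floor hHX2
    have hHpos : (0 : ℝ) < H := by linarith
    have hfpos : (0 : ℝ) < ⌊X⌋₊ := by
      have : (H : ℝ) ≤ ⌊X⌋₊ := by exact_mod_cast hHf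
      linarith
    have hlog : h * Real.log (⌊X⌋₊ : ℕ) ≤ Real.log H := by
      calc h * Real.log (⌊X⌋₊ : ℕ) ≤ h * Real.log X :=
            mul_le_mul_of_nonneg_left (Real.log_le_log hfpos hfl2) hh0.le
        _ = Real.log (X ^ h) := by rw [Real.log_rpow hX0]
        _ ≤ _ := Real.log_le_log (by positivity) hHX
    have h3 := hsc ⌊X⌋₊ H al be hal homlt hH2 hHf hHk hHa hlog
    refine h2.trans (h1.trans ?_)
    have e : ((B + H : ℕ) : ℝ) - (B : ℝ) = H := by push_cast; ring
    rw [e]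
    calc C * (H * VV (ubsZ al be) 0 H) ≤ C * (H * (C' * VN ⌊X⌋₊ al be)) := by
          apply mul_le_mul_of_nonneg_left _ hC.le
          apply mul_le_mul_of_nonneg_left h3 hHpos.le
      _ = _ := by ring

end Pool.Agent.Q117.SI
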