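import Pool.Agent.Q117.SI.Stm
import Pool.Agent.Q117.LF.Lpat
import Pool.Agent.Q117.CR.Bvb

/-!
# Project SI, job RSI: all prescribed surroundings at Rankin's scale in every short interval
-/

set_option autoImplicit false

namespace Pool.Agent.Q117.SI

open Finset Filter Topology
open Pool.Agent.Q117.LF
open Pool.Agent.Q117.GP (Rk)
open Pool.Agent.Q253.Thin (SysZ VZ_low)
open Pool.Agent.Y843.HS (VV Pr)
open Pool.Agent.H378R2 (GoodS GoodP WW PW yy)

/-- the claim for the sets with `k` elements and the index `i` -/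
def RS (R : ℕ) (h ε : ℝ) (k : ℕ) (i : Fin k) (t : ℕ) (c X : ℝ) : Prop :=
  ∀ (E : Finset ℤ) (hE : E.card = k), (∀ e ∈ E, |(e : ℝ)| ≤ c * Rk X) → AdmZ E →
    ∀ B H : ℕ, X ^ h ≤ H → (B : ℝ) + H ≤ X →
    (H : ℝ) * X ^ (-ε) ≤ ((Pool.Agent.Q117.SI.PtsR E (E.orderEmbOfFin hE i) R (X ^ (h / 6))
      (X ^ (1 / (t : ℝ))) (c * Rk X) (Real.log X) B H).card : ℝ)

lemma WW_bound {X : ℝ} (hX : 1 ≤ X) : 1 ≤ WW X ∅ 1 ∧ (WW X ∅ 1 : ℝ) ≤ X ^ (1 / 500 : ℝ) ∧
    ∀ p : ℕ, p.Prime → p ∣ WW X ∅ 1 → (p : ℝ) ≤ Real.log X := by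
  have hX0 : 0 < X := by linarith
  have hL : 0 ≤ Real.log X := Real.log_nonneg hX
  have hyy : (yy X : ℝ) ≤ Real.log X / 1000 := Nat.floor_le (by positivity)
  refine ⟨?_, ?_, ?_⟩
  · apply Nat.one_le_iff_ne_zero.2
    unfold WW
    rw [Finset.prod_ne_zero_iff]
    intro p hp
    unfold PW at hp
    exact (Finset.mem_filter.1 hp).2.1.ne_zero
  · have h0 : WW X ∅ 1 ≤ primorial (yy X) :=
      Nat.le_of_dvd (primorial_pos _) (Pool.Agent.H378R2.LSBV.WW_dvd_primorial _ ∅ 1)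
    have h1 : (primorial (yy X) : ℝ) ≤ (4 : ℝ) ^ (yy X) := by
      exact_mod_cast primorial_le_four_pow _
    have h2 : (4 : ℝ) ^ (yy X) ≤ X ^ (1 / 500 : ℝ) := by
      rw [← Real.rpow_natCast, Real.rpow_def_of_pos (by norm_num : (0 : ℝ) < 4),
        Real.rpow_def_of_pos hX0]
      apply Real.exp_le_exp.2
      have h3 : Real.log 4 ≤ 2 := by
        have e : (4 : ℝ) = 2 ^ 2 := by norm_num
        rw [e, Real.log_pow]
        have := Real.log_two_lt_d9
        push_cast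
        linarith
      have h4 : 0 ≤ Real.log 4 := Real.log_nonneg (by norm_num)
      calc Real.log 4 * (yy X : ℝ) ≤ 2 * (Real.log X / 1000) :=
            mul_le_mul h3 hyy (Nat.cast_nonneg _) (by norm_num)
        _ = Real.log X * (1 / 500) := by ring
    calc (WW X ∅ 1 : ℝ) ≤ (primorial (yy X) : ℝ) := by exact_mod_cast h0
      _ ≤ _ := h1.trans h2
  · intro p hp hd
    unfold WW at hd
    obtain ⟨q, hq, hpq⟩ := (Nat.Prime.prime hp).exists_mem_finset_dvd hd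
    unfold PW at hq
    obtain ⟨hq1, hq2, -, -⟩ := Finset.mem_filter.1 hq
    have e : p = q := (Nat.prime_dvd_prime_iff_eq hp hq2).1 hpq
    subst e
    have h1 : (p : ℝ) ≤ yy X := by exact_mod_cast (Finset.mem_Icc.1 hq1).2
    linarith

/-- the residue classes of a system of shifts -/
noncomputable def ZZ {k : ℕ} (be : Fin k → ℤ) (p : ℕ) : Finset ℕ := by
  classical
  exact (range p).filter (fun n : ℕ => ∃ l, (p : ℤ) ∣ fm (fun _ => 1) be l n)

lemma ZZ_sys {k : ℕ} {be : Fin k → ℤ} (h : AdmS (fun _ => 1) be) : SysZ k (ZZ be) where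
  card := by
    classical
    intro p hp
    have hp0 : (0 : ℤ) < p := by exact_mod_cast hp.pos
    have h1 : ZZ be p ⊆ Finset.univ.image (fun l : Fin k => ((-be l) % (p : ℤ)).toNat) := by
      intro n hn
      unfold ZZ at hn
      obtain ⟨hn1, l, hn2⟩ := Finset.mem_filter.1 hn
      rw [Finset.mem_image]
      refine ⟨l, Finset.mem_univ _, ?_⟩
      have h2 : (n : ℤ) % p = (-be l) % p := by
        apply Int.ModEq.symm
        rw [Int.modEq_iff_dvd]
        have h3 : (n : ℤ) - -be l = fm (fun _ => 1) be l n := by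
          unfold fm
          push_cast
          ring
        rw [h3]
        exact hn2
      rw [← h2, Int.emod_eq_of_lt (by positivity) (by exact_mod_cast Finset.mem_range.1 hn1)]
      simp
    calc (ZZ be p).card ≤ _ := Finset.card_le_card h1
      _ ≤ _ := Finset.card_image_le
      _ = k := by simp
  loc := by
    classical
    intro p hp
    obtain ⟨n, hn⟩ := h p hp
    have h1 : ZZ be p ⊂ range p := by
      rw [Finset.ssubset_iff_of_subset (by unfold ZZ; exact Finset.filter_subset _ _)]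
      refine ⟨n % p, Finset.mem_range.2 (Nat.mod_lt _ hp.pos), fun hm => ?_⟩
      unfold ZZ at hm
      obtain ⟨l, hl⟩ := (Finset.mem_filter.1 hm).2
      apply hn l
      have h2 : fm (fun _ => 1) be l n = fm (fun _ => 1) be l (n % p) + (p : ℤ) * ((n / p : ℕ) : ℤ) := by
        unfold fm
        have h3 : ((n : ℕ) : ℤ) = ((n % p : ℕ) : ℤ) + (p : ℤ) * ((n / p : ℕ) : ℤ) := by
          exact_mod_cast (Nat.mod_add_div n p).symm
        rw [h3]
        push_cast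
        ring
      rw [h2]
      exact dvd_add hl (dvd_mul_right _ _)
    have h2 := Finset.card_lt_card h1
    rwa [Finset.card_range] at h2
  lt := by
    intro p _ c hc
    unfold ZZ at hc
    exact Finset.mem_range.1 (Finset.mem_filter.1 hc).1

lemma prod_low {k : ℕ} {be : Fin k → ℤ} (h : AdmS (fun _ => 1) be) (X : ℝ) (W : ℕ) :
    VV (ZZ be) 0 ⌊X⌋₊ ≤ ∏ p ∈ (Icc 1 ⌊X⌋₊).filter (fun p : ℕ => p.Prime ∧ ¬ p ∣ W),
      (1 - (om (fun _ => 1) be p : ℝ) / p) := by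
  classical
  have hs := ZZ_sys h
  have hom : ∀ p, (om (fun _ => 1) be p) = (ZZ be p).card := by
    intro p
    unfold om ZZ
    congr 1
  have h01 : ∀ p ∈ Pr 0 ⌊X⌋₊, 0 ≤ (1 - ((ZZ be p).card : ℝ) / p) ∧
      (1 - ((ZZ be p).card : ℝ) / p) ≤ 1 := by
    intro p hp
    have hpp : p.Prime := by
      unfold Pool.Agent.Y843.HS.Pr at hp
      exact (Finset.mem_filter.1 hp).2
    have h1 : ((ZZ be p).card : ℝ) < p := by exact_mod_cast hs.loc p hpp
    have h2 : (0 : ℝ) < p := by exact_mod_cast hpp.pos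
    constructor
    · rw [sub_nonneg, div_le_one h2]
      exact h1.le
    · have : (0 : ℝ) ≤ ((ZZ be p).card : ℝ) / p := by positivity
      linarith
  set S := (Icc 1 ⌊X⌋₊).filter (fun p : ℕ => p.Prime ∧ ¬ p ∣ W) with hS
  have hsub : S ⊆ Pr 0 ⌊X⌋₊ := by
    intro p hp
    obtain ⟨h1, h2, -⟩ := Finset.mem_filter.1 hp
    unfold Pool.Agent.Y843.HS.Pr
    rw [Finset.mem_filter, Finset.mem_Ioc]
    exact ⟨⟨h2.pos, (Finset.mem_Icc.1 h1).2⟩, h2⟩
  unfold Pool.Agent.Y843.HS.VV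
  rw [← Finset.prod_sdiff hsub]
  simp only [hom]
  have h1 : ∏ p ∈ Pr 0 ⌊X⌋₊ \ S, (1 - ((ZZ be p).card : ℝ) / p) ≤ 1 := by
    apply Finset.prod_le_one
    · intro p hp
      exact (h01 p (Finset.mem_sdiff.1 hp).1).1
    · intro p hp
      exact (h01 p (Finset.mem_sdiff.1 hp).1).2
  have h2 : 0 ≤ ∏ p ∈ S, (1 - ((ZZ be p).card : ℝ) / p) :=
    Finset.prod_nonneg fun p hp => (h01 p (hsub hp)).1
  calc _ ≤ 1 * ∏ p ∈ S, (1 - ((ZZ be p).card : ℝ) / p) := mul_le_mul_of_nonneg_right h1 h2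
    _ = _ := one_mul _

lemma rs_main (hL : LBIc) (hC : St_COVA) (hK : St_RKS) {k R : ℕ} {h ε : ℝ} (hk : 1 ≤ k)
    (hR : 1 ≤ R) (hh : h ≤ 1) (h25 : 25 < 3 * (8 * R - 1) * h) (hε : 0 < ε) (i : Fin k) :
    ∀ᶠ t : ℕ in atTop, ∀ᶠ c : ℝ in 𝓝[>] 0, ∀ᶠ X : ℝ in atTop, RS R h ε k i t c X := by
  classical
  obtain ⟨t₀, ht₀, θ, hθ, c₁, hc₁, X₁, hL⟩ :=
    hL k (fun _ => 1) (fun _ => le_rfl) 1 R h le_rfl hR hh h25 i
  obtain ⟨α, hα⟩ : ∃ α : ℝ, α = min (min θ ε) 1 := ⟨_, rfl⟩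
  have hα0 : 0 < α := by rw [hα]; exact lt_min (lt_min hθ hε) one_pos
  have hα1 : α ≤ 1 := by rw [hα]; exact min_le_right _ _
  have hαθ : α ≤ θ := by rw [hα]; exact (min_le_left _ _).trans (min_le_left _ _)
  have hαε : α ≤ ε := by rw [hα]; exact (min_le_left _ _).trans (min_le_right _ _)
  obtain ⟨cc, hcc, X₂, hC⟩ := hC k 1 hk le_rfl
  obtain ⟨X₃, hK⟩ := hK α hα0 hα1
  obtain ⟨cV, hcV, hV⟩ := VZ_low k hk
  obtain ⟨X₄, hRk⟩ := Rk_large (cc / 2) (by positivity) 2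
  filter_upwards [eventually_ge_atTop (max t₀ 1)] with t ht
  have htt : t₀ ≤ t := (le_max_left _ _).trans ht
  have ht1 : 1 ≤ t := (le_max_right _ _).trans ht
  filter_upwards [Ioc_mem_nhdsGT (show (0 : ℝ) < min (cc * α / 16) 1 by positivity)] with c hc
  obtain ⟨hc0, hc2⟩ := hc
  have hcc' : c ≤ cc * α / 16 := hc2.trans (min_le_left _ _)
  have hc1 : c ≤ 1 := hc2.trans (min_le_right _ _)
  have ev1 : ∀ᶠ X : ℝ in atTop, (Real.log X) ^ k ≤ c₁ * cV * X ^ (ε / 2) := by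
    have h1 : (fun X : ℝ => (Real.log X) ^ (k : ℝ)) =o[atTop] fun X : ℝ => X ^ (ε / 2) :=
      isLittleO_log_rpow_rpow_atTop (k : ℝ) (by positivity)
    have h2 := h1.bound (show (0 : ℝ) < c₁ * cV by positivity)
    filter_upwards [h2, eventually_ge_atTop 1] with X hX hX1
    have h3 : 0 ≤ Real.log X := Real.log_nonneg hX1
    rw [Real.norm_of_nonneg (by positivity), Real.norm_of_nonneg (by positivity),
      Real.rpow_natCast] at hX
    exact hX
  have ev2 : ∀ᶠ X : ℝ in atTop, (Real.log X) ^ 2 ≤ X := by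
    have h1 : (fun X : ℝ => (Real.log X) ^ (2 : ℝ)) =o[atTop] fun X : ℝ => X ^ (1 : ℝ) :=
      isLittleO_log_rpow_rpow_atTop 2 (by norm_num)
    have h2 := h1.bound one_pos
    filter_upwards [h2, eventually_ge_atTop 1] with X hX hX1
    have h3 : 0 ≤ Real.log X := Real.log_nonneg hX1
    rw [Real.norm_of_nonneg (by positivity), Real.norm_of_nonneg (by positivity),
      Real.rpow_one, one_mul] at hX
    have h4 : (Real.log X) ^ (2 : ℝ) = (Real.log X) ^ 2 := by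
      rw [← Real.rpow_natCast]; norm_num
    rwa [h4] at hX
  have hpow := tendsto_rpow_atTop hα0
  filter_upwards [ev1, ev2, eventually_ge_atTop X₁, eventually_ge_atTop X₃, eventually_ge_atTop 3,
    hpow.eventually_ge_atTop X₂, hpow.eventually_ge_atTop X₄] with X e1 e2 g1 g3 g0 g2 g4
  intro E hE hEc hAdm B H hXH hBH
  have hX0 : 0 < X := by linarith
  have hX1 : 1 ≤ X := by linarith
  obtain ⟨hRk0, hRk2, hRkα⟩ := hK X g3
  have hRkX := hRk (X ^ α) g4
  obtain ⟨Y, hY⟩ : ∃ Y : ℝ, Y = X ^ α := ⟨_, rfl⟩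
  rw [← hY] at hRkα hRkX g2
  have hY1 : 1 ≤ Y := by rw [hY]; exact Real.one_le_rpow hX1 hα0.le
  have hcR : 0 < c * Rk X := by positivity
  obtain ⟨O, hO⟩ : ∃ O : ℕ, O = ⌈c * Rk X⌉₊ := ⟨_, rfl⟩
  have hO1 : c * Rk X ≤ O := by rw [hO]; exact Nat.le_ceil _
  have hO2 : (O : ℝ) < c * Rk X + 1 := by rw [hO]; exact Nat.ceil_lt_add_one hcR.le
  have hO3 : 2 * (O : ℝ) ≤ cc * Rk Y := by
    have hRkY : 0 < Rk Y := by
      by_contra hcon
      have : cc / 2 * Rk Y ≤ 0 := mul_nonpos_of_nonneg_of_nonpos (by positivity) (not_lt.1 hcon)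
      linarith
    have h1 : c * Rk X ≤ c * (4 / α * Rk Y) := mul_le_mul_of_nonneg_left hRkα hc0.le
    have h2 : c * (4 / α * Rk Y) ≤ cc / 4 * Rk Y := by
      have h3 : c * (4 / α) ≤ cc / 4 := by
        rw [mul_div_assoc', div_le_iff₀ hα0]
        linarith
      calc c * (4 / α * Rk Y) = c * (4 / α) * Rk Y := by ring
        _ ≤ _ := mul_le_mul_of_nonneg_right h3 hRkY.le
    linarith
  -- nonnegativity of the shifted elements
  have hpos : ∀ v : ℤ, |(v : ℝ)| ≤ c * Rk X → 0 ≤ v + O ∧ v + O ≤ 2 * O := by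
    intro v hv
    have h1 := abs_le.1 (hv.trans hO1)
    constructor
    · have : -(O : ℤ) ≤ v := by exact_mod_cast h1.1
      linarith
    · have : v ≤ (O : ℤ) := by exact_mod_cast h1.2
      linarith
  obtain ⟨E', hE'⟩ : ∃ E' : Finset ℕ, E' = E.image (fun e : ℤ => (e + O).toNat) := ⟨_, rfl⟩
  have hinj : ∀ v w : ℤ, |(v : ℝ)| ≤ c * Rk X → |(w : ℝ)| ≤ c * Rk X →
      (v + O).toNat = (w + O).toNat → v = w := by
    intro v w hv hw hvw
    have h1 := (hpos v hv).1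
    have h2 := (hpos w hw).1
    have h3 : ((v + O).toNat : ℤ) = ((w + O).toNat : ℤ) := by rw [hvw]
    rw [Int.toNat_of_nonneg h1, Int.toNat_of_nonneg h2] at h3
    linarith
  have hcard : E'.card = k := by
    rw [hE', Finset.card_image_of_injOn, hE]
    intro v hv w hw hvw
    exact hinj v w (hEc v hv) (hEc w hw) hvw
  have hle : ∀ v : ℤ, |(v : ℝ)| ≤ c * Rk X → (((v + O).toNat : ℕ) : ℝ) ≤ cc * Rk Y := by
    intro v hv
    have h1 := hpos v hv
    have h2 : (((v + O).toNat : ℕ) : ℤ) ≤ 2 * O := by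
      rw [Int.toNat_of_nonneg h1.1]; exact h1.2
    have h3 : (((v + O).toNat : ℕ) : ℝ) ≤ 2 * (O : ℝ) := by exact_mod_cast h2
    linarith
  have hAdmA : AdmA 1 E' := by
    intro p hp _
    obtain ⟨r, hr⟩ := hAdm p hp
    have hp0 : (p : ℤ) ≠ 0 := by exact_mod_cast hp.ne_zero
    refine ⟨((r - O) % (p : ℤ)).toNat, fun s hs hd => ?_⟩
    rw [hE', Finset.mem_image] at hs
    obtain ⟨e, he, rfl⟩ := hs
    apply hr e he
    have h1 : ((((r - O) % (p : ℤ)).toNat + (e + O).toNat : ℕ) : ℤ) =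
        (r - O) % (p : ℤ) + (e + O) := by
      rw [Nat.cast_add, Int.toNat_of_nonneg (Int.emod_nonneg _ hp0),
        Int.toNat_of_nonneg (hpos e (hEc e he)).1]
    have h2 : (p : ℤ) ∣ (r - O) % (p : ℤ) + (e + O) := by
      rw [← h1]
      exact_mod_cast hd
    have h3 : r + e = ((r - O) % (p : ℤ) + (e + O)) + (p : ℤ) * ((r - O) / (p : ℤ)) := by
      have := Int.emod_add_mul_ediv (r - O) (p : ℤ)
      linarith
    rw [h3]
    exact dvd_add h2 (dvd_mul_right _ _)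
  have hGS : GoodS Y ∅ := by
    refine ⟨fun q hq => absurd hq (Finset.notMem_empty q), ?_⟩
    rw [Finset.sum_empty]
    positivity
  obtain ⟨a₀, ha₀⟩ := hC Y g2 1 ∅ (Or.inl rfl) hGS E' hcard (by
    intro s hs
    rw [hE', Finset.mem_image] at hs
    obtain ⟨e, he, rfl⟩ := hs
    exact hle e (hEc e he)) hAdmA
  obtain ⟨W, hW⟩ : ∃ W : ℕ, W = WW Y ∅ 1 := ⟨_, rfl⟩
  rw [← hW] at ha₀
  obtain ⟨hW1, hW2, hW3⟩ := WW_bound hY1
  rw [← hW] at hW1 hW2 hW3
  have hW0 : (0 : ℝ) < W := by exact_mod_cast hW1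
  have hWX : (W : ℝ) ≤ X ^ (α / 500) := by
    refine hW2.trans (le_of_eq ?_)
    rw [hY, ← Real.rpow_mul hX0.le]
    congr 1
    ring
  have hWθ : (W : ℝ) ≤ X ^ θ :=
    hWX.trans (Real.rpow_le_rpow_of_exponent_le hX1 (by linarith))
  have hWε : (W : ℝ) ≤ X ^ (ε / 2) :=
    hWX.trans (Real.rpow_le_rpow_of_exponent_le hX1 (by linarith))
  obtain ⟨u, hu⟩ : ∃ u : ℕ, u = a₀ + O := ⟨_, rfl⟩
  have hus : ∀ v : ℤ, |(v : ℝ)| ≤ c * Rk X → ((a₀ + (v + O).toNat : ℕ) : ℤ) = u + v := by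
    intro v hv
    rw [hu, Nat.cast_add, Nat.cast_add, Int.toNat_of_nonneg (hpos v hv).1]
    ring
  have hlogY : Real.log Y ≤ Real.log X := by
    rw [hY, Real.log_rpow hX0]
    have := Real.log_nonneg hX1
    nlinarith
  -- no element of the set is divisible
  have F1 : ∀ e ∈ E, ∀ p : ℕ, p.Prime → p ∣ W → ¬ (p : ℤ) ∣ (u : ℤ) + e := by
    intro e he p hp hpW hd
    have h1 : (e + O).toNat ∈ E' := by
      rw [hE', Finset.mem_image]
      exact ⟨e, he, rfl⟩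
    have h2 := (ha₀ _ (hle e (hEc e he))).2 h1 p hp
      (fun h1 => hp.one_lt.ne' (Nat.dvd_one.1 h1)) hpW
    apply h2
    rw [← hus e (hEc e he)] at hd
    exact_mod_cast hd
  have F2 : ∀ v : ℤ, |(v : ℝ)| ≤ c * Rk X → v ∉ E →
      ∃ p : ℕ, p.Prime ∧ p ∣ W ∧ (p : ℤ) ∣ (u : ℤ) + v := by
    intro v hv hvE
    have h1 : (v + O).toNat ∉ E' := by
      intro hcon
      rw [hE', Finset.mem_image] at hcon
      obtain ⟨e, he, hev⟩ := hcon
      have := hinj e v (hEc e he) hv hev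
      exact hvE (this ▸ he)
    have h2 : ¬ ∀ p : ℕ, p.Prime → ¬ p ∣ 1 → p ∣ W → ¬ p ∣ a₀ + (v + O).toNat :=
      fun hcon => h1 ((ha₀ _ (hle v hv)).1 hcon)
    push Not at h2
    obtain ⟨p, hp, -, hpW, hd⟩ := h2
    refine ⟨p, hp, hpW, ?_⟩
    rw [← hus v hv]
    exact_mod_cast hd
  -- the system of forms
  obtain ⟨be, hbe⟩ : ∃ be : Fin k → ℤ, be = fun l => E.orderEmbOfFin hE l := ⟨_, rfl⟩
  have hbeE : ∀ l, be l ∈ E := fun l => by rw [hbe]; exact Finset.orderEmbOfFin_mem E hE l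
  have hbeS : ∀ e ∈ E, ∃ l, be l = e := by
    intro e he
    have h1 : e ∈ Set.range (E.orderEmbOfFin hE) := by
      rw [Finset.range_orderEmbOfFin]
      exact he
    obtain ⟨l, hl⟩ := h1
    exact ⟨l, by rw [hbe]; exact hl⟩
  have hfm : ∀ (l : Fin k) (n : ℕ), fm (fun _ => 1) be l n = (n : ℤ) + be l := by
    intro l n
    unfold fm
    push_cast
    ring
  have hAdmS : AdmS (fun _ => 1) be := by
    intro p hp
    obtain ⟨r, hr⟩ := hAdm p hp
    have hp0 : (p : ℤ) ≠ 0 := by exact_mod_cast hp.ne_zero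
    refine ⟨(r % (p : ℤ)).toNat, fun l hd => ?_⟩
    rw [hfm, Int.toNat_of_nonneg (Int.emod_nonneg _ hp0)] at hd
    apply hr (be l) (hbeE l)
    have h3 : r + be l = (r % (p : ℤ) + be l) + (p : ℤ) * (r / (p : ℤ)) := by
      have := Int.emod_add_mul_ediv r (p : ℤ)
      linarith
    rw [h3]
    exact dvd_add hd (dvd_mul_right _ _)
  have hbig := hL X g1 W u hW1 hWθ be (by
    intro l
    have h1 := hEc (be l) (hbeE l)
    have h2 : c * Rk X ≤ 1 * Rk X := mul_le_mul_of_nonneg_right hc1 hRk0.le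
    push_cast
    linarith) hAdmS (by
    intro p hp hpW l
    rw [hfm]
    exact F1 (be l) (hbeE l) p hp hpW) B H hXH hBH
  -- the points
  have hsub : PtsW (fun _ => 1) be i R W u (X ^ (h / 6)) (X ^ (1 / (t₀ : ℝ))) B H ⊆
      Pool.Agent.Q117.SI.PtsR E (E.orderEmbOfFin hE i) R (X ^ (h / 6)) (X ^ (1 / (t : ℝ)))
        (c * Rk X) (Real.log X) B H := by
    intro n hn
    unfold PtsW at hn
    obtain ⟨hn0, hn1, hn2, hn3, hn4⟩ := Finset.mem_filter.1 hn
    unfold Pool.Agent.Q117.SI.PtsR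
    rw [Finset.mem_filter]
    have hbi : be i = E.orderEmbOfFin hE i := by rw [hbe]
    rw [hfm, hbi] at hn2
    simp only [hfm] at hn3 hn4
    rw [hbi] at hn3
    refine ⟨hn0, hn2, hn3, ?_, ?_⟩
    · intro e he p hp hd
      obtain ⟨l, rfl⟩ := hbeS e he
      have h1 := hn4 l p hp hd
      refine lt_of_le_of_lt ?_ h1
      apply Real.rpow_le_rpow_of_exponent_le hX1
      have h2 : (0 : ℝ) < t₀ := by exact_mod_cast ht₀
      exact one_div_le_one_div_of_le h2 (by exact_mod_cast htt)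
    · intro s hs hsE hRo
      obtain ⟨p, hp, hpW, hd⟩ := F2 s hs hsE
      have h1 : (p : ℤ) ∣ (n : ℤ) - u := by
        have h2 : (n : ℤ) ≡ u [ZMOD W] := by exact_mod_cast hn1
        have h3 : (W : ℤ) ∣ (u : ℤ) - n := h2.dvd
        have h4 : (p : ℤ) ∣ (u : ℤ) - n := dvd_trans (by exact_mod_cast hpW) h3
        rw [← neg_sub]
        exact (dvd_neg).2 h4
      have h5 : (p : ℤ) ∣ (n : ℤ) + s := by
        have e : (n : ℤ) + s = (n - u) + (u + s) := by ring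
        rw [e]
        exact dvd_add h1 hd
      have h6 := hRo p hp h5
      have h7 := hW3 p hp hpW
      linarith
  have hcardle : ((PtsW (fun _ => 1) be i R W u (X ^ (h / 6)) (X ^ (1 / (t₀ : ℝ))) B H).card : ℝ) ≤
      ((Pool.Agent.Q117.SI.PtsR E (E.orderEmbOfFin hE i) R (X ^ (h / 6)) (X ^ (1 / (t : ℝ)))
        (c * Rk X) (Real.log X) B H).card : ℝ) := by
    exact_mod_cast Finset.card_le_card hsub
  refine le_trans ?_ (hbig.trans hcardle)
  -- the size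
  have hfl2 : 2 ≤ ⌊X⌋₊ := Nat.le_floor (by push_cast; linarith)
  have hVV := hV ⌊X⌋₊ hfl2 (ZZ be) (ZZ_sys hAdmS)
  have hprod := prod_low hAdmS X W
  have hlogfl : 0 < Real.log (⌊X⌋₊ : ℝ) := Real.log_pos (by exact_mod_cast (by omega : 1 < ⌊X⌋₊))
  have hlogle : Real.log (⌊X⌋₊ : ℝ) ≤ Real.log X := by
    apply Real.log_le_log
    · exact_mod_cast (by omega : 0 < ⌊X⌋₊)
    · exact Nat.floor_le hX0.le
  have hlogX : 0 < Real.log X := by linarith
  have hP : cV / Real.log X ^ k ≤ ∏ p ∈ (Icc 1 ⌊X⌋₊).filter (fun p : ℕ => p.Prime ∧ ¬ p ∣ W),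
      (1 - (om (fun _ => 1) be p : ℝ) / p) := by
    refine le_trans ?_ (hVV.trans hprod)
    apply div_le_div_of_nonneg_left hcV.le (by positivity)
    exact pow_le_pow_left₀ hlogfl.le hlogle k
  have hfin : X ^ (-ε) ≤ c₁ * (1 / W * (cV / Real.log X ^ k)) := by
    have h1 : (W : ℝ) * Real.log X ^ k ≤ X ^ (ε / 2) * (c₁ * cV * X ^ (ε / 2)) :=
      mul_le_mul hWε e1 (by positivity) (by positivity)
    have h2 : X ^ (ε / 2) * (c₁ * cV * X ^ (ε / 2)) = c₁ * cV * X ^ ε := by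
      have : X ^ ε = X ^ (ε / 2) * X ^ (ε / 2) := by
        rw [← Real.rpow_add hX0]
        congr 1
        ring
      rw [this]; ring
    rw [h2] at h1
    have h3 : c₁ * (1 / W * (cV / Real.log X ^ k)) = c₁ * cV / (W * Real.log X ^ k) := by
      field_simp
    rw [h3, Real.rpow_neg hX0.le, le_div_iff₀ (by positivity), inv_mul_le_iff₀ (by positivity)]
    linarith
  calc (H : ℝ) * X ^ (-ε) ≤ H * (c₁ * (1 / W * (cV / Real.log X ^ k))) :=
        mul_le_mul_of_nonneg_left hfin (Nat.cast_nonneg _)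
    _ = c₁ * ((H : ℝ) / W * (cV / Real.log X ^ k)) := by ring
    _ ≤ _ := by
        apply mul_le_mul_of_nonneg_left _ hc₁.le
        exact mul_le_mul_of_nonneg_left hP (by positivity)

/-- **RSI.** -/
theorem rsi : St_RSI := by
  intro hL hC hK k R h ε hk hR hh h25 hε
  have main : ∀ x : (Σ k' : Fin (k + 1), Fin k'.val), ∀ᶠ t : ℕ in atTop, ∀ᶠ c : ℝ in 𝓝[>] 0,
      ∀ᶠ X : ℝ in atTop, RS R h ε x.1.val x.2 t c X := by
    rintro ⟨k', i⟩
    have hk' : 1 ≤ k'.val := Nat.one_le_iff_ne_zero.2 (fun h0 => by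
      have := i.isLt
      omega)
    exact rs_main hL hC hK hk' hR hh h25 hε i
  have h1 : ∀ᶠ t : ℕ in atTop, ∀ᶠ c : ℝ in 𝓝[>] 0, ∀ᶠ X : ℝ in atTop,
      ∀ x : (Σ k' : Fin (k + 1), Fin k'.val), RS R h ε x.1.val x.2 t c X := by
    filter_upwards [eventually_all.2 main] with t ht
    filter_upwards [eventually_all.2 ht] with c hc
    exact eventually_all.2 hc
  obtain ⟨t, ht1, ht⟩ := ((eventually_ge_atTop 1).and h1).exists
  obtain ⟨c, hc, hc0⟩ := (ht.and self_mem_nhdsWithin).exists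
  obtain ⟨X0, hX0⟩ := eventually_atTop.1 hc
  refine ⟨t, ht1, c, hc0, X0, ?_⟩
  intro X hX E hE hEc hAdm a ha B H hXH hBH
  obtain ⟨i, hi⟩ : ∃ i : Fin E.card, E.orderEmbOfFin rfl i = a := by
    have h2 : a ∈ Set.range (E.orderEmbOfFin rfl) := by
      rw [Finset.range_orderEmbOfFin]
      exact ha
    exact h2
  have h2 := hX0 X hX ⟨⟨E.card, by omega⟩, i⟩ E rfl hEc hAdm B H hXH hBH
  rw [hi] at h2
  exact h2

end Pool.Agent.Q117.SI
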