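import Pool.Agent.Q117.SI.Stm

/-!
# Project SI, job RKS: Rankin's function at the scale `X ^ α`
-/

set_option autoImplicit false

namespace Pool.Agent.Q117.SI

open Finset Filter
open Pool.Agent.Q117.GP (Rk)

/-- **RKS.** -/
theorem rks : St_RKS := by
  intro α hα hα1
  have l1 : Tendsto (fun X : ℝ => Real.log X) atTop atTop := Real.tendsto_log_atTop
  have l2 : Tendsto (fun X : ℝ => Real.log (Real.log X)) atTop atTop := l1.comp l1
  have l3 : Tendsto (fun X : ℝ => Real.log (Real.log (Real.log X))) atTop atTop := l1.comp l2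
  have l4 : Tendsto (fun X : ℝ => Real.log (Real.log (Real.log (Real.log X)))) atTop atTop :=
    l1.comp l3
  have hev := (eventually_gt_atTop (0 : ℝ)).and ((l1.eventually_ge_atTop 1).and
    ((l2.eventually_ge_atTop (max 1 (-2 * Real.log α))).and
    ((l3.eventually_ge_atTop 2).and (l4.eventually_ge_atTop 2))))
  obtain ⟨X0, hX0⟩ := eventually_atTop.1 hev
  refine ⟨X0, fun X hX => ?_⟩
  obtain ⟨hX1, hT, hA, hB, hD⟩ := hX0 X hX
  have hlog : Real.log (X ^ α) = α * Real.log X := Real.log_rpow hX1 α
  unfold Rk
  rw [hlog]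
  set T := Real.log X with hTd
  set A := Real.log T with hAd
  set B := Real.log A with hBd
  set D := Real.log B with hDd
  have hA1 : 1 ≤ A := (le_max_left _ _).trans hA
  have hA2 : -2 * Real.log α ≤ A := (le_max_right _ _).trans hA
  have hT0 : 0 < T := by linarith
  have hA0 : 0 < A := by linarith
  have hB0 : 0 < B := by linarith
  have hAT : A ≤ T := by
    have := Real.log_le_sub_one_of_pos hT0
    linarith
  have hDB : D ≤ B := by
    have := Real.log_le_sub_one_of_pos hB0
    linarith
  have hlog2 : Real.log 2 < 1 := by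
    have := Real.log_two_lt_d9
    linarith
  refine ⟨by positivity, ?_, ?_⟩
  · rw [div_le_iff₀ (by positivity)]
    have h1 : T * A ≤ T * T := mul_le_mul_of_nonneg_left hAT hT0.le
    have h2 : D ≤ B ^ 2 := by nlinarith
    calc T * A * D ≤ T * T * B ^ 2 := mul_le_mul h1 h2 (by linarith) (by positivity)
      _ = _ := by ring
  · -- the scale `X ^ α`
    have hla : Real.log α ≤ 0 := Real.log_nonpos hα.le hα1
    set A' := Real.log (α * T) with hA'
    have e1 : A' = Real.log α + A := Real.log_mul hα.ne' hT0.ne'
    have a1 : A / 2 ≤ A' := by linarith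
    have a2 : A' ≤ A := by linarith
    have a0 : 0 < A' := by linarith
    set B' := Real.log A' with hB'
    have b1 : B - Real.log 2 ≤ B' := by
      rw [hBd, ← Real.log_div hA0.ne' (by norm_num)]
      exact Real.log_le_log (by positivity) a1
    have b2 : B' ≤ B := Real.log_le_log a0 a2
    have b3 : B / 2 ≤ B' := by linarith
    have b0 : 0 < B' := by linarith
    set D' := Real.log B' with hD'
    have d1 : D - Real.log 2 ≤ D' := by
      rw [hDd, ← Real.log_div hB0.ne' (by norm_num)]
      exact Real.log_le_log (by positivity) b3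
    have d2 : D / 2 ≤ D' := by linarith
    have d0 : 0 < D' := by linarith
    have h1 : T * A * D / B ^ 2 ≤ T * A * D / B' ^ 2 := by
      apply div_le_div_of_nonneg_left (by positivity) (by positivity)
      exact pow_le_pow_left₀ b0.le b2 2
    have h2 : T * A * D ≤ 4 / α * (α * T * A' * D') := by
      have h3 : 4 / α * (α * T * A' * D') = 4 * (T * A' * D') := by
        field_simp
      rw [h3]
      have h4 : A / 2 * (D / 2) ≤ A' * D' := mul_le_mul a1 d2 (by linarith) a0.le
      have h5 : T * (A / 2 * (D / 2)) ≤ T * (A' * D') := mul_le_mul_of_nonneg_left h4 hT0.le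
      linarith
    calc T * A * D / B ^ 2 ≤ T * A * D / B' ^ 2 := h1
      _ ≤ 4 / α * (α * T * A' * D') / B' ^ 2 := by
          apply div_le_div_of_nonneg_right h2 (by positivity)
      _ = _ := by ring

end Pool.Agent.Q117.SI
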