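import Pool.Agent.Q117.SI.Stm
import Pool.Agent.Y843.QD.Cnt

/-!
# The weighted sieve with additional classes for the small primes
-/

set_option autoImplicit false

namespace Pool.Agent.Q117.SI.WZ

open Finset Filter
open Pool.Agent.W23.DC (pr tt Mer)
open Pool.Agent.Y882 (PZ tt_lt prod_inj)
open Pool.Agent.Y882.KW
open Pool.Agent.Y882.PX (pow_card_le)
open Pool.Agent.Y843.HS (Pr VV Pr_mem Pr_prime)
open Pool.Agent.Q253.Thin (SysZ VZ_nonneg VZ_low)
open Pool.Agent.Q253.P3 (rl merl card_class)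

/-- the multiples of `d` form one class -/
theorem root (a b : ℤ) (d : ℕ) (hd : 0 < d) (had : IsCoprime a (d : ℤ)) :
    ∃ v : ℕ, ∀ j : ℕ, (d : ℤ) ∣ a * j + b ↔ j ≡ v [MOD d] := by
  obtain ⟨v, hv⟩ : ∃ v : ℕ, (d : ℤ) ∣ a * v + b := by
    obtain ⟨x, y, hxy⟩ := had
    refine ⟨((-(x * b)) % (d : ℤ)).toNat, ?_⟩
    have h0 : 0 ≤ (-(x * b)) % (d : ℤ) := Int.emod_nonneg _ (by exact_mod_cast hd.ne')
    rw [Int.toNat_of_nonneg h0]
    have h1 : (d : ℤ) ∣ (-(x * b)) - (-(x * b)) % (d : ℤ) := Int.dvd_self_sub_emod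
    have h2 : a * ((-(x * b)) % (d : ℤ)) + b =
        b * (1 - x * a) - a * ((-(x * b)) - (-(x * b)) % (d : ℤ)) := by ring
    rw [h2]
    exact dvd_sub (Dvd.dvd.mul_left ⟨y, by linarith⟩ b) (Dvd.dvd.mul_left h1 a)
  refine ⟨v, fun j => ?_⟩
  constructor
  · intro h
    have h2 : (d : ℤ) ∣ a * ((j : ℤ) - v) := by
      have := dvd_sub h hv
      have e : a * (j : ℤ) + b - (a * v + b) = a * ((j : ℤ) - v) := by ring
      rwa [e] at this
    have h3 : (d : ℤ) ∣ (j : ℤ) - v := had.symm.dvd_of_dvd_mul_left h2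
    exact (Nat.modEq_iff_dvd.2 h3).symm
  · intro h
    have h3 : (d : ℤ) ∣ (j : ℤ) - v := Nat.modEq_iff_dvd.1 h.symm
    have e : a * (j : ℤ) + b = a * ((j : ℤ) - v) + (a * v + b) := by ring
    rw [e]
    exact dvd_add (Dvd.dvd.mul_left h3 a) hv

theorem card_linZ (a b : ℤ) (B H d : ℕ) (hd : 0 < d) (had : IsCoprime a (d : ℤ)) :
    |((((Ioc B (B + H)).filter (fun j : ℕ => (d : ℤ) ∣ a * j + b)).card : ℝ)) - (H : ℝ) / d| ≤ 1 := by
  obtain ⟨v, hv⟩ := root a b d hd had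
  have h1 : (Ioc B (B + H)).filter (fun j : ℕ => (d : ℤ) ∣ a * j + b) =
      (Ioc B (B + H)).filter (fun j => j ≡ v [MOD d]) := filter_congr fun j _ => hv j
  rw [h1]
  exact card_class B H d v hd

theorem cop_of_not_dvd {a : ℤ} {p : ℕ} (hp : p.Prime) (h : ¬ p ∣ a.natAbs) : IsCoprime a (p : ℤ) := by
  have h1 : Nat.Coprime a.natAbs p := by
    rw [Nat.coprime_comm]
    exact (Nat.Prime.coprime_iff_not_dvd hp).2 h
  rw [Int.isCoprime_iff_gcd_eq_one, Int.gcd, Int.natAbs_natCast]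
  exact h1

theorem not_both {a b : ℤ} (hab : IsCoprime a b) {p : ℕ} (hp : p.Prime) (h1 : (p : ℤ) ∣ a) (h2 : (p : ℤ) ∣ b) :
    False := by
  have h3 := hab.isUnit_of_dvd' h1 h2
  rw [Int.isUnit_iff_natAbs_eq, Int.natAbs_natCast] at h3
  exact hp.one_lt.ne' h3

/-- the number of the classes of the large primes -/
theorem Z_card {K : ℕ} {Z : ℕ → Finset ℕ} (hZ : SysZ K Z) {a b : ℤ} (hab : IsCoprime a b) {p : ℕ}
    (hp : p.Prime) (h2 : ∀ m : ℕ, m % p ∈ Z p ↔ (p : ℤ) ∣ a * m + b) : (Z p).card = rl a.natAbs p := by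
  unfold rl
  split_ifs with h
  · rw [card_eq_zero, eq_empty_iff_forall_notMem]
    intro c hc
    have hcp := hZ.lt p hp c hc
    have h3 := (h2 c).1 (by rwa [Nat.mod_eq_of_lt hcp])
    have h4 : (p : ℤ) ∣ a := Int.natCast_dvd.2 h
    have h5 : (p : ℤ) ∣ b := (dvd_add_right (h4.mul_right _)).1 h3
    exact not_both hab hp h4 h5
  · obtain ⟨v, hv⟩ := root a b p hp.pos (cop_of_not_dvd hp h)
    rw [card_eq_one]
    refine ⟨v % p, ?_⟩
    ext c
    rw [mem_singleton]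
    constructor
    · intro hc
      have hcp := hZ.lt p hp c hc
      have h3 := (hv c).1 ((h2 c).1 (by rwa [Nat.mod_eq_of_lt hcp]))
      have h4 : c % p = v % p := h3
      rwa [Nat.mod_eq_of_lt hcp] at h4
    · rintro rfl
      exact (h2 v).2 ((hv v).2 rfl)

/-- the member of the sequence -/
noncomputable def am (X : ℕ) (ε : ℝ) (a b : ℤ) (Z : ℕ → Finset ℕ) (m : ℕ) : ℕ :=
  open Classical in (a * m + b).natAbs * ∏ p ∈ (PZ X ε).filter (fun p => m % p ∈ Z p), p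

theorem PZ_mem {X : ℕ} {w : ℝ} {p : ℕ} : p ∈ PZ X w ↔ (1 ≤ p ∧ p ≤ X) ∧ p.Prime ∧ tt X p < w := by
  unfold PZ
  rw [mem_filter, mem_Icc]

theorem am_dvd {X : ℕ} {ε υ : ℝ} (hX : 2 ≤ X) {a b : ℤ} {Z : ℕ → Finset ℕ}
    (H1 : ∀ p : ℕ, p.Prime → (p : ℝ) < (X : ℝ) ^ ε → ∀ m : ℕ, (p : ℤ) ∣ a * m + b → m % p ∈ Z p)
    (H2 : ∀ p : ℕ, p.Prime → (X : ℝ) ^ ε ≤ p → ∀ m : ℕ, m % p ∈ Z p ↔ (p : ℤ) ∣ a * m + b)
    {p : ℕ} (hp : p ∈ PZ X υ) (m : ℕ) : p ∣ am X ε a b Z m ↔ m % p ∈ Z p := by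
  classical
  rw [PZ_mem] at hp
  have hpp := hp.2.1
  have hprod : p ∣ ∏ q ∈ (PZ X ε).filter (fun q => m % q ∈ Z q), q → p ∈ PZ X ε ∧ m % p ∈ Z p := by
    intro h
    obtain ⟨q, hq, hpq⟩ := (hpp.prime.dvd_finsetProd_iff _).1 h
    rw [mem_filter] at hq
    have e : p = q := (Nat.prime_dvd_prime_iff_eq hpp (PZ_mem.1 hq.1).2.1).1 hpq
    rw [e]
    exact hq
  unfold am
  rcases lt_or_ge (p : ℝ) ((X : ℝ) ^ ε) with hlt | hge
  · constructor
    · intro h
      rcases (Nat.Prime.dvd_mul hpp).1 h with h | h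
      · exact H1 p hpp hlt m (Int.natCast_dvd.2 h)
      · exact (hprod h).2
    · intro h
      refine Dvd.dvd.mul_left (dvd_prod_of_mem _ ?_) _
      rw [mem_filter, PZ_mem]
      exact ⟨⟨hp.1, hpp, (tt_lt X p ε hX hpp.pos).2 hlt⟩, h⟩
  · constructor
    · intro h
      rcases (Nat.Prime.dvd_mul hpp).1 h with h | h
      · exact (H2 p hpp hge m).2 (Int.natCast_dvd.2 h)
      · exact (hprod h).2
    · intro h
      exact Dvd.dvd.mul_right (Int.natCast_dvd.1 ((H2 p hpp hge m).1 h)) _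

theorem am_prod_dvd {X : ℕ} {ε υ : ℝ} (hX : 2 ≤ X) {a b : ℤ} {Z : ℕ → Finset ℕ}
    (H1 : ∀ p : ℕ, p.Prime → (p : ℝ) < (X : ℝ) ^ ε → ∀ m : ℕ, (p : ℤ) ∣ a * m + b → m % p ∈ Z p)
    (H2 : ∀ p : ℕ, p.Prime → (X : ℝ) ^ ε ≤ p → ∀ m : ℕ, m % p ∈ Z p ↔ (p : ℤ) ∣ a * m + b)
    {T : Finset ℕ} (hT : T ⊆ PZ X υ) (m : ℕ) : ∏ p ∈ T, p ∣ am X ε a b Z m ↔ ∀ p ∈ T, m % p ∈ Z p := by
  constructor
  · intro h p hp
    exact (am_dvd hX H1 H2 (hT hp) m).1 ((dvd_prod_of_mem _ hp).trans h)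
  · intro h
    apply Finset.prod_primes_dvd
    · intro p hp
      exact (PZ_mem.1 (hT hp)).2.1.prime
    · intro p hp
      exact (am_dvd hX H1 H2 (hT hp) m).2 (h p hp)

end Pool.Agent.Q117.SI.WZ

namespace Pool.Agent.Q117.SI

open Finset Filter
open Pool.Agent.W23.DC (pr tt Mer)
open Pool.Agent.Y882 (PZ tt_lt prod_inj)
open Pool.Agent.Y882.KW
open Pool.Agent.Y882.PX (pow_card_le)
open Pool.Agent.Y843.HS (Pr VV Pr_mem Pr_prime)
open Pool.Agent.Q253.Thin (SysZ VZ_nonneg VZ_low)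
open Pool.Agent.Q253.P3 (rl merl card_class)
open WZ

/-- **WZ** -/
theorem wz : St_WZ := by
  classical
  intro K R h hK1 hR3 hh1 hr
  have hr1 : (1 : ℝ) ≤ R := by exact_mod_cast hR3
  have h8 : (0 : ℝ) < 3 * (8 * R - 1) := by linarith
  have hh0 : 0 < h := by
    by_contra hcon
    push Not at hcon
    nlinarith
  obtain ⟨h₀, hh₀⟩ : ∃ h₀ : ℝ, h₀ = 25 / (3 * (8 * R - 1)) := ⟨_, rfl⟩
  have hh00 : 0 < h₀ := by rw [hh₀]; positivity
  have hlt : h₀ < h := by
    rw [hh₀, div_lt_iff₀ h8]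
    linarith
  obtain ⟨τ, hτ⟩ : ∃ τ, τ = max ((h + h₀) / 2) (9 / 10 * h) := ⟨_, rfl⟩
  have hτ1 : (h + h₀) / 2 ≤ τ := by rw [hτ]; exact le_max_left _ _
  have hτ2 : 9 / 10 * h ≤ τ := by rw [hτ]; exact le_max_right _ _
  have hτh : τ < h := by
    rw [hτ]
    apply max_lt <;> linarith
  have hτ0 : 0 < τ := by linarith
  have hτh₀ : h₀ < τ := by linarith
  obtain ⟨g, hg⟩ : ∃ g, g = h - τ := ⟨_, rfl⟩
  have hg0 : 0 < g := by rw [hg]; linarith
  have h24 : 0 < 24 / 25 * τ := by positivity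
  have hc := cond_A τ (8 / 9) hτ0 (by norm_num) (by norm_num)
  obtain ⟨δ, ε₁, η, hδ, hε₁, hε₁ζ, hε₁β, hη, Y0, HC⟩ := core4 K τ (τ / 4) (24 / 25 * τ) (8 / 9)
    ((8 / 9) / (24 / 25 * τ)) (τ + g / 4) h (g / 4) (by positivity) (by linarith) (by linarith) (by linarith)
    (by linarith) (by linarith) (by norm_num) (by positivity) (by rw [div_mul_cancel₀ _ h24.ne']) hc (by linarith)
    (by linarith) (by positivity)
  obtain ⟨Y1, HM⟩ := merl ε₁ (24 / 25 * τ) η hε₁ (by linarith) hη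
  obtain ⟨cV, hcV, hlow⟩ := VZ_low K hK1
  obtain ⟨C, hC1, hCT⟩ := pow_card_le K (g / 4) (by positivity)
  have hKr : (1 : ℝ) ≤ K := by exact_mod_cast hK1
  -- eventual inequalities
  have hlog : ∀ M s : ℝ, ∀ k : ℕ, 0 < M → 0 < s → ∀ᶠ X : ℕ in atTop, M * Real.log X ^ k ≤ (X : ℝ) ^ s := by
    intro M s k hM hs
    have h1 := (isLittleO_log_rpow_rpow_atTop (k : ℝ) hs).def (show (0 : ℝ) < 1 / M by positivity)
    have h2 := (tendsto_natCast_atTop_atTop (R := ℝ)).eventually h1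
    filter_upwards [h2, eventually_ge_atTop 1] with X hX h1
    have hX1 : (1 : ℝ) ≤ X := by exact_mod_cast h1
    have hl := Real.log_nonneg hX1
    rw [Real.norm_of_nonneg (by positivity), Real.norm_of_nonneg (by positivity), Real.rpow_natCast] at hX
    calc M * Real.log X ^ k ≤ M * (1 / M * (X : ℝ) ^ s) := mul_le_mul_of_nonneg_left hX hM.le
      _ = _ := by field_simp
  have ev1 := hlog (5 * C) (g / 8) 1 (by positivity) (by positivity)
  obtain ⟨sg, hsg⟩ : ∃ sg, sg = min (τ / 4) (h - 24 / 25 * τ) := ⟨_, rfl⟩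
  have hsg0 : 0 < sg := by
    rw [hsg]
    apply lt_min <;> linarith
  have ev2 := hlog (2 * 4 / (δ * cV)) sg K (by positivity) hsg0
  have ev3 : ∀ᶠ Y : ℕ in atTop, (3 : ℝ) ≤ (Y : ℝ) ^ (τ / 4) :=
    ((tendsto_rpow_atTop (by positivity)).comp tendsto_natCast_atTop_atTop).eventually_ge_atTop _
  have ev4 : ∀ᶠ Y : ℕ in atTop, (2 : ℝ) ≤ (Y : ℝ) ^ h :=
    ((tendsto_rpow_atTop (by linarith)).comp tendsto_natCast_atTop_atTop).eventually_ge_atTop _
  obtain ⟨X2, e1⟩ := eventually_atTop.1 (ev1.and (ev2.and (ev3.and (ev4.and (eventually_ge_atTop 3)))))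
  refine ⟨δ / 2, by positivity, ε₁, hε₁, τ / h₀, by rwa [one_lt_div hh00], max (max Y0 Y1) X2, ?_⟩
  intro X hX a b ha haX hab Z hZ H1 H2 B H hH hHX' hsize
  have x0 : Y0 ≤ X := ((le_max_left _ _).trans (le_max_left _ _)).trans hX
  have x1 : Y1 ≤ X := ((le_max_right _ _).trans (le_max_left _ _)).trans hX
  obtain ⟨x2, x3, x4, x5, x6⟩ := e1 X ((le_max_right _ _).trans hX)
  have hXr : (3 : ℝ) ≤ X := by exact_mod_cast x6
  have hX1 : (1 : ℝ) ≤ X := by linarith
  have hX0 : (0 : ℝ) < X := by linarith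
  have hlX : 0 < Real.log X := Real.log_pos (by linarith)
  rw [pow_one] at x2
  obtain ⟨cw, hw1, hw2, hw3⟩ := HC X x0
  have hPZ : ∀ w : ℝ, ∀ p ∈ PZ X w, p.Prime := by
    intro w p hp
    exact (PZ_mem.1 hp).2.1
  have hJ : (Ioc B (B + H)).card = H := by rw [Nat.card_Ioc]; omega
  have hHr : (0 : ℝ) ≤ H := Nat.cast_nonneg H
  have hH2 : 2 ≤ H := by
    have : (2 : ℝ) ≤ H := x5.trans hH
    exact_mod_cast this
  have hHX : (H : ℝ) ≤ X := by exact_mod_cast hHX'
  have haN : 1 ≤ a.natAbs := Int.natAbs_pos.2 ha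
  have haX' : a.natAbs ≤ X := by
    have : ((a.natAbs : ℕ) : ℤ) ≤ X := by rw [Int.natCast_natAbs]; exact haX
    exact_mod_cast this
  -- the remainder
  have hrem : |∑ T ∈ (PZ X (24 / 25 * τ)).powerset, cw T * ((((Ioc B (B + H)).filter (fun j : ℕ => ∏ p ∈ T, p ∣ am X ε₁ a b Z j)).card : ℝ) -
      (Ioc B (B + H)).card * ∏ p ∈ T, (((Z p).card : ℝ) / p))| ≤ (Ioc B (B + H)).card * (X : ℝ) ^ (-(g / 4)) := by
    rw [hJ]
    have hterm : ∀ T ∈ (PZ X (24 / 25 * τ)).powerset, |cw T * ((((Ioc B (B + H)).filter (fun j : ℕ => ∏ p ∈ T, p ∣ am X ε₁ a b Z j)).card : ℝ) -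
        H * ∏ p ∈ T, (((Z p).card : ℝ) / p))| ≤ if cw T ≠ 0 then 5 * Real.log X * (C * (X : ℝ) ^ (g / 4)) else 0 := by
      intro T hT
      rw [mem_powerset] at hT
      split_ifs with hcw
      · rw [abs_mul]
        have hTp : ∀ p ∈ T, p.Prime := fun p hp => hPZ _ p (hT hp)
        have h2 : (Ioc B (B + H)).filter (fun j : ℕ => ∏ p ∈ T, p ∣ am X ε₁ a b Z j) =
            (Ioc B (B + H)).filter (fun n : ℕ => ∀ p ∈ T, n % p ∈ Z p) := by
          apply filter_congr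
          intro n _
          exact am_prod_dvd (by omega) H1 H2 hT n
        rw [h2]
        have h3 := Pool.Agent.Y843.QD.card_classes T hTp Z (fun p hp => hZ.lt p (hTp p hp)) B H
        have h4 : ∏ p ∈ T, ((Z p).card : ℝ) ≤ C * (X : ℝ) ^ (g / 4) := by
          have h5 : ∏ p ∈ T, ((Z p).card : ℝ) ≤ (K : ℝ) ^ T.card := by
            calc ∏ p ∈ T, ((Z p).card : ℝ) ≤ ∏ p ∈ T, (K : ℝ) := by
                  apply Finset.prod_le_prod
                  · intro p _; positivity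
                  · intro p hp
                    exact_mod_cast hZ.card p (hTp p hp)
              _ = _ := by rw [prod_const]
          have h6 := hCT T hTp
          have h7 : ((∏ p ∈ T, p : ℕ) : ℝ) ≤ X := by
            refine (hw2 T hT hcw).trans ?_
            calc (X : ℝ) ^ (τ + g / 4) ≤ (X : ℝ) ^ (1 : ℝ) := Real.rpow_le_rpow_of_exponent_le hX1 (by linarith)
              _ = X := Real.rpow_one _
          refine h5.trans (h6.trans ?_)
          apply mul_le_mul_of_nonneg_left _ (by linarith)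
          exact Real.rpow_le_rpow (by positivity) h7 (by positivity)
        exact mul_le_mul (hw1 T) (h3.trans h4) (abs_nonneg _) (by positivity)
      · push Not at hcw
        rw [hcw, zero_mul, abs_zero]
    refine (abs_sum_le_sum_abs _ _).trans ((sum_le_sum hterm).trans ?_)
    rw [← sum_filter, sum_const, nsmul_eq_mul]
    have hcard : ((((PZ X (24 / 25 * τ)).powerset.filter (fun T => cw T ≠ 0)).card : ℕ) : ℝ) ≤ (X : ℝ) ^ (τ + g / 4) := by
      have h1 : ((PZ X (24 / 25 * τ)).powerset.filter (fun T => cw T ≠ 0)).card ≤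
          (Icc 1 ⌊(X : ℝ) ^ (τ + g / 4)⌋₊).card := by
        apply card_le_card_of_injOn (fun T => ∏ p ∈ T, p)
        · intro T hT
          rw [coe_filter, Set.mem_ofPred_eq, mem_powerset] at hT
          rw [coe_Icc, Set.mem_Icc]
          exact ⟨Nat.pos_of_ne_zero (prod_ne_zero_iff.2 fun p hp => (hPZ _ p (hT.1 hp)).ne_zero),
            Nat.le_floor (hw2 T hT.1 hT.2)⟩
        · intro T hT T' hT' he
          rw [coe_filter, Set.mem_ofPred_eq, mem_powerset] at hT hT'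
          exact prod_inj _ (hPZ _) hT.1 hT'.1 he
      rw [Nat.card_Icc, Nat.add_sub_cancel] at h1
      calc ((((PZ X (24 / 25 * τ)).powerset.filter (fun T => cw T ≠ 0)).card : ℕ) : ℝ) ≤
            (⌊(X : ℝ) ^ (τ + g / 4)⌋₊ : ℝ) := by exact_mod_cast h1
        _ ≤ _ := Nat.floor_le (by positivity)
    calc ((((PZ X (24 / 25 * τ)).powerset.filter (fun T => cw T ≠ 0)).card : ℕ) : ℝ) * (5 * Real.log X * (C * (X : ℝ) ^ (g / 4))) ≤
          (X : ℝ) ^ (τ + g / 4) * (5 * Real.log X * (C * (X : ℝ) ^ (g / 4))) :=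
          mul_le_mul_of_nonneg_right hcard (by positivity)
      _ = (X : ℝ) ^ (τ + g / 4) * (X : ℝ) ^ (g / 4) * (5 * C * Real.log X) := by ring
      _ ≤ (X : ℝ) ^ (τ + g / 4) * (X : ℝ) ^ (g / 4) * (X : ℝ) ^ (g / 8) :=
          mul_le_mul_of_nonneg_left x2 (by positivity)
      _ = (X : ℝ) ^ (τ + g / 4 + g / 4 + g / 8) := by
          rw [← Real.rpow_add hX0, ← Real.rpow_add hX0]
      _ ≤ (X : ℝ) ^ h * (X : ℝ) ^ (-(g / 4)) := by
          rw [← Real.rpow_add hX0]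
          apply Real.rpow_le_rpow_of_exponent_le hX1
          linarith
      _ ≤ _ := by gcongr
  have hMer : Mer (pr X ε₁ (24 / 25 * τ)) (tt X) (fun p => ((Z p).card : ℝ) / p) ε₁ (24 / 25 * τ) η := by
    intro u v hu huv hv
    have h1 := HM X x1 a.natAbs haN haX' u v hu huv hv
    have h2 : ∑ p ∈ (pr X ε₁ (24 / 25 * τ)).filter (fun p => u ≤ tt X p ∧ tt X p < v), ((Z p).card : ℝ) / p =
        ∑ p ∈ (pr X ε₁ (24 / 25 * τ)).filter (fun p => u ≤ tt X p ∧ tt X p < v), (rl a.natAbs p : ℝ) / p := by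
      apply sum_congr rfl
      intro p hp
      rw [mem_filter] at hp
      have hp1 := hp.1
      unfold pr at hp1
      rw [mem_filter] at hp1
      have hge : (X : ℝ) ^ ε₁ ≤ p := by
        by_contra hlt
        push Not at hlt
        have := (tt_lt X p ε₁ (by omega) hp1.2.1.pos).2 hlt
        linarith [hp1.2.2.1]
      rw [Z_card hZ hab hp1.2.1 (H2 p hp1.2.1 hge)]
    rw [h2]
    exact h1
  have hmain := hw3 (Ioc B (B + H)) (am X ε₁ a b Z) (fun p => (Z p).card) H hH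
    (fun p hp => hZ.card p hp) (fun p hp => (hZ.loc p hp).le) hMer hrem
  rw [hJ] at hmain
  have hVX : ∏ p ∈ (Icc 1 H).filter Nat.Prime, (1 - ((Z p).card : ℝ) / p) = VV Z 0 H := by
    unfold VV
    apply prod_congr
    · ext q
      rw [Pr_mem, mem_filter, mem_Icc]
      constructor
      · rintro ⟨⟨a, b⟩, c⟩
        exact ⟨⟨c.pos, b⟩, c⟩
      · rintro ⟨⟨a, b⟩, c⟩
        exact ⟨⟨c.pos, b⟩, c⟩
    · intro q _
      rfl
  rw [hVX] at hmain
  -- the squares
  obtain ⟨S2, hS2⟩ : ∃ S2 : Finset ℕ, S2 = (pr X (τ / 4) (24 / 25 * τ)).biUnion (fun q => (Ioc B (B + H)).filter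
      (fun n : ℕ => ((q ^ 2 : ℕ) : ℤ) ∣ a * n + b)) := ⟨_, rfl⟩
  have hprm : ∀ q ∈ pr X (τ / 4) (24 / 25 * τ), q.Prime ∧ (X : ℝ) ^ (τ / 4) ≤ q ∧ (q : ℝ) < (X : ℝ) ^ (24 / 25 * τ) := by
    intro q hq
    unfold pr at hq
    rw [mem_filter] at hq
    refine ⟨hq.2.1, ?_, (tt_lt X q _ (by omega) hq.2.1.pos).1 hq.2.2.2⟩
    by_contra hlt
    push Not at hlt
    have := (tt_lt X q (τ / 4) (by omega) hq.2.1.pos).2 hlt
    linarith [hq.2.2.1]
  have hS2c : (S2.card : ℝ) ≤ 4 * (H / (X : ℝ) ^ sg) := by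
    have h1 : (S2.card : ℝ) ≤ ∑ q ∈ pr X (τ / 4) (24 / 25 * τ), ((H : ℝ) * (1 / (q : ℝ) ^ 2) + 1) := by
      rw [hS2]
      calc ((((pr X (τ / 4) (24 / 25 * τ)).biUnion (fun q => (Ioc B (B + H)).filter
            (fun n : ℕ => ((q ^ 2 : ℕ) : ℤ) ∣ a * n + b))).card : ℕ) : ℝ) ≤
            ∑ q ∈ pr X (τ / 4) (24 / 25 * τ), ((((Ioc B (B + H)).filter (fun n : ℕ => ((q ^ 2 : ℕ) : ℤ) ∣ a * n + b)).card : ℕ) : ℝ) := by
            exact_mod_cast card_biUnion_le
        _ ≤ _ := by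
            apply sum_le_sum
            intro q hq
            obtain ⟨q1, q2, q3⟩ := hprm q hq
            by_cases hqm : q ∣ a.natAbs
            · have h2 : (Ioc B (B + H)).filter (fun n : ℕ => ((q ^ 2 : ℕ) : ℤ) ∣ a * n + b) = ∅ := by
                apply filter_false_of_mem
                intro n _ hd
                have h3 : (q : ℤ) ∣ a * n + b := by
                  refine dvd_trans ?_ hd
                  exact_mod_cast dvd_pow_self q (by norm_num)
                have h4 : (q : ℤ) ∣ a := Int.natCast_dvd.2 hqm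
                have h5 : (q : ℤ) ∣ b := (dvd_add_right (h4.mul_right _)).1 h3
                exact not_both hab q1 h4 h5
              rw [h2, card_empty, Nat.cast_zero]
              positivity
            · have hcop : IsCoprime a ((q ^ 2 : ℕ) : ℤ) := by
                rw [Nat.cast_pow]
                exact (cop_of_not_dvd q1 hqm).pow_right
              have h2 := card_linZ a b B H (q ^ 2) (pow_pos q1.pos 2) hcop
              have h3 := (abs_le.1 h2).2
              have e5 : (((q ^ 2 : ℕ) : ℕ) : ℝ) = (q : ℝ) ^ 2 := by push_cast; rfl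
              rw [e5, div_eq_mul_one_div] at h3
              linarith
    have h2 := Pool.Agent.Y882.MG.tail_sq (pr X (τ / 4) (24 / 25 * τ)) ((X : ℝ) ^ (τ / 4)) (by linarith) (fun q hq => (hprm q hq).2.1)
    have h3 := Pool.Agent.Y882.MG.card_lt (pr X (τ / 4) (24 / 25 * τ)) ((X : ℝ) ^ (24 / 25 * τ)) (by positivity)
      (fun q hq => ⟨(hprm q hq).1.one_le, (hprm q hq).2.2.le⟩)
    rw [sum_add_distrib, sum_const, nsmul_eq_mul, mul_one, ← mul_sum] at h1
    have h5 : (H : ℝ) * (2 / (X : ℝ) ^ (τ / 4)) ≤ 2 * (H / (X : ℝ) ^ sg) := by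
      have h6 : (X : ℝ) ^ sg ≤ (X : ℝ) ^ (τ / 4) :=
        Real.rpow_le_rpow_of_exponent_le hX1 (by rw [hsg]; exact min_le_left _ _)
      calc (H : ℝ) * (2 / (X : ℝ) ^ (τ / 4)) = 2 * (H / (X : ℝ) ^ (τ / 4)) := by ring
        _ ≤ _ := by
            apply mul_le_mul_of_nonneg_left _ (by norm_num)
            exact div_le_div_of_nonneg_left hHr (by positivity) h6
    have h6 : (X : ℝ) ^ (24 / 25 * τ) ≤ H / (X : ℝ) ^ sg := by
      rw [le_div_iff₀ (by positivity), ← Real.rpow_add hX0]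
      refine le_trans ?_ hH
      apply Real.rpow_le_rpow_of_exponent_le hX1
      have := min_le_right (τ / 4) (h - 24 / 25 * τ)
      rw [← hsg] at this
      linarith
    have h7 : 0 ≤ H / (X : ℝ) ^ sg := by positivity
    have h8 : (H : ℝ) * ∑ q ∈ pr X (τ / 4) (24 / 25 * τ), 1 / (q : ℝ) ^ 2 ≤ H * (2 / (X : ℝ) ^ (τ / 4)) :=
      mul_le_mul_of_nonneg_left h2 hHr
    linarith
  have hsubset : ((Ioc B (B + H)).filter (fun j : ℕ => 0 < WW X (τ / 4) (24 / 25 * τ) (8 / 9) ((8 / 9) / (24 / 25 * τ)) (am X ε₁ a b Z j))) ⊆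
      PtsZ a b Z R ((X : ℝ) ^ (h / 5)) ((X : ℝ) ^ ε₁) B H ∪ S2 := by
    intro n hn
    rw [mem_filter] at hn
    obtain ⟨hn1, hn2⟩ := hn
    rw [mem_union]
    by_cases hs : n ∈ S2
    · exact Or.inr hs
    · left
      have hnd : ∀ p ∈ PZ X (τ / 4), ¬ p ∣ am X ε₁ a b Z n := by
        have hW := hn2
        unfold WW at hW
        split_ifs at hW with hcond
        · exact hcond
        · simp at hW
      have hsmall : ∀ p : ℕ, p.Prime → (p : ℝ) < (X : ℝ) ^ ε₁ → p ∈ PZ X (τ / 4) := by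
        intro p hp hlt
        rw [PZ_mem]
        have hpX : (p : ℝ) ≤ X := by
          refine hlt.le.trans ?_
          calc (X : ℝ) ^ ε₁ ≤ (X : ℝ) ^ (1 : ℝ) := Real.rpow_le_rpow_of_exponent_le hX1 (by linarith)
            _ = X := Real.rpow_one _
        refine ⟨⟨hp.one_le, by exact_mod_cast hpX⟩, hp, ?_⟩
        exact lt_of_lt_of_le ((tt_lt X p ε₁ (by omega) hp.pos).2 hlt) hε₁ζ
      have hcls : ∀ p : ℕ, p.Prime → (p : ℝ) < (X : ℝ) ^ ε₁ → n % p ∉ Z p := by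
        intro p hp hlt hmem
        have hpm := hsmall p hp hlt
        exact hnd p hpm ((am_dvd (by omega) H1 H2 hpm n).2 hmem)
      have hempty : (PZ X ε₁).filter (fun p => n % p ∈ Z p) = ∅ := by
        apply filter_false_of_mem
        intro p hp
        have hp' := PZ_mem.1 hp
        exact hcls p hp'.2.1 ((tt_lt X p ε₁ (by omega) hp'.2.1.pos).1 hp'.2.2)
      have hval : am X ε₁ a b Z n = (a * n + b).natAbs := by
        unfold am
        rw [hempty, prod_empty, mul_one]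
      have h2PZ : 2 ∈ PZ X (τ / 4) := by
        rw [PZ_mem]
        refine ⟨⟨by norm_num, by omega⟩, Nat.prime_two, ?_⟩
        rw [tt_lt X 2 _ (by omega) (by norm_num)]
        push_cast
        linarith
      have hne : (a * n + b).natAbs ≠ 0 := by
        intro h0
        apply hnd 2 h2PZ
        rw [hval, h0]
        exact dvd_zero _
      have hsq' : ∀ q ∈ pr X (τ / 4) (24 / 25 * τ), ¬ q ^ 2 ∣ (a * n + b).natAbs := by
        intro q hq hd
        apply hs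
        rw [hS2, mem_biUnion]
        exact ⟨q, hq, mem_filter.2 ⟨hn1, Int.natCast_dvd.2 hd⟩⟩
      rw [hval] at hn2
      obtain ⟨r1, r2⟩ := almost X (by omega) (τ / 4) (24 / 25 * τ) (8 / 9) (τ / h₀) R (by linarith) (by linarith) (by linarith)
        (by norm_num) (by
          have e1 : (1 : ℝ) / (8 / 9) = 9 / 8 := by norm_num
          have e2 : τ / h₀ / (24 / 25 * τ) = 25 / 24 / h₀ := by
            field_simp
          have e3 : 25 / 24 / (25 / (3 * (8 * (R : ℝ) - 1))) = R - 1 / 8 := by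
            field_simp
            ring
          rw [e1, e2, hh₀, e3]
          linarith) (a * n + b).natAbs hne (by
          have := hsize n hn1
          rw [← Int.natCast_natAbs, Int.cast_natCast] at this
          exact this) hn2 hsq'
      unfold PtsZ
      rw [mem_filter]
      refine ⟨hn1, Int.natAbs_ne_zero.1 hne, r1, fun q hq hd => ?_, hcls⟩
      refine le_trans ?_ (r2 q hq (Int.natCast_dvd.1 hd))
      apply Real.rpow_le_rpow_of_exponent_le hX1
      linarith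
  have hfin : δ * H * VV Z 0 H ≤ ((PtsZ a b Z R ((X : ℝ) ^ (h / 5)) ((X : ℝ) ^ ε₁) B H).card : ℝ) + S2.card := by
    refine hmain.trans ?_
    exact_mod_cast (card_le_card hsubset).trans (card_union_le _ _)
  have hVlow := hlow H hH2 Z hZ
  have hsm : 4 * (H / (X : ℝ) ^ sg) ≤ δ / 2 * (H * VV Z 0 H) := by
    have hlH : 0 < Real.log H := Real.log_pos (by exact_mod_cast (by omega : 1 < H))
    have h1 : Real.log H ^ K ≤ Real.log X ^ K := pow_le_pow_left₀ hlH.le (Real.log_le_log (by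
      have : (2 : ℝ) ≤ H := by exact_mod_cast hH2
      linarith) hHX) K
    have h2 : cV / Real.log X ^ K ≤ VV Z 0 H := by
      refine le_trans ?_ hVlow
      exact div_le_div_of_nonneg_left hcV.le (by positivity) h1
    have h3 : 4 / (X : ℝ) ^ sg ≤ δ / 2 * (cV / Real.log X ^ K) := by
      rw [mul_div_assoc', div_le_div_iff₀ (by positivity) (by positivity)]
      have h4 : δ / 2 * cV * (2 * 4 / (δ * cV) * Real.log X ^ K) ≤ δ / 2 * cV * (X : ℝ) ^ sg :=
        mul_le_mul_of_nonneg_left x3 (by positivity)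
      have h5 : δ / 2 * cV * (2 * 4 / (δ * cV) * Real.log X ^ K) = 4 * Real.log X ^ K := by
        field_simp
      linarith
    calc 4 * (H / (X : ℝ) ^ sg) = H * (4 / (X : ℝ) ^ sg) := by ring
      _ ≤ H * (δ / 2 * (cV / Real.log X ^ K)) := mul_le_mul_of_nonneg_left h3 hHr
      _ ≤ H * (δ / 2 * VV Z 0 H) := by
          apply mul_le_mul_of_nonneg_left _ hHr
          exact mul_le_mul_of_nonneg_left h2 (by positivity)
      _ = _ := by ring
  have e : δ * H * VV Z 0 H = δ / 2 * (H * VV Z 0 H) + δ / 2 * (H * VV Z 0 H) := by ring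
  linarith

end Pool.Agent.Q117.SI
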