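import Pool.Agent.Q117.SI.Stm
import Pool.Agent.Q117.LF.Nsc

/-! Project SI (helper117), job NSI (helper299): the theorem at the natural scale in every short interval. -/

set_option autoImplicit false

namespace Pool.Agent.Q117.SI

open Finset Filter
open Pool.Agent.Q117.LF

namespace NSI

open Pool.Agent.Q117.LF.NscAux (om_le VN_nonneg GN_nonneg fm_sh Ro_mono AdmS_sh AdmS_one VN_sh case_a mem_win card_match D_bound)

open Classical in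
/-- the `n` for which all the forms of two systems are rough -/
noncomputable def S1 (T : ℕ) (X : ℝ) (B H : ℕ) {r s : ℕ} (A : Fin r → ℕ) (be : Fin r → ℤ) (A1 : Fin s → ℕ) (f : Fin s → ℤ) : Finset ℕ :=
  (Ioc B (B + H)).filter (fun n : ℕ => (∀ l, Ro (X ^ (1 / (T : ℝ))) (fm A be l n)) ∧
    ∀ x, Ro (X ^ (1 / (T : ℝ))) (fm A1 f x n))

open Classical in
/-- the `n` which are bad for the family of the shifts of one system -/
noncomputable def BadN (T : ℕ) (X L : ℝ) (B H : ℕ) {r s : ℕ} (A : Fin r → ℕ) (be : Fin r → ℤ) (A1 : Fin s → ℕ) (be1 : Fin s → ℤ) : Finset ℕ :=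
  (Ioc B (B + H)).filter (fun n : ℕ => (∀ l, Ro (X ^ (1 / (T : ℝ))) (fm A be l n)) ∧
    ∃ d : ℤ, |(d : ℝ)| ≤ L ∧ (∀ x, Ro (X ^ (1 / (T : ℝ))) (fm A1 (sh A1 be1 d) x n)) ∧
      ¬ ∀ x, ∃ l, A1 x = A l ∧ sh A1 be1 d x = be l)

lemma cnt_union (hU : St_UBI) (hP : St_PCO) (r s a0 T : ℕ) (h : ℝ) (hT : 1 ≤ T) (hh0 : 0 < h) (hh1 : h ≤ 1) :
    ∃ C : ℝ, 0 < C ∧ ∃ X0 : ℝ, ∀ X : ℝ, X0 ≤ X → ∀ B H : ℕ, X ^ h ≤ H → (H : ℝ) ≤ X → ∀ (A : Fin r → ℕ) (be : Fin r → ℤ) (A1 : Fin s → ℕ) (f : Fin s → ℤ),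
      (∀ l, 1 ≤ A l ∧ A l ≤ a0) → (∀ x, 1 ≤ A1 x ∧ A1 x ≤ a0) → AdmS A1 f →
      ((S1 T X B H A be A1 f).card : ℝ) ≤
        C * ((H : ℝ) * (VN ⌊X⌋₊ A be * VN ⌊X⌋₊ A1 f * ∏ x, ∏ l, GN 2 ⌊X⌋₊ ((A1 x : ℤ) * be l - A l * f x))) := by
  classical
  obtain ⟨CU, hCU, X0, hX0⟩ := hU (r + s) T a0 h hT hh0 hh1
  obtain ⟨CP, hCP, hPb⟩ := hP r s a0
  refine ⟨CU * CP, mul_pos hCU hCP, X0, fun X hX1 B H hH1 hH2 A be A1 f hA hA1 hf => ?_⟩
  have h1 := hX0 X hX1 (Fin.append A A1) (Fin.append be f) (by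
    intro l
    refine Fin.addCases (fun i => ?_) (fun i => ?_) l
    · rw [Fin.append_left]; exact hA i
    · rw [Fin.append_right]; exact hA1 i) B H hH1 hH2
  have h2 := hPb ⌊X⌋₊ A be A1 f hA hA1 hf
  have h3 : (S1 T X B H A be A1 f).card ≤ ((Ioc B (B + H)).filter (fun n : ℕ =>
      ∀ l, Ro (X ^ (1 / (T : ℝ))) (fm (Fin.append A A1) (Fin.append be f) l n))).card := by
    refine card_le_card fun n hn => ?_
    rw [S1, mem_filter] at hn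
    rw [mem_filter]
    refine ⟨hn.1, fun l => ?_⟩
    refine Fin.addCases (fun i => ?_) (fun i => ?_) l
    · simp only [fm, Fin.append_left]; exact hn.2.1 i
    · simp only [fm, Fin.append_right]; exact hn.2.2 i
  have h3' : ((S1 T X B H A be A1 f).card : ℝ) ≤ (((Ioc B (B + H)).filter (fun n : ℕ =>
      ∀ l, Ro (X ^ (1 / (T : ℝ))) (fm (Fin.append A A1) (Fin.append be f) l n))).card : ℝ) := by
    exact_mod_cast h3
  refine h3'.trans (h1.trans ?_)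
  calc CU * ((H : ℝ) * VN ⌊X⌋₊ (Fin.append A A1) (Fin.append be f))
      ≤ CU * ((H : ℝ) * (CP * (VN ⌊X⌋₊ A be * VN ⌊X⌋₊ A1 f * ∏ x, ∏ l, GN 2 ⌊X⌋₊ ((A1 x : ℤ) * be l - A l * f x)))) := by
        gcongr
    _ = _ := by ring

lemma S1_empty {r s : ℕ} {A : Fin r → ℕ} {be : Fin r → ℤ} {A1 : Fin s → ℕ} {f : Fin s → ℤ} {a0 T B H : ℕ} {X : ℝ}
    (hA : ∀ l, 1 ≤ A l ∧ A l ≤ a0) (hB : ∀ x, 1 ≤ A1 x ∧ A1 x ≤ a0) (hX : (a0 : ℝ) ≤ X ^ (1 / (T : ℝ)))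
    (x : Fin s) (l : Fin r) (hD : (A1 x : ℤ) * be l - A l * f x = 0) (hm : ¬ (A1 x = A l ∧ f x = be l)) :
    S1 T X B H A be A1 f = ∅ := by
  classical
  rw [S1, filter_eq_empty_iff]
  rintro n _ ⟨h1, h2⟩
  have hne : A1 x ≠ A l := by
    intro h
    refine hm ⟨h, ?_⟩
    rw [h] at hD
    have h3 : (A l : ℤ) ≠ 0 := by
      have := (hA l).1
      exact_mod_cast (by omega : A l ≠ 0)
    have h4 : (A l : ℤ) * (be l - f x) = 0 := by linarith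
    rcases mul_eq_zero.1 h4 with h5 | h5
    · exact absurd h5 h3
    · linarith
  refine case_a (hB x).1 (hA l).1 hne (u := fm A1 f x n) (v := fm A be l n) ?_ (z := X ^ (1 / (T : ℝ))) ?_ ?_ (h2 x) (h1 l)
  · simp only [fm]
    linarith
  · exact le_trans (by exact_mod_cast (hB x).2) hX
  · exact le_trans (by exact_mod_cast (hA l).2) hX

theorem per_sys (hU : St_UBI) (hP : St_PCO) (hA : St_AVG) (hO : St_OMS) (r s : ℕ) (A : Fin r → ℕ) (A1 : Fin s → ℕ)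
    (hA1 : ∀ l, 1 ≤ A l) (hs : 1 ≤ s) (hB1 : ∀ x, 1 ≤ A1 x) (K T : ℕ) (hT : 1 ≤ T)
    (h : ℝ) (hh0 : 0 < h) (hh1 : h ≤ 1) :
    ∃ C : ℝ, 0 < C ∧ ∃ X0 : ℝ, ∀ X : ℝ, X0 ≤ X → ∀ B H : ℕ, X ^ h ≤ H → (H : ℝ) ≤ X → ∀ be : Fin r → ℤ, (∀ l, |(be l : ℝ)| ≤ K * X) →
      ∀ be1 : Fin s → ℤ, (∀ x, |(be1 x : ℝ)| ≤ K * X) → AdmS A1 be1 → ∀ L : ℝ, 0 ≤ L → L ≤ X → ∀ ν : ℝ, 0 ≤ ν →
      L * VN ⌊X⌋₊ A1 be1 ≤ ν →
      ((BadN T X L B H A be A1 be1).card : ℝ) ≤ C * ((H : ℝ) * VN ⌊X⌋₊ A be) * (ν + 1 / (Real.log X) ^ (1 / 2 : ℝ)) := by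
  classical
  obtain ⟨a0, ha0⟩ : ∃ a0 : ℕ, a0 = ∑ l, A l + ∑ x, A1 x := ⟨_, rfl⟩
  have hAa : ∀ l, 1 ≤ A l ∧ A l ≤ a0 := fun l =>
    ⟨hA1 l, by rw [ha0]; exact (single_le_sum (f := A) (fun i _ => Nat.zero_le _) (mem_univ l)).trans (Nat.le_add_right _ _)⟩
  have hBa : ∀ x, 1 ≤ A1 x ∧ A1 x ≤ a0 := fun x =>
    ⟨hB1 x, by rw [ha0]; exact (single_le_sum (f := A1) (fun i _ => Nat.zero_le _) (mem_univ x)).trans (Nat.le_add_left _ _)⟩
  obtain ⟨C1, hC1, X1, hX1⟩ := cnt_union hU hP r 1 a0 T h hT hh0 hh1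
  obtain ⟨C2, hC2, X2, hX2⟩ := cnt_union hU hP r s a0 T h hT hh0 hh1
  obtain ⟨C3, hC3, X3, hX3⟩ := hA r 1
  obtain ⟨C4, hC4, X4, hX4⟩ := hA (s * r) (a0 ^ 2)
  obtain ⟨C5, hC5, X5, hX5⟩ := hO.2 a0
  obtain ⟨X6, hX6⟩ : ∃ X6 : ℝ, ∀ X : ℝ, X6 ≤ X → (a0 : ℝ) ≤ X ^ (1 / (T : ℝ)) := by
    have h := (tendsto_rpow_atTop (by positivity : (0:ℝ) < 1 / (T:ℝ))).eventually_ge_atTop (a0 : ℝ)
    exact eventually_atTop.1 h
  refine ⟨s * r * (C1 * C5 * C3) + C2 * C4 * (1 + C5), by positivity,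
    max (max (max X1 X2) (max X3 X4)) (max (max X5 X6) (max (Real.exp 1) (2 * (a0 : ℝ) * K + (a0 : ℝ) ^ 2))),
    fun X hX B H hH1 hH2 be hbe be1 hbe1 hadm L hL hLX ν hν hLν => ?_⟩
  simp only [max_le_iff] at hX
  obtain ⟨⟨⟨hx1, hx2⟩, hx3, hx4⟩, ⟨hx5, hx6⟩, hx7, hx8⟩ := hX
  have hXpos : 0 < X := (Real.exp_pos 1).trans_le hx7
  have hlog : 1 ≤ Real.log X := by rwa [Real.le_log_iff_exp_le hXpos]
  obtain ⟨Λ, hΛ⟩ : ∃ Λ : ℝ, Λ = (Real.log X) ^ (1 / 2 : ℝ) := ⟨_, rfl⟩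
  have hΛpos : 0 < Λ := by rw [hΛ]; positivity
  have hΛ2 : Λ * Λ = Real.log X := by
    rw [hΛ, ← Real.rpow_add (by linarith)]
    norm_num
  rw [← hΛ]
  obtain ⟨V, hV⟩ : ∃ V : ℝ, V = VN ⌊X⌋₊ A be := ⟨_, rfl⟩
  obtain ⟨V1, hV1⟩ : ∃ V1 : ℝ, V1 = VN ⌊X⌋₊ A1 be1 := ⟨_, rfl⟩
  have hV0 : 0 ≤ V := hV ▸ VN_nonneg _ _ _
  have hV10 : 0 ≤ V1 := hV1 ▸ VN_nonneg _ _ _
  have hV1u : V1 ≤ C5 / Real.log X := hV1 ▸ hX5 X hx5 s A1 be1 hs hBa
  rw [← hV]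
  rw [← hV1] at hLν
  -- notation
  obtain ⟨D, hD⟩ : ∃ D : Fin s → Fin r → ℤ → ℤ, D = fun x l d => (A1 x : ℤ) * be l - A l * sh A1 be1 d x := ⟨_, rfl⟩
  have hDb : ∀ d : ℤ, |(d : ℝ)| ≤ L → ∀ x l, |(D x l d : ℝ)| ≤ X ^ 2 := by
    intro d hd x l
    rw [hD]
    exact D_bound (fun l => (hAa l).2) (fun x => (hBa x).2) hXpos.le hx8 hbe hbe1 hLX hd x l
  have hb : ∀ d : ℤ, |(d : ℝ)| ≤ L → ∀ x₀, (∀ l, D x₀ l d ≠ 0) →
      ((S1 T X B H A be A1 (sh A1 be1 d)).card : ℝ) ≤ C1 * C5 * C3 * ((H : ℝ) * V / Λ) := by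
    intro d hd x₀ hne
    have h1 : ((S1 T X B H A be A1 (sh A1 be1 d)).card : ℝ) ≤
        ((S1 T X B H A be (fun _ : Fin 1 => A1 x₀) (fun _ : Fin 1 => sh A1 be1 d x₀)).card : ℝ) := by
      have : (S1 T X B H A be A1 (sh A1 be1 d)).card ≤
          (S1 T X B H A be (fun _ : Fin 1 => A1 x₀) (fun _ : Fin 1 => sh A1 be1 d x₀)).card := by
        refine card_le_card fun n hn => ?_
        rw [S1, mem_filter] at hn ⊢
        exact ⟨hn.1, hn.2.1, fun _ => hn.2.2 x₀⟩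
      exact_mod_cast this
    have h2 := hX1 X hx1 B H hH1 hH2 A be (fun _ : Fin 1 => A1 x₀) (fun _ : Fin 1 => sh A1 be1 d x₀) hAa (fun _ => hBa x₀)
      (AdmS_one (AdmS_sh hadm d) x₀)
    have h3 := hX5 X hx5 1 (fun _ : Fin 1 => A1 x₀) (fun _ : Fin 1 => sh A1 be1 d x₀) le_rfl (fun _ => hBa x₀)
    have h4 := hX3 X hx3 (fun _ : Fin r => (1 : ℤ)) (fun l => D x₀ l d) (by intro x; norm_num)
      (fun l => hDb d hd x₀ l) 0 (by simpa using hXpos.le)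
    have h5 : ∏ l, GN 2 ⌊X⌋₊ (D x₀ l d) ≤ C3 * Λ := by
      have h6 : (0 : ℤ) ∈ (Icc (-((0 : ℕ) : ℤ)) ((0 : ℕ) : ℤ)).filter (fun e : ℤ => ∀ x : Fin r, 1 * e + D x₀ x d ≠ 0) := by
        rw [mem_filter]
        refine ⟨by simp, fun l => ?_⟩
        simpa using hne l
      have h7 := single_le_sum (f := fun e : ℤ => ∏ x, GN 2 ⌊X⌋₊ (1 * e + D x₀ x d))
        (fun e _ => prod_nonneg fun x _ => GN_nonneg _ _) h6
      have h8 := h7.trans h4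
      simp only [mul_zero, zero_add, Nat.cast_zero] at h8
      rw [hΛ]
      exact h8
    rw [← hV] at h2
    refine h1.trans (h2.trans ?_)
    have h9 : ∏ x : Fin 1, ∏ l, GN 2 ⌊X⌋₊ ((A1 x₀ : ℤ) * be l - A l * sh A1 be1 d x₀) ≤ C3 * Λ := by
      rw [Fin.prod_univ_one]
      rw [hD] at h5
      exact h5
    have h10 : 0 ≤ ∏ x : Fin 1, ∏ l, GN 2 ⌊X⌋₊ ((A1 x₀ : ℤ) * be l - A l * sh A1 be1 d x₀) :=
      prod_nonneg fun _ _ => prod_nonneg fun _ _ => GN_nonneg _ _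
    calc C1 * ((H : ℝ) * (V * VN ⌊X⌋₊ (fun _ : Fin 1 => A1 x₀) (fun _ : Fin 1 => sh A1 be1 d x₀) *
          ∏ x : Fin 1, ∏ l, GN 2 ⌊X⌋₊ ((A1 x₀ : ℤ) * be l - A l * sh A1 be1 d x₀)))
        ≤ C1 * ((H : ℝ) * (V * (C5 / Real.log X) * (C3 * Λ))) := by
          have h11 := VN_nonneg ⌊X⌋₊ (fun _ : Fin 1 => A1 x₀) (fun _ : Fin 1 => sh A1 be1 d x₀)
          gcongr
      _ = C1 * C5 * C3 * ((H : ℝ) * V / Λ) := by
          rw [← hΛ2]
          field_simp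
  obtain ⟨G, hG⟩ : ∃ G : ℤ → ℝ, G = fun d => ∏ x, ∏ l, GN 2 ⌊X⌋₊ (D x l d) := ⟨_, rfl⟩
  have hG0 : ∀ d, 0 ≤ G d := by
    intro d
    rw [hG]
    exact prod_nonneg fun _ _ => prod_nonneg fun _ _ => GN_nonneg _ _
  have hc : ∀ d : ℤ, ((S1 T X B H A be A1 (sh A1 be1 d)).card : ℝ) ≤ C2 * ((H : ℝ) * (V * V1 * G d)) := by
    intro d
    have h2 := hX2 X hx2 B H hH1 hH2 A be A1 (sh A1 be1 d) hAa hBa (AdmS_sh hadm d)
    rw [VN_sh hO.1, ← hV, ← hV1] at h2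
    rw [hG, hD]
    exact h2
  have hsumG : ∑ d ∈ (Icc (-((⌊L⌋₊ : ℕ) : ℤ)) (⌊L⌋₊ : ℕ)).filter (fun d => ∀ x l, D x l d ≠ 0), G d ≤ C4 * (L + Λ) := by
    have h1 := hX4 X hx4 (fun i : Fin (s * r) => -((A1 (finProdFinEquiv.symm i).1 : ℤ) * A (finProdFinEquiv.symm i).2))
      (fun i : Fin (s * r) => (A1 (finProdFinEquiv.symm i).1 : ℤ) * be (finProdFinEquiv.symm i).2 -
        A (finProdFinEquiv.symm i).2 * be1 (finProdFinEquiv.symm i).1)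
      (by
        intro i
        generalize finProdFinEquiv.symm i = q
        have h2 := hBa q.1
        have h3 := hAa q.2
        constructor
        · have : (0 : ℤ) < (A1 q.1 : ℤ) * A q.2 := by
            have e1 : (0 : ℤ) < A1 q.1 := by exact_mod_cast h2.1
            have e2 : (0 : ℤ) < A q.2 := by exact_mod_cast h3.1
            positivity
          linarith
        · rw [abs_neg, abs_of_nonneg (by positivity)]
          push_cast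
          have e1 : (A1 q.1 : ℤ) ≤ a0 := by exact_mod_cast h2.2
          have e2 : (A q.2 : ℤ) ≤ a0 := by exact_mod_cast h3.2
          rw [sq]
          exact mul_le_mul e1 e2 (by positivity) (by positivity))
      (by
        intro i
        generalize finProdFinEquiv.symm i = q
        have h2 := hDb 0 (by simpa using hL) q.1 q.2
        rw [hD] at h2
        simpa [sh] using h2)
      ⌊L⌋₊ ((Nat.floor_le hL).trans hLX)
    have h4 : ∀ (d : ℤ) (q : Fin s × Fin r), -((A1 q.1 : ℤ) * A q.2) * d + ((A1 q.1 : ℤ) * be q.2 - A q.2 * be1 q.1) = D q.1 q.2 d := by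
      intro d q
      rw [hD]
      simp only [sh]
      ring
    have h5 : ∑ d ∈ (Icc (-((⌊L⌋₊ : ℕ) : ℤ)) (⌊L⌋₊ : ℕ)).filter (fun d => ∀ x l, D x l d ≠ 0), G d =
        ∑ d ∈ (Icc (-((⌊L⌋₊ : ℕ) : ℤ)) (⌊L⌋₊ : ℕ)).filter (fun d => ∀ i : Fin (s * r),
          -((A1 (finProdFinEquiv.symm i).1 : ℤ) * A (finProdFinEquiv.symm i).2) * d +
            ((A1 (finProdFinEquiv.symm i).1 : ℤ) * be (finProdFinEquiv.symm i).2 -
              A (finProdFinEquiv.symm i).2 * be1 (finProdFinEquiv.symm i).1) ≠ 0),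
          ∏ i : Fin (s * r), GN 2 ⌊X⌋₊ (-((A1 (finProdFinEquiv.symm i).1 : ℤ) * A (finProdFinEquiv.symm i).2) * d +
            ((A1 (finProdFinEquiv.symm i).1 : ℤ) * be (finProdFinEquiv.symm i).2 -
              A (finProdFinEquiv.symm i).2 * be1 (finProdFinEquiv.symm i).1)) := by
      refine sum_congr ?_ fun d _ => ?_
      · refine filter_congr fun d _ => ?_
        constructor
        · intro h i
          rw [h4]
          exact h _ _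
        · intro h x l
          have := h (finProdFinEquiv (x, l))
          rw [h4, Equiv.symm_apply_apply] at this
          exact this
      · simp only [h4]
        rw [hG, Equiv.prod_comp finProdFinEquiv.symm (fun q : Fin s × Fin r => GN 2 ⌊X⌋₊ (D q.1 q.2 d)), Fintype.prod_prod_type]
    rw [h5]
    refine h1.trans ?_
    rw [← hΛ]
    have := Nat.floor_le hL
    gcongr
  -- the cover
  obtain ⟨I, hI⟩ : ∃ I : Finset ℤ, I = Icc (-((⌊L⌋₊ : ℕ) : ℤ)) (⌊L⌋₊ : ℕ) := ⟨_, rfl⟩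
  rw [← hI] at hsumG
  have hcov : BadN T X L B H A be A1 be1 ⊆ (I.filter (fun d => ¬ ∀ x, ∃ l, A1 x = A l ∧ sh A1 be1 d x = be l)).biUnion
      (fun d => S1 T X B H A be A1 (sh A1 be1 d)) := by
    intro n hn
    rw [BadN, mem_filter] at hn
    obtain ⟨h1, h3, d, h4, h5, h6⟩ := hn
    rw [mem_biUnion]
    refine ⟨d, mem_filter.2 ⟨?_, h6⟩, ?_⟩
    · rw [hI, mem_win hL]
      exact h4
    · rw [S1, mem_filter]
      exact ⟨h1, h3, h5⟩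
  have hcard : ((BadN T X L B H A be A1 be1).card : ℝ) ≤
      ∑ d ∈ I.filter (fun d => ¬ ∀ x, ∃ l, A1 x = A l ∧ sh A1 be1 d x = be l), ((S1 T X B H A be A1 (sh A1 be1 d)).card : ℝ) := by
    have := (card_le_card hcov).trans card_biUnion_le
    exact_mod_cast this
  have hterm : ∀ d ∈ I.filter (fun d => ¬ ∀ x, ∃ l, A1 x = A l ∧ sh A1 be1 d x = be l),
      ((S1 T X B H A be A1 (sh A1 be1 d)).card : ℝ) ≤
        (if ∃ x l, A1 x = A l ∧ sh A1 be1 d x = be l then C1 * C5 * C3 * ((H : ℝ) * V / Λ) else 0) +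
        (if ∀ x l, D x l d ≠ 0 then C2 * ((H : ℝ) * (V * V1 * G d)) else 0) := by
    intro d hd
    obtain ⟨hd1, hd2⟩ := mem_filter.1 hd
    rw [hI, mem_win hL] at hd1
    have hn1 : (0 : ℝ) ≤ C1 * C5 * C3 * ((H : ℝ) * V / Λ) := by positivity
    have hn2 : (0 : ℝ) ≤ C2 * ((H : ℝ) * (V * V1 * G d)) := by
      have := hG0 d
      positivity
    have hi1 : (0 : ℝ) ≤ (if ∃ x l, A1 x = A l ∧ sh A1 be1 d x = be l then C1 * C5 * C3 * ((H : ℝ) * V / Λ) else 0) := by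
      split_ifs
      · exact hn1
      · exact le_rfl
    have hi2 : (0 : ℝ) ≤ (if ∀ x l, D x l d ≠ 0 then C2 * ((H : ℝ) * (V * V1 * G d)) else 0) := by
      split_ifs
      · exact hn2
      · exact le_rfl
    by_cases hall : ∀ x l, D x l d ≠ 0
    · rw [if_pos hall]
      have := hc d
      linarith
    · push Not at hall
      obtain ⟨x₁, l₁, hz⟩ := hall
      by_cases hbad : ∃ x l, D x l d = 0 ∧ ¬ (A1 x = A l ∧ sh A1 be1 d x = be l)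
      · obtain ⟨x, l, hD0, hm⟩ := hbad
        rw [hD] at hD0
        rw [S1_empty hAa hBa (hX6 X hx6) x l hD0 hm]
        simp only [card_empty, Nat.cast_zero]
        linarith
      · push Not at hbad
        have hmat : ∃ x l, A1 x = A l ∧ sh A1 be1 d x = be l := ⟨x₁, l₁, hbad x₁ l₁ hz⟩
        rw [if_pos hmat]
        push Not at hd2
        obtain ⟨x₀, hx₀⟩ := hd2
        have := hb d hd1 x₀ (fun l h0 => hx₀ l (hbad x₀ l h0).1 (hbad x₀ l h0).2)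
        linarith
  have hs1 : ∑ d ∈ I.filter (fun d => ¬ ∀ x, ∃ l, A1 x = A l ∧ sh A1 be1 d x = be l),
      (if ∃ x l, A1 x = A l ∧ sh A1 be1 d x = be l then C1 * C5 * C3 * ((H : ℝ) * V / Λ) else 0) ≤
      s * r * (C1 * C5 * C3 * ((H : ℝ) * V / Λ)) := by
    have hn1 : (0 : ℝ) ≤ C1 * C5 * C3 * ((H : ℝ) * V / Λ) := by positivity
    refine (sum_le_sum_of_subset_of_nonneg (filter_subset _ I) (fun d _ _ => ?_)).trans ?_
    · split_ifs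
      · exact hn1
      · exact le_rfl
    · rw [← sum_filter, sum_const, nsmul_eq_mul]
      refine mul_le_mul_of_nonneg_right ?_ hn1
      exact_mod_cast card_match A be A1 be1 hB1 I
  have hs2 : ∑ d ∈ I.filter (fun d => ¬ ∀ x, ∃ l, A1 x = A l ∧ sh A1 be1 d x = be l),
      (if ∀ x l, D x l d ≠ 0 then C2 * ((H : ℝ) * (V * V1 * G d)) else 0) ≤ C2 * C4 * ((H : ℝ) * V * (ν + C5 / Λ)) := by
    have hn2 : ∀ d, (0 : ℝ) ≤ C2 * ((H : ℝ) * (V * V1 * G d)) := by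
      intro d
      have := hG0 d
      positivity
    refine (sum_le_sum_of_subset_of_nonneg (filter_subset _ I) (fun d _ _ => ?_)).trans ?_
    · split_ifs
      · exact hn2 d
      · exact le_rfl
    · rw [← sum_filter]
      have h1 : ∑ d ∈ I.filter (fun d => ∀ x l, D x l d ≠ 0), C2 * ((H : ℝ) * (V * V1 * G d)) =
          C2 * ((H : ℝ) * (V * V1)) * ∑ d ∈ I.filter (fun d => ∀ x l, D x l d ≠ 0), G d := by
        rw [mul_sum]
        refine sum_congr rfl fun d _ => ?_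
        ring
      rw [h1]
      refine (mul_le_mul_of_nonneg_left hsumG (by positivity)).trans ?_
      have h2 : V1 * Λ ≤ C5 / Λ := by
        calc V1 * Λ ≤ C5 / Real.log X * Λ := by gcongr
          _ = C5 / Λ := by
            rw [← hΛ2]
            field_simp
      have h3 : C2 * ((H : ℝ) * (V * V1)) * (C4 * (L + Λ)) = C2 * C4 * ((H : ℝ) * V * (L * V1 + V1 * Λ)) := by ring
      rw [h3]
      gcongr
  have hfin := (sum_le_sum hterm).trans_eq sum_add_distrib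
  refine (hcard.trans (hfin.trans (add_le_add hs1 hs2))).trans ?_
  have h1 : (s : ℝ) * r * (C1 * C5 * C3 * ((H : ℝ) * V / Λ)) = (s * r * (C1 * C5 * C3)) * ((H : ℝ) * V) * (1 / Λ) := by ring
  have h2 : C2 * C4 * ((H : ℝ) * V * (ν + C5 / Λ)) = C2 * C4 * ((H : ℝ) * V) * ν + C2 * C4 * C5 * ((H : ℝ) * V) * (1 / Λ) := by ring
  rw [h1, h2]
  have hXV : 0 ≤ (H : ℝ) * V := by positivity
  have hil : 0 ≤ 1 / Λ := by positivity
  have h3 : 0 ≤ (s * r * (C1 * C5 * C3)) * ((H : ℝ) * V) * ν := by positivity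
  have h4 : 0 ≤ C2 * C4 * C5 * ((H : ℝ) * V) * ν := by positivity
  have h5 : 0 ≤ C2 * C4 * ((H : ℝ) * V) * (1 / Λ) := by positivity
  have h6 : (s * r * (C1 * C5 * C3) + C2 * C4 * (1 + C5)) * ((H : ℝ) * V) * (ν + 1 / Λ) =
      (s * r * (C1 * C5 * C3)) * ((H : ℝ) * V) * ν + (s * r * (C1 * C5 * C3)) * ((H : ℝ) * V) * (1 / Λ) +
      C2 * C4 * ((H : ℝ) * V) * ν + C2 * C4 * C5 * ((H : ℝ) * V) * ν + C2 * C4 * ((H : ℝ) * V) * (1 / Λ) +
      C2 * C4 * C5 * ((H : ℝ) * V) * (1 / Λ) := by ring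
  rw [h6]
  linarith

end NSI

open Pool.Agent.Q117.LF.NscAux (VN_nonneg fm_sh Ro_mono) in
open NSI in
theorem nsi : St_NSI := by
  classical
  intro hQ hU hP hA hO r A hA1 g s A' hs hB1 K R h hK hR hh1 hRh i
  have hh0 : 0 < h := by
    have h1 : (1 : ℝ) ≤ R := by exact_mod_cast hR
    by_contra hcon
    push Not at hcon
    nlinarith
  obtain ⟨t, ht, θ, hθ, c₀, hc₀, X0, hX0⟩ := hQ r A hA1 K R h hK hR hh1 hRh i
  refine ⟨t, ht, fun T hT => ?_⟩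
  have hT1 : 1 ≤ T := ht.trans hT
  have hper := fun γ => per_sys hU hP hA hO r (s γ) A (A' γ) hA1 (hs γ) (hB1 γ) K T hT1 h hh0 hh1
  choose C hC Xg hXg using hper
  obtain ⟨C'', hC''⟩ : ∃ C'' : ℝ, C'' = ∑ γ, C γ + 1 := ⟨_, rfl⟩
  have hC''0 : 0 < C'' := by
    rw [hC'']
    have := sum_nonneg (s := (univ : Finset (Fin g))) (fun γ _ => (hC γ).le)
    linarith
  obtain ⟨ν, hν⟩ : ∃ ν : ℝ, ν = c₀ / (4 * C'') := ⟨_, rfl⟩
  have hν0 : 0 < ν := by rw [hν]; positivity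
  obtain ⟨X7, hX7⟩ : ∃ X7 : ℝ, ∀ X : ℝ, X7 ≤ X → 1 / (Real.log X) ^ (1 / 2 : ℝ) ≤ ν := by
    have h1 : Tendsto (fun X : ℝ => (Real.log X) ^ (1 / 2 : ℝ)) atTop atTop :=
      (tendsto_rpow_atTop (by norm_num : (0:ℝ) < 1 / 2)).comp Real.tendsto_log_atTop
    have h2 := h1.eventually_ge_atTop (1 / ν)
    obtain ⟨X7, hX7⟩ := eventually_atTop.1 h2
    refine ⟨X7, fun X hX => ?_⟩
    have h3 := hX7 X hX
    have h4 : 0 < 1 / ν := by positivity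
    have h5 : 0 < (Real.log X) ^ (1 / 2 : ℝ) := h4.trans_le h3
    rw [div_le_iff₀ h5]
    rw [div_le_iff₀ hν0] at h3
    linarith
  refine ⟨c₀ / 2, by positivity, ν, hν0, max (max X0 X7) (max 1 (∑ γ, |Xg γ|)), ?_⟩
  intro X hX be hbe hadm be' hbe' hadm' L hLall z hz1 hz2 B H hH1 hH2
  simp only [max_le_iff] at hX
  obtain ⟨⟨hx0, hx7⟩, hx1, hx3⟩ := hX
  have hXpos : 0 < X := by linarith
  have hxg : ∀ γ, Xg γ ≤ X := fun γ =>
    (le_abs_self _).trans ((single_le_sum (f := fun γ => |Xg γ|) (fun i _ => abs_nonneg _) (mem_univ γ)).trans hx3)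
  have hHX : (H : ℝ) ≤ X := by
    have h1 : (0 : ℝ) ≤ B := Nat.cast_nonneg _
    linarith
  have hlow := hX0 X hx0 1 0 le_rfl (by
    rw [Nat.cast_one]
    exact Real.one_le_rpow hx1 hθ.le) be hbe hadm (by
    intro p hp hp1
    exact absurd (Nat.dvd_one.1 hp1) hp.one_lt.ne') B H hH1 hH2
  have hVe : ∏ p ∈ (Icc 1 ⌊X⌋₊).filter (fun p => p.Prime ∧ ¬ p ∣ 1), (1 - (om A be p : ℝ) / p) = VN ⌊X⌋₊ A be := by
    rw [VN]
    refine prod_congr ?_ fun _ _ => rfl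
    refine filter_congr fun p _ => ?_
    constructor
    · exact fun h => h.1
    · exact fun h => ⟨h, fun h1 => h.one_lt.ne' (Nat.dvd_one.1 h1)⟩
  rw [hVe, Nat.cast_one, div_one] at hlow
  obtain ⟨V, hV⟩ : ∃ V : ℝ, V = VN ⌊X⌋₊ A be := ⟨_, rfl⟩
  rw [← hV] at hlow ⊢
  have hV0 : 0 ≤ V := hV ▸ VN_nonneg _ _ _
  -- the bad numbers
  obtain ⟨Bd, hB⟩ : ∃ Bd : Fin g → Finset ℕ, Bd = fun γ => BadN T X (L γ) B H A be (A' γ) (be' γ) := ⟨_, rfl⟩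
  have hBc : ∀ γ, ((Bd γ).card : ℝ) ≤ C γ * ((H : ℝ) * V) * (2 * ν) := by
    intro γ
    have h1 := hXg γ X (hxg γ) B H hH1 hHX be hbe (be' γ) (hbe' γ) (hadm' γ) (L γ) (hLall γ).1 (hLall γ).2.1 ν hν0.le (hLall γ).2.2
    rw [hB, hV]
    refine h1.trans ?_
    have h2 := hX7 X hx7
    have h3 : 0 ≤ C γ * (H * VN ⌊X⌋₊ A be) := by
      have := (hC γ).le
      have := VN_nonneg ⌊X⌋₊ A be
      positivity
    refine mul_le_mul_of_nonneg_left ?_ h3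
    linarith
  have hUc : (((univ : Finset (Fin g)).biUnion Bd).card : ℝ) ≤ c₀ / 2 * ((H : ℝ) * V) := by
    have h1 : (((univ : Finset (Fin g)).biUnion Bd).card : ℝ) ≤ ∑ γ, ((Bd γ).card : ℝ) := by
      exact_mod_cast card_biUnion_le
    refine h1.trans ((sum_le_sum fun γ _ => hBc γ).trans ?_)
    rw [← sum_mul, ← sum_mul]
    have h2 : ∑ γ, C γ ≤ C'' := by rw [hC'']; linarith
    have h3 : c₀ / 2 * ((H : ℝ) * V) = C'' * ((H : ℝ) * V) * (2 * ν) := by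
      rw [hν]
      field_simp
      ring
    rw [h3]
    gcongr
  have hsub : PtsW A be i R 1 0 (X ^ (h / 6)) (X ^ (1 / (t : ℝ))) B H \ (univ : Finset (Fin g)).biUnion Bd ⊆ PtsI A be i R (X ^ (h / 6)) z L s A' be' B H := by
    intro n hn
    rw [Finset.mem_sdiff] at hn
    obtain ⟨hn1, hn2⟩ := hn
    rw [PtsW, mem_filter] at hn1
    obtain ⟨h1, _, h5, h6, h8⟩ := hn1
    rw [PtsI, mem_filter]
    refine ⟨h1, h5, h6, fun l => Ro_mono hz2 (h8 l), fun γ d hd hro => ?_⟩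
    by_contra hcon
    refine hn2 ?_
    rw [mem_biUnion]
    refine ⟨γ, mem_univ _, ?_⟩
    rw [hB]
    simp only [BadN, mem_filter]
    refine ⟨h1, fun l => Ro_mono (hz1.trans hz2) (h8 l), d, hd, fun x => ?_, ?_⟩
    · rw [fm_sh]
      exact Ro_mono hz1 (hro x)
    · intro h
      exact hcon h
  have h1 := card_le_card hsub
  have h2 := le_card_sdiff ((univ : Finset (Fin g)).biUnion Bd) (PtsW A be i R 1 0 (X ^ (h / 6)) (X ^ (1 / (t : ℝ))) B H)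
  have h3 : ((PtsW A be i R 1 0 (X ^ (h / 6)) (X ^ (1 / (t : ℝ))) B H).card : ℝ) ≤
      ((PtsI A be i R (X ^ (h / 6)) z L s A' be' B H).card : ℝ) + (((univ : Finset (Fin g)).biUnion Bd).card : ℝ) := by
    have : (PtsW A be i R 1 0 (X ^ (h / 6)) (X ^ (1 / (t : ℝ))) B H).card ≤ (PtsI A be i R (X ^ (h / 6)) z L s A' be' B H).card + ((univ : Finset (Fin g)).biUnion Bd).card := by
      omega
    exact_mod_cast this
  have h4 : c₀ * ((H : ℝ) * V) = c₀ / 2 * ((H : ℝ) * V) + c₀ / 2 * ((H : ℝ) * V) := by ring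
  linarith

end Pool.Agent.Q117.SI
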