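import Pool.Agent.Q117.SI.Wz
import Pool.Agent.Q117.SI.Lbi
import Pool.Agent.Q117.SI.Ubi
import Pool.Agent.Q117.SI.Nsi
import Pool.Agent.Q117.LF.Main5

/-!
Project SI (helper117): the assembled theorems at the natural scale in short intervals.
-/

set_option autoImplicit false

namespace Pool.Agent.Q117.SI

theorem lbiC : LBIc := lbi wz

theorem nsiC : NSIc := nsi lbiC ubi Pool.Agent.Q184.LF.pco Pool.Agent.Q184.LF.avg Pool.Agent.Q117.LF.oms

end Pool.Agent.Q117.SI
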