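import Pool.Agent.Q117.LF.Stm8
import Pool.Agent.Q253.Cov.LinW

/-!
Project SI (helper117): almost primes in EVERY short interval with prescribed surroundings, at the natural scale and at the scale of Rankin.

Every `St_X` below is the statement of one job; the doc comment is its complete proof. The file of a job is `Pool/Agent/Q117/SI/<Name>.lean`, the theorem
has the name given in the comment (namespace `Pool.Agent.Q117.SI`). The hypotheses of a statement are the conclusions of other jobs (they are assembled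
later), so all jobs are independent.
-/

set_option autoImplicit false

namespace Pool.Agent.Q117.SI

open Finset Filter
open Pool.Agent.Q117.LF
open Pool.Agent.Q117.GP (Rk)
open Pool.Agent.Q253.Thin (SysZ)
open Pool.Agent.Y843.HS (VV)

open Classical in
/-- the `m` of the window with `a m + b` a product of at most `R` primes, all `≥ w`, such that `m` is in none of the classes `Z p` for the primes `p < z` -/
noncomputable def PtsZ (a b : ℤ) (Z : ℕ → Finset ℕ) (R : ℕ) (w z : ℝ) (B H : ℕ) : Finset ℕ :=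
  (Ioc B (B + H)).filter (fun m : ℕ => a * m + b ≠ 0 ∧ (a * m + b).natAbs.primeFactorsList.length ≤ R ∧
    (∀ p : ℕ, p.Prime → (p : ℤ) ∣ a * m + b → w ≤ p) ∧ ∀ p : ℕ, p.Prime → (p : ℝ) < z → m % p ∉ Z p)

/-- **WZ** (theorem `wz : St_WZ`): the weighted sieve with additional classes for the small primes.

Proof. Adapt the proof of `lin_count` (`Pool/Agent/Q253/Cov/LinW.lean`; for several classes see also `pw` in `Pool/Agent/Q253/Cov/PolyW.lean`). Put `h₀ = 25 / (3 (8 R - 1))`, `τ = max ((h + h₀) / 2) (9 / 10 h)`, `g = h - τ`, and apply `core4` as there but with `K` in place of `1`: it gives `δ`, `ε₁ ≤ τ / 4`. `ε = ε₁`, `S = τ / h₀ > 1`.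
The sequence: `J = Ioc B (B + H)`, `a' m = (a m + b).natAbs * ∏ p ∈ (PZ X ε₁).filter (fun p => m % p ∈ Z p), p`, `r p = (Z p).card`. For `p ∈ PZ X υ` (`υ = 24/25 τ`): `p ∣ a' m` iff `m % p ∈ Z p` (for `p < X ^ ε₁` by the first hypothesis on `Z`, for `p ≥ X ^ ε₁` by the second one: the product has only prime factors `< X ^ ε₁`). (If `a m + b = 0` both `p ∣ a' m` and `m % p ∈ Z p` hold for all these `p`.)
REMAINDER: for `T ⊆ PZ X υ` the number of the `m` of the window with `m % p ∈ Z p` for all `p ∈ T` is `H ∏ (|Z p| / p)` with an error at most `∏_{p ∈ T} |Z p| ≤ K ^ |T|` (Chinese remainder theorem; look how `Thin/Int.lean` (`int_upper`) or `PolyW.lean` count: `cnt_int`), and `K ^ |T| ≤ C (∏ T) ^ (g / 8)` (`pow_card_le`, used in `pw`). So the remainder condition of `core4` holds for `X` large as in `lin_count` / `pw`.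
MERTENS condition: only for primes `≥ X ^ ε₁`: there `|Z p|` is the number of the roots of `a m + b` modulo `p`: `1` if `p ∤ a` and `0` if `p ∣ a` (then `p ∤ b`, coprime), that is `rl |a| p`; use `merl` (`Pool/Agent/Q253/P3/Lin.lean`), `1 ≤ |a| ≤ X` (if `Mer` asks for the values at smaller primes change the function there; `Mer (pr X ε₁ υ) ..` only uses the primes in `pr X ε₁ υ`).
CONCLUSION: `0 < WW X .. (a' m)` implies that no prime `p < X ^ (τ / 4)` divides `a' m` (unless `a m + b = 0`, at most one `m`, removed as the point `A + 1` in `lin_count`), so `m % p ∉ Z p` for `p < X ^ ε₁`, the product is empty and `a' m = |a m + b|`; the theorem `almost` gives the number of the prime factors as in `lin_count` (sizes: `|a m + b| ≤ X ^ S`). SQUARES: the `m` with `q ^ 2 ∣ a m + b` for a prime `q` of `pr X (τ/4) υ`: `≤ H / q ^ 2 + 1` for `q ∤ a`, none for `q ∣ a`.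
The lower bound is `δ H VV Z 0 H` as there (`VZ_low K`). `X ^ (τ / 4) ≥ X ^ (h / 5)`. -/
def St_WZ : Prop := ∀ (K R : ℕ) (h : ℝ), 1 ≤ K → 1 ≤ R → h ≤ 1 → 25 < 3 * (8 * R - 1) * h →
  ∃ δ : ℝ, 0 < δ ∧ ∃ ε : ℝ, 0 < ε ∧ ∃ S : ℝ, 1 < S ∧ ∃ X0 : ℕ, ∀ X : ℕ, X0 ≤ X → ∀ a b : ℤ, a ≠ 0 → |a| ≤ X → IsCoprime a b →
    ∀ Z : ℕ → Finset ℕ, SysZ K Z →
    (∀ p : ℕ, p.Prime → (p : ℝ) < (X : ℝ) ^ ε → ∀ m : ℕ, (p : ℤ) ∣ a * m + b → m % p ∈ Z p) →
    (∀ p : ℕ, p.Prime → (X : ℝ) ^ ε ≤ p → ∀ m : ℕ, m % p ∈ Z p ↔ (p : ℤ) ∣ a * m + b) →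
    ∀ B H : ℕ, (X : ℝ) ^ h ≤ H → H ≤ X → (∀ m ∈ Ioc B (B + H), ((|a * m + b| : ℤ) : ℝ) ≤ (X : ℝ) ^ S) →
      δ * (H * VV Z 0 H) ≤ ((PtsZ a b Z R ((X : ℝ) ^ (h / 5)) ((X : ℝ) ^ ε) B H).card : ℝ)

open Classical in
/-- the `n ≡ u (mod q)` of the window with the form `i` a product of at most `R` primes, all `≥ w`, and all the forms rough -/
noncomputable def PtsW {k : ℕ} (A : Fin k → ℕ) (be : Fin k → ℤ) (i : Fin k) (R q u : ℕ) (w z : ℝ) (B H : ℕ) : Finset ℕ :=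
  (Ioc B (B + H)).filter (fun n : ℕ => n ≡ u [MOD q] ∧ (fm A be i n).natAbs.primeFactorsList.length ≤ R ∧
    (∀ p : ℕ, p.Prime → (p : ℤ) ∣ fm A be i n → w ≤ p) ∧ ∀ l, Ro z (fm A be l n))

/-- conclusion of LBI -/
def LBIc : Prop := ∀ (k : ℕ) (A : Fin k → ℕ), (∀ l, 1 ≤ A l) → ∀ (K R : ℕ) (h : ℝ), 1 ≤ K → 1 ≤ R → h ≤ 1 → 25 < 3 * (8 * R - 1) * h → ∀ i : Fin k,
  ∃ t : ℕ, 1 ≤ t ∧ ∃ θ : ℝ, 0 < θ ∧ ∃ c : ℝ, 0 < c ∧ ∃ X0 : ℝ, ∀ X : ℝ, X0 ≤ X → ∀ q u : ℕ, 1 ≤ q → (q : ℝ) ≤ X ^ θ →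
    ∀ be : Fin k → ℤ, (∀ l, |(be l : ℝ)| ≤ K * X) → AdmS A be → (∀ p : ℕ, p.Prime → p ∣ q → ∀ l, ¬ (p : ℤ) ∣ fm A be l u) →
    ∀ B H : ℕ, X ^ h ≤ H → (B : ℝ) + H ≤ X →
      c * ((H : ℝ) / q * ∏ p ∈ (Icc 1 ⌊X⌋₊).filter (fun p : ℕ => p.Prime ∧ ¬ p ∣ q), (1 - (om A be p : ℝ) / p)) ≤
        ((PtsW A be i R q u (X ^ (h / 6)) (X ^ (1 / (t : ℝ))) B H).card : ℝ)

/-- **LBI** (theorem `lbi : St_LBI`): the lower bound for systems of linear forms in every short interval, with a growing modulus.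

Proof. Choose `h' < h` with `25 < 3 (8 R - 1) h'` and `9 / 10 h ≤ h'` (so `h' / 5 > h / 6`; note `h > 0`). `a0` = the largest slope, `K' = k + a0 + 1`. `WZ` with `K'`, `R`, `h'`: `δ`, `ε`, `S`, `X0'`; `X' = ⌈X⌉₊` is the scale there. `θ = min ((h - h') / 4) (1 / 4)`. Let `u' = u % q`, `n = q m + u'`; the window of the `m`: `B' = B / q + 1`, `H' = H / q - 3` (natural numbers; `H' ≥ H / (2 q)` for `X` large; `B < q m + u' ≤ B + H` for `m ∈ (B', B' + H']`).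
`H' ≥ X' ^ h'` for `X` large. Main form: `a m + b`, `a = A i q`, `b = A i u' + be i`; `|a| ≤ X'`. COPRIME: let a prime `p` divide `a` and `b`: if `p ∣ q` then `p ∣ fm A be i u` (as `u ≡ u'` mod `p`), excluded; otherwise `p ∣ A i`, so `p ∣ be i` and `p` divides all the values of the form `i`, against `AdmS`. SIZES: `|a m + b| ≤ A i (B + H) + K X ≤ (a0 + K) X ≤ X' ^ S` for `X` large.
CLASSES: for a prime `p < X' ^ ε`: `Z p` = the `m < p` such that `p ∣ A l (q m + u') + be l` for some `l`; for `p ≥ X' ^ ε`: the `m < p` with `p ∣ a m + b` (and `∅` for nonprimes). `SysZ K' Z`: if `p ∣ q` no form is divisible (`fm l (q m + u') ≡ fm l u`), `Z p = ∅`; if `p ∤ q`: the map `m ↦ q m + u'` is a bijection modulo `p`, so for `p < X' ^ ε` `|Z p| = om A be p`, which is `< p` by `AdmS` and `≤ k` if `p > a0` (every form with `p ∤ A l` has one root; see `ubsZ_le` in `LF/Ubs.lean`), `≤ a0` otherwise. For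 `p ≥ X' ^ ε`: at most `1` element, and `1 < p`.
`VV Z 0 H' ≥ ∏_{p ≤ X, p ∤ q} (1 - om p / p)`: `|Z p| ≤ om A be p` for all `p ∤ q` and `Z p = ∅` for `p ∣ q`, all factors are in `[0, 1]`, `H' ≤ X`. CONCLUSION: `m ↦ q m + u'` maps `PtsZ` injectively into `PtsW`: the prime factors of the form `i` are `≥ X' ^ (h' / 5) ≥ X ^ (h / 6)`; if `t` is so large that `1 / t < ε` then a prime `p ≤ X ^ (1 / t)` is `< X' ^ ε`, so `m % p ∉ Z p` and `p` divides no form: `Ro (X ^ (1 / t))` (`Ro` asks `z < p`). -/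
def St_LBI : Prop := St_WZ → LBIc

open Classical in
/-- **UBI** (theorem `ubi : St_UBI`): the upper bound in short intervals.

Proof. As `ubs` (`LF/Ubs.lean`; use `ubsZ`, `ubsZ_card`, `ubs_dvd_mod`, `ubsZ_le`): `int_upper` (`Q253/Thin/Int.lean`) with `r = k + a0 + 1`, the same `t`, the scale `H` (so `H` in place of `X` there; `H ≥ X ^ h` is large), `θ = 1`, `(A, B] = (B, B + H]`, `Z = ubsZ al be`. If `om al be p = p` for some prime `p` then `p ≤ max a0 k ≤ X ^ (1/t)` and the left hand side is `0`. Otherwise `SysZ r Z`. `Ro (X ^ (1/t))` of all forms implies `n % q ∉ Z q` for all primes `q ≤ H ^ (1/t) ≤ X ^ (1/t)`.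
`VV Z 0 H ≤ C' VN ⌊X⌋₊ al be`: the quotient is the product over the primes `H < p ≤ X` of `(1 - om p / p)⁻¹ ≤ (1 - k / p)⁻¹` (`p > a0`), `≤ C'` by Mertens since `log X ≤ (1 / h) log H` (`V1_bounds` in `Y843/HG`; compare how `ubs` or `t59` (`VF_low`, `exp (8 k)`) compare two scales; `1 - k / p ≥ (1 - 1 / p) ^ (2 k)` for `p` large). -/
def St_UBI : Prop := ∀ (k t a0 : ℕ) (h : ℝ), 1 ≤ t → 0 < h → h ≤ 1 → ∃ C : ℝ, 0 < C ∧ ∃ X0 : ℝ, ∀ X : ℝ, X0 ≤ X → ∀ (al : Fin k → ℕ) (be : Fin k → ℤ), (∀ l, 1 ≤ al l ∧ al l ≤ a0) →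
  ∀ B H : ℕ, X ^ h ≤ H → (H : ℝ) ≤ X →
    (((Ioc B (B + H)).filter (fun n : ℕ => ∀ l, Ro (X ^ (1 / (t : ℝ))) (fm al be l n))).card : ℝ) ≤ C * (H * VN ⌊X⌋₊ al be)

open Classical in
/-- the good `n` of the window: the form `i` has at most `R` prime factors, all `≥ w`, all the forms are rough, and for all the systems `γ` of the family and all shifts `|d| ≤ L γ`: if all the forms of the system `γ` are rough at `n + d` then they all coincide with forms of the given system at `n` -/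
noncomputable def PtsI {r : ℕ} (A : Fin r → ℕ) (be : Fin r → ℤ) (i : Fin r) (R : ℕ) (w z : ℝ) {g : ℕ} (L : Fin g → ℝ) (s : Fin g → ℕ) (A' : (γ : Fin g) → Fin (s γ) → ℕ)
    (be' : (γ : Fin g) → Fin (s γ) → ℤ) (B H : ℕ) : Finset ℕ :=
  (Ioc B (B + H)).filter (fun n : ℕ => (fm A be i n).natAbs.primeFactorsList.length ≤ R ∧ (∀ p : ℕ, p.Prime → (p : ℤ) ∣ fm A be i n → w ≤ p) ∧
    (∀ l, Ro z (fm A be l n)) ∧
    ∀ γ, ∀ d : ℤ, |(d : ℝ)| ≤ L γ → (∀ x, Ro z ((A' γ x : ℤ) * (n + d) + be' γ x)) → ∀ x, ∃ l, A' γ x = A l ∧ (A' γ x : ℤ) * d + be' γ x = be l)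

/-- conclusion of NSI -/
def NSIc : Prop := ∀ (r : ℕ) (A : Fin r → ℕ), (∀ l, 1 ≤ A l) → ∀ (g : ℕ) (s : Fin g → ℕ) (A' : (γ : Fin g) → Fin (s γ) → ℕ), (∀ γ, 1 ≤ s γ) → (∀ γ x, 1 ≤ A' γ x) →
  ∀ (K R : ℕ) (h : ℝ), 1 ≤ K → 1 ≤ R → h ≤ 1 → 25 < 3 * (8 * R - 1) * h → ∀ i : Fin r, ∃ t : ℕ, 1 ≤ t ∧ ∀ T : ℕ, t ≤ T → ∃ c : ℝ, 0 < c ∧ ∃ ν : ℝ, 0 < ν ∧ ∃ X0 : ℝ, ∀ X : ℝ, X0 ≤ X →
    ∀ be : Fin r → ℤ, (∀ l, |(be l : ℝ)| ≤ K * X) → AdmS A be →
    ∀ be' : (γ : Fin g) → Fin (s γ) → ℤ, (∀ γ x, |(be' γ x : ℝ)| ≤ K * X) → (∀ γ, AdmS (A' γ) (be' γ)) →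
    ∀ L : Fin g → ℝ, (∀ γ, 0 ≤ L γ ∧ L γ ≤ X ∧ L γ * VN ⌊X⌋₊ (A' γ) (be' γ) ≤ ν) → ∀ z : ℝ, X ^ (1 / (T : ℝ)) ≤ z → z ≤ X ^ (1 / (t : ℝ)) →
    ∀ B H : ℕ, X ^ h ≤ H → (B : ℝ) + H ≤ X →
      c * (H * VN ⌊X⌋₊ A be) ≤ ((PtsI A be i R (X ^ (h / 6)) z L s A' be' B H).card : ℝ)

/-- **NSI** (theorem `nsi : St_NSI`): the theorem at the natural scale in every short interval.

Proof. The proofs of `nsc` (`LF/Nsc.lean`) and `nsw` (`LF/Nsw.lean`) with these changes: (1) the window `Ioc B (B + H)` in place of `(X, 2 X]`: in the definitions `S1`, `BadN`, in `cnt_union`, `S1_empty`, `per_sys` (there the bound becomes `C * (H * VN ⌊X⌋₊ A be) * (ν + 1 / (log X) ^ (1/2))`); the size of `n` is used only to bound the numbers `D x l`, which do not depend on `n`. (2) `St_UBI` (with the same `t`, `a0`, and this `h`) in place of `St_UBS`. (3) the lower bound: `LBIc` with `q = 1`, `u = 0` (`∏ p ∤ 1` is `VN`;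 `n ≡ 0 [MOD 1]`) in place of `UNQc`: `PtsW ..` in place of `PtsK`; `t` from `LBIc`.
The forms need not be pairwise different here: `VN` and `Ro` do not see repetitions. `L γ * VN ≤ ν` for every member. -/
def St_NSI : Prop := LBIc → St_UBI → St_PCO → St_AVG → St_OMS → NSIc

/-- **RKS** (theorem `rks : St_RKS`): Rankin's function at the scale `X ^ α`.

Proof. Let `T = log X`, `A = log T`, `B = log A`, `D = log B`, large. At `X ^ α`, `α ≤ 1`: `T' = α T`, `A' = A + log α ≥ A / 2`, so `B' ≥ B - log 2 > 0`, `B' ≤ B`, `D' = log B' ≥ log (B / 2) = D - log 2 ≥ D / 2`. So `Rk (X ^ α) = T' A' D' / B' ^ 2 ≥ (α T) (A / 2) (D / 2) / B ^ 2 = (α / 4) Rk X`. `Rk X > 0`, and `Rk X ≤ (log X) ^ 2` since `A D / B ^ 2 ≤ T`. (Compare `Rk_scale` in `CR/Pat.lean`, `rkm` in `LF/Rkm.lean`, `window_le` in `GP`.) -/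
def St_RKS : Prop := ∀ α : ℝ, 0 < α → α ≤ 1 → ∃ X0 : ℝ, ∀ X : ℝ, X0 ≤ X → 0 < Rk X ∧ Rk X ≤ (Real.log X) ^ 2 ∧ Rk X ≤ 4 / α * Rk (X ^ α)

open Classical in
/-- the `n` of the window with `n + a` a product of at most `R` primes, all `≥ w`, all the `n + e`, `e ∈ E`, rough, and all the other integers at distance `≤ D` from `n` with a prime factor `≤ y` -/
noncomputable def PtsR (E : Finset ℤ) (a : ℤ) (R : ℕ) (w z D y : ℝ) (B H : ℕ) : Finset ℕ :=
  (Ioc B (B + H)).filter (fun n : ℕ => ((n : ℤ) + a).natAbs.primeFactorsList.length ≤ R ∧ (∀ p : ℕ, p.Prime → (p : ℤ) ∣ (n : ℤ) + a → w ≤ p) ∧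
    (∀ e ∈ E, Ro z ((n : ℤ) + e)) ∧ ∀ s : ℤ, |(s : ℝ)| ≤ D → s ∉ E → ¬ Ro y ((n : ℤ) + s))

/-- conclusion of RSI -/
def RSIc : Prop := ∀ (k R : ℕ) (h ε : ℝ), 1 ≤ k → 1 ≤ R → h ≤ 1 → 25 < 3 * (8 * R - 1) * h → 0 < ε → ∃ t : ℕ, 1 ≤ t ∧ ∃ c : ℝ, 0 < c ∧ ∃ X0 : ℝ, ∀ X : ℝ, X0 ≤ X →
  ∀ E : Finset ℤ, E.card ≤ k → (∀ e ∈ E, |(e : ℝ)| ≤ c * Rk X) → AdmZ E → ∀ a ∈ E, ∀ B H : ℕ, X ^ h ≤ H → (B : ℝ) + H ≤ X →
    (H : ℝ) * X ^ (-ε) ≤ ((PtsR E a R (X ^ (h / 6)) (X ^ (1 / (t : ℝ))) (c * Rk X) (Real.log X) B H).card : ℝ)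

/-- **RSI** (theorem `rsi : St_RSI`): all prescribed surroundings at Rankin's scale in every short interval.

Proof. For every `k' ≤ k`, `1 ≤ k'` and `i : Fin k'` take `LBIc k' (fun _ => 1) 1 R h i`: `t`, `θ`, `c₁`; take the maximum of the `t`s (and note that `PtsW` with `z = X ^ (1/t)` for a smaller `t` is contained in the one for a larger `t`), the minima of `θ`, `c₁`. `α = min (min θ ε) 1`, `X' = X ^ α`. `St_COVA` with `A0 = 1` and every `k' ≤ k`: `c_cov` (the minimum), with `ps = 1`, `S = ∅` (`GoodP 2 1`, `GoodS X' ∅`: the sum is `0`, `≤ 6 / ..`).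
`W = WW X' ∅ 1`, the product of the primes `≤ log X' / 1000`; `W ≤ X' ≤ X ^ θ`, `X ^ ε` (primorial `≤ 4 ^ n`; see `BVB.WX_le` in `CR/Bvb.lean` for the same bound: `W ≤ X' ^ (1/500)`); in fact `W ≤ X ^ (ε / 2)`. Let `c` be so small that `O = ⌈c Rk X⌉₊` has `2 O ≤ c_cov Rk X'` for `X` large (`St_RKS`; `Rk X' → ∞`). `E' = {e + O : e ∈ E}` as a set of natural numbers `≤ 2 O`; `AdmA 1 E'` from `AdmZ E`. COVA: `a₀` such that for `s ≤ c_cov Rk X'`: (no prime `p ∣ W` divides `a₀ + s`) iff `s ∈ E'`.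
`u = a₀ + O`. For `e ∈ E` no prime `p ∣ W` divides `u + e` (`= a₀ + (O + e)`); for `|v| ≤ c Rk X ≤ O`, `v ∉ E`, some prime `p ∣ W` divides `u + v`. `LBIc` with the forms `n + e` (`be` = an enumeration of `E`, `E.orderEmbOfFin`, `i` = the index of `a`; `|e| ≤ X`; `AdmS` from `AdmZ`), `q = W`, `u`: the number of the `n` is `≥ c₁ (H / W) ∏_{p ≤ X, p ∤ W} (1 - om p / p) ≥ c₁ (H / W) c₂ / (log X) ^ (2 k + 2) ≥ H X ^ (-ε)` for `X` large.
(lower bound of the product: `VF_low` of `LF/T59.lean` / `VZ_low` of `Q253/Thin/Int.lean`; the factors of the primes `p ∣ W` which are missing are `≤ 1`.) For these `n ≡ u (mod W)`: if `|s| ≤ c Rk X`, `s ∉ E`: some prime `p ∣ W`, `p ≤ log X' / 1000 ≤ log X`, divides `u + s`, so `n + s`: `¬ Ro (log X) (n + s)`. -/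
def St_RSI : Prop := LBIc → St_COVA → St_RKS → RSIc

end Pool.Agent.Q117.SI
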