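import Pool.Agent.Q117.SI.All1
import Pool.Agent.Q117.SI.Rsi
import Pool.Agent.Q117.SI.Rks
import Pool.Agent.Q117.LF.Cova
import Pool.Agent.Q117.LF.Rsa

/-!
Project SI (helper117): prescribed surroundings at the scale of Rankin in every short interval.
-/

set_option autoImplicit false

namespace Pool.Agent.Q117.SI

theorem rsiC : RSIc := rsi lbiC (Pool.Agent.Q117.LF.cova Pool.Agent.Q117.LF.rsa) rks

end Pool.Agent.Q117.SI
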