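import Pool.Agent.Q117.SI.Stm2
import Pool.Agent.Q117.LF.Stc

/-!
Project SI (helper117), job STI (helper150): every string of types and residues has a positive
proportion in every short interval.
-/

set_option autoImplicit false

namespace Pool.Agent.Q117.SI

open Finset Filter
open Pool.Agent.Q117.LF

namespace STI

open Pool.Agent.Q117.LF.STCJ

/-- the good `n` for the vector `D` of the shifts -/
def Gd (R : ℕ) (w z L : ℝ) {J g : ℕ} (S : Fin g → Finset ℕ) (τ : Fin (J + 1) → Fin g)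
    (j₁ : Fin (J + 1)) (h₁ : ℕ) (B H : ℕ) (D : Fin (J + 1) → ℕ) (n : ℕ) : Prop :=
  n ∈ Ioc B (B + H) ∧ (n + D j₁ + h₁).primeFactorsList.length ≤ R ∧
  (∀ p : ℕ, p.Prime → p ∣ n + D j₁ + h₁ → w ≤ p) ∧
  (∀ j, Ty z (S (τ j)) ((n + D j : ℕ) : ℤ)) ∧
  ∀ γ, ∀ k : ℤ, |((k - n : ℤ) : ℝ)| ≤ L → Ty z (S γ) k →
    ∀ h ∈ S γ, ∃ j, ∃ h' ∈ S (τ j), k + h = ((n + D j : ℕ) : ℤ) + h'

lemma Gd_ex {R B H : ℕ} {w z L : ℝ} {J g κ : ℕ} {S : Fin g → Finset ℕ} {τ : Fin (J + 1) → Fin g}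
    {j₁ : Fin (J + 1)} {h₁ : ℕ} {D : Fin (J + 1) → ℕ} {n : ℕ}
    (hS : ∀ γ, (S γ).card = κ ∧ 0 ∈ S γ) (hinj : Function.Injective S) (Dm : ℕ)
    (hDm : ∀ γ, ∀ h ∈ S γ, h ≤ Dm) (hDs : ∀ i j, i < j → D i + 2 * Dm < D j)
    (hn : Gd R w z L S τ j₁ h₁ B H D n) (γ : Fin g) (k : ℤ) (hk : |((k - n : ℤ) : ℝ)| ≤ L)
    (hT : Ty z (S γ) k) : ∃ j, k = ((n + D j : ℕ) : ℤ) ∧ γ = τ j := by
  have h1 := hn.2.2.2.2 γ k hk hT
  obtain ⟨j, h0, hh0, e0⟩ := h1 0 (hS γ).2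
  push_cast at e0
  rw [add_zero] at e0
  have h2 : ∀ h ∈ S γ, h0 + h ∈ S (τ j) := by
    intro h hh
    obtain ⟨j', h', hh', e1⟩ := h1 h hh
    push_cast at e1
    have b0 := hDm _ _ hh0
    have b1 := hDm _ _ hh
    have b2 := hDm _ _ hh'
    rcases lt_trichotomy j j' with hjj | hjj | hjj
    · have := hDs j j' hjj
      omega
    · subst hjj
      have : h0 + h = h' := by omega
      rw [this]
      exact hh'
    · have := hDs j' j hjj
      omega
  have h3 : (S γ).image (fun h => h0 + h) = S (τ j) := by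
    apply eq_of_subset_of_card_le
    · intro x hx
      obtain ⟨h, hh, rfl⟩ := mem_image.mp hx
      exact h2 h hh
    · rw [card_image_of_injective _ (add_right_injective h0), (hS γ).1, (hS (τ j)).1]
  have h4 : h0 = 0 := by
    have h5 := (hS (τ j)).2
    rw [← h3, mem_image] at h5
    obtain ⟨h, -, h6⟩ := h5
    omega
  refine ⟨j, ?_, ?_⟩
  · rw [e0, h4]
    push_cast
    ring
  · apply hinj
    rw [← h3, h4]
    simp

lemma Gd_str {R B H : ℕ} {w z L : ℝ} {J g κ q : ℕ} {S : Fin g → Finset ℕ} {τ : Fin (J + 1) → Fin g}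
    {a : Fin (J + 1) → ℕ}
    {j₁ : Fin (J + 1)} {h₁ : ℕ} {D : Fin (J + 1) → ℕ} {n : ℕ}
    (hS : ∀ γ, (S γ).card = κ ∧ 0 ∈ S γ) (hinj : Function.Injective S) (Dm : ℕ)
    (hDm : ∀ γ, ∀ h ∈ S γ, h ≤ Dm) (hDs : ∀ i j, i < j → D i + 2 * Dm < D j)
    (hD0 : D 0 = 0) (hDL : ∀ j, (D j : ℝ) ≤ L) (hmod : ∀ j, n + D j ≡ a j [MOD q])
    (hn : Gd R w z L S τ j₁ h₁ B H D n) : n ∈ StrI q R w z L S τ a j₁ h₁ B H := by
  refine ⟨hn.1, fun j => n + D j, ?_, ?_, ?_, hmod, hn.2.2.2.1, hn.2.1,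
    hn.2.2.1, fun γ k hk hT => ?_⟩
  · simp [hD0]
  · intro i j hij
    have := hDs i j hij
    simp only
    omega
  · intro j
    push_cast
    linarith [hDL j]
  · exact Gd_ex hS hinj Dm hDm hDs hn γ k hk hT

lemma Gd_unique {R B H : ℕ} {w z L : ℝ} {J g κ W : ℕ} {S : Fin g → Finset ℕ} {τ : Fin (J + 1) → Fin g}
    {j₁ : Fin (J + 1)} {h₁ : ℕ} {D D' : Fin (J + 1) → ℕ} {n : ℕ}
    (hS : ∀ γ, (S γ).card = κ ∧ 0 ∈ S γ) (hinj : Function.Injective S) (Dm : ℕ)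
    (hDm : ∀ γ, ∀ h ∈ S γ, h ≤ Dm)
    (hDs' : ∀ i j, i < j → D' i + 2 * Dm < D' j)
    (hDL : ∀ j, (D j : ℝ) ≤ L)
    (hDw : ∀ j : Fin (J + 1), 2 * (j : ℕ) * W ≤ D j ∧ D j < 2 * (j : ℕ) * W + W)
    (hDw' : ∀ j : Fin (J + 1), 2 * (j : ℕ) * W ≤ D' j ∧ D' j < 2 * (j : ℕ) * W + W)
    (hn : Gd R w z L S τ j₁ h₁ B H D n) (hn' : Gd R w z L S τ j₁ h₁ B H D' n) : D = D' := by
  funext j
  obtain ⟨i, hi, -⟩ := Gd_ex hS hinj Dm hDm hDs' hn' (τ j) ((n + D j : ℕ) : ℤ)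
    (by
      push_cast
      rw [add_sub_cancel_left, abs_of_nonneg (Nat.cast_nonneg _)]
      exact hDL j) (hn.2.2.2.1 j)
  have h1 : D j = D' i := by omega
  have h2 : (i : ℕ) = j := by
    obtain ⟨a1, a2⟩ := hDw j
    obtain ⟨b1, b2⟩ := hDw' i
    rw [h1] at a1 a2
    rcases lt_trichotomy (i : ℕ) j with h | h | h
    · have : 2 * ((i : ℕ) + 1) * W ≤ 2 * (j : ℕ) * W :=
        Nat.mul_le_mul_right _ (Nat.mul_le_mul_left _ h)
      nlinarith
    · exact h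
    · have : 2 * ((j : ℕ) + 1) * W ≤ 2 * (i : ℕ) * W :=
        Nat.mul_le_mul_right _ (Nat.mul_le_mul_left _ h)
      nlinarith
  rw [h1, Fin.ext h2]

/-- the window -/
lemma win {M b0 B H : ℕ} (hb0 : b0 < M) (hH : 3 ≤ H / M) {m : ℕ}
    (hm : m ∈ Ioc (B / M + 1) (B / M + 1 + (H / M - 3))) : M * m + b0 ∈ Ioc B (B + H) := by
  rw [mem_Ioc] at hm ⊢
  have h1 := Nat.div_add_mod B M
  have h2 := Nat.mod_lt B (show 0 < M by omega)
  have h3 := Nat.div_add_mod H M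
  constructor
  · have h5 : M * (B / M + 2) ≤ M * m := Nat.mul_le_mul_left M (by omega)
    have h6 : M * (B / M + 2) = M * (B / M) + 2 * M := by ring
    omega
  · have h5 : m + 2 ≤ B / M + H / M := by omega
    have h6 : M * (m + 2) ≤ M * (B / M + H / M) := Nat.mul_le_mul_left M h5
    have h7 : M * (m + 2) = M * m + 2 * M := by ring
    have h8 : M * (B / M + H / M) = M * (B / M) + M * (H / M) := by ring
    omega

lemma stepA {J g κ M R B H : ℕ} (hM : 1 ≤ M) (S : Fin g → Finset ℕ) (τ : Fin (J + 1) → Fin g)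
    (en : Fin g → Fin κ → ℕ) (hen : ∀ γ h, h ∈ S γ ↔ ∃ y, en γ y = h)
    (j₁ : Fin (J + 1)) (y₁ : Fin κ) (b0 : ℕ) (hb0 : b0 < M)
    (D : Fin (J + 1) → ℕ) {G : ℕ} (F : Fin G → Fin g × ℕ)
    (hF : ∀ γ e, e < M → (∀ h ∈ S γ, (b0 + e + h).Coprime M) → ∃ y, F y = (γ, e))
    {w' w z L : ℝ} (hww : w ≤ w') (hz : ∀ p : ℕ, p.Prime → p ∣ M → (p : ℝ) ≤ z)
    (hH3 : 3 ≤ H / M) (x : ℕ)
    (hx : x ∈ PtsI (fun _ : Fin ((J + 1) * κ) => M)
      (fun l => ((b0 + D (finProdFinEquiv.symm l).1 +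
        en (τ (finProdFinEquiv.symm l).1) (finProdFinEquiv.symm l).2 : ℕ) : ℤ))
      (finProdFinEquiv (j₁, y₁)) R w' z (fun _ : Fin G => L / M + 1)
      (fun _ : Fin G => κ) (fun _ _ => M)
      (fun γ y => ((b0 + (F γ).2 + en (F γ).1 y : ℕ) : ℤ)) (B / M + 1) (H / M - 3)) :
    Gd R w z L S τ j₁ (en (τ j₁) y₁) B H D (M * x + b0) := by
  have hM0 : (0 : ℝ) < M := by exact_mod_cast hM
  simp only [PtsI, mem_filter] at hx
  obtain ⟨h1, h4, h5, h6, h7⟩ := hx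
  unfold fm at h4 h5 h6
  simp only [Equiv.symm_apply_apply] at h4 h5
  have e₁ : ((M : ℤ) * x + ((b0 + D j₁ + en (τ j₁) y₁ : ℕ) : ℤ)) =
      ((M * x + b0 + D j₁ + en (τ j₁) y₁ : ℕ) : ℤ) := by
    push_cast
    ring
  refine ⟨win hb0 hH3 h1, ?_, ?_, fun j h hh => ?_, fun γ k hk hT => ?_⟩
  · rw [e₁, Int.natAbs_natCast] at h4
    exact h4
  · intro p hp hpd
    rw [e₁] at h5
    exact hww.trans (h5 p hp (Int.natCast_dvd_natCast.mpr hpd))
  · obtain ⟨y, rfl⟩ := (hen _ _).mp hh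
    have h8 := h6 (finProdFinEquiv (j, y))
    simp only [Equiv.symm_apply_apply] at h8
    convert h8 using 1
    push_cast
    ring
  · -- the other numbers
    set n : ℕ := M * x + b0 with hn
    set w : ℤ := (k - b0) / M with hw
    have hMz : (0 : ℤ) < M := by exact_mod_cast hM
    have he0 : 0 ≤ (k - b0) % (M : ℤ) := Int.emod_nonneg _ hMz.ne'
    obtain ⟨e, he⟩ := Int.eq_ofNat_of_zero_le he0
    have heM : e < M := by
      have := Int.emod_lt_of_pos (k - b0) hMz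
      rw [he] at this
      exact_mod_cast this
    have hkw : k = M * w + b0 + e := by
      have := Int.emod_add_mul_ediv (k - b0) M
      rw [he] at this
      rw [hw]
      have e2 : ((e : ℕ) : ℤ) + (M : ℤ) * ((k - b0) / M) = k - b0 := this
      linarith
    have hnz : (n : ℤ) = M * x + b0 := by
      rw [hn]
      push_cast
      ring
    have hcop : ∀ h ∈ S γ, (b0 + e + h).Coprime M := by
      intro h hh
      apply Nat.Coprime.symm
      apply Nat.coprime_of_dvd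
      intro p hp hpM hpd
      have h8 : (p : ℤ) ∣ k + h := by
        have h9 : (p : ℤ) ∣ ((b0 + e + h : ℕ) : ℤ) := Int.natCast_dvd_natCast.mpr hpd
        have h10 : (p : ℤ) ∣ (M : ℤ) * w := (Int.natCast_dvd_natCast.mpr hpM).mul_right _
        have h11 : k + h = (M : ℤ) * w + ((b0 + e + h : ℕ) : ℤ) := by
          rw [hkw]
          push_cast
          ring
        rw [h11]
        exact dvd_add h10 h9
      exact absurd (hT h hh p hp h8) (not_lt.mpr (hz p hp hpM))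
    obtain ⟨γ', hγ'⟩ := hF γ e heM hcop
    have hd : |((w - x : ℤ) : ℝ)| ≤ L / M + 1 := by
      have e1 : (M : ℝ) * ((w - x : ℤ) : ℝ) = ((k - n : ℤ) : ℝ) - e := by
        have : (M : ℤ) * (w - x) = (k - n) - e := by
          rw [hnz, hkw]
          ring
        exact_mod_cast this
      have e2 : (M : ℝ) * |((w - x : ℤ) : ℝ)| ≤ L + M := by
        have e3 : (M : ℝ) * |((w - x : ℤ) : ℝ)| = |(M : ℝ) * ((w - x : ℤ) : ℝ)| := by
          rw [abs_mul, abs_of_pos hM0]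
        rw [e3, e1]
        have e4 : |(((k - n : ℤ) : ℝ) - e)| ≤ |((k - n : ℤ) : ℝ)| + |(e : ℝ)| := abs_sub _ _
        have e5 : |(e : ℝ)| ≤ M := by
          rw [abs_of_nonneg (Nat.cast_nonneg _)]
          exact_mod_cast heM.le
        linarith
      have e6 : L / M + 1 = (L + M) / M := by field_simp
      rw [e6, le_div_iff₀ hM0]
      linarith
    have h8 := h7 γ' (w - x) hd (by
      intro y
      rw [hγ']
      simp only
      have h9 := hT (en γ y) ((hen _ _).mpr ⟨y, rfl⟩)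
      convert h9 using 1
      rw [hkw]
      push_cast
      ring)
    intro h hh
    obtain ⟨y, rfl⟩ := (hen _ _).mp hh
    obtain ⟨l, -, h9⟩ := h8 (Fin.cast (by rfl) y)
    refine ⟨(finProdFinEquiv.symm l).1, en (τ (finProdFinEquiv.symm l).1)
      (finProdFinEquiv.symm l).2, (hen _ _).mpr ⟨_, rfl⟩, ?_⟩
    rw [hγ'] at h9
    simp only [Fin.cast_eq_self] at h9
    push_cast at h9 ⊢
    rw [hnz, hkw]
    linarith

/-- the exponents -/
lemma exps {R : ℕ} {hx : ℝ} (hR : 1 ≤ R) (hxR : 25 < 3 * (8 * R - 1) * hx) :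
    0 < hx ∧ ∃ hx' : ℝ, 9 / 10 * hx ≤ hx' ∧ hx' < hx ∧ 25 < 3 * (8 * R - 1) * hx' := by
  have hr1 : (1 : ℝ) ≤ R := by exact_mod_cast hR
  have h8 : (0 : ℝ) < 3 * (8 * R - 1) := by linarith
  have hx0 : 0 < hx := by
    by_contra hcon
    push Not at hcon
    nlinarith
  obtain ⟨hx₀, hhx₀⟩ : ∃ hx₀ : ℝ, hx₀ = 25 / (3 * (8 * R - 1)) := ⟨_, rfl⟩
  have hlt : hx₀ < hx := by
    rw [hhx₀, div_lt_iff₀ h8]
    linarith
  obtain ⟨hx', hhx'⟩ : ∃ hx' : ℝ, hx' = max ((hx + hx₀) / 2) (9 / 10 * hx) := ⟨_, rfl⟩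
  have h1' : (hx + hx₀) / 2 ≤ hx' := by rw [hhx']; exact le_max_left _ _
  have h2' : 9 / 10 * hx ≤ hx' := by rw [hhx']; exact le_max_right _ _
  have h3' : hx' < hx := by
    rw [hhx']
    apply max_lt <;> linarith
  refine ⟨hx0, hx', h2', h3', ?_⟩
  have : hx₀ < hx' := by linarith
  rw [hhx₀, div_lt_iff₀ h8] at this
  linarith

lemma wlen {M B H : ℕ} (hM : 1 ≤ M) {X hx hx' : ℝ} (hX0 : 0 < X) (f13 : 8 * (M : ℝ) ≤ X ^ hx)
    (f14 : 2 * (M : ℝ) ≤ X ^ (hx - hx')) (hXH : X ^ hx ≤ H) (hBH : (B : ℝ) + H ≤ X) :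
    3 ≤ H / M ∧ (H : ℝ) / M / 2 ≤ ((H / M - 3 : ℕ) : ℝ) ∧ X ^ hx' ≤ ((H / M - 3 : ℕ) : ℝ) ∧
      ((B / M + 1 : ℕ) : ℝ) + ((H / M - 3 : ℕ) : ℝ) ≤ X := by
  have hM0 : (0 : ℝ) < M := by exact_mod_cast hM
  have hHq8 : 8 ≤ (H : ℝ) / M := by
    rw [le_div_iff₀ hM0]
    exact f13.trans hXH
  have hdiv : (H : ℝ) / M - 1 ≤ ((H / M : ℕ) : ℝ) := by
    have h1 := Nat.div_add_mod H M
    have h2 := Nat.mod_lt H (show 0 < M by omega)
    have h3 : (H : ℝ) ≤ M * ((H / M : ℕ) : ℝ) + M := by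
      have : H ≤ M * (H / M) + M := by omega
      exact_mod_cast this
    have h4 : (H : ℝ) / M ≤ ((H / M : ℕ) : ℝ) + 1 := by
      rw [div_le_iff₀ hM0]
      linarith
    linarith
  have hHn : 3 ≤ H / M := by
    have : (3 : ℝ) ≤ ((H / M : ℕ) : ℝ) := by linarith
    exact_mod_cast this
  have hH'r : ((H / M - 3 : ℕ) : ℝ) = ((H / M : ℕ) : ℝ) - 3 := by
    rw [Nat.cast_sub hHn]
    push_cast
    rfl
  have hHhalf : (H : ℝ) / M / 2 ≤ ((H / M - 3 : ℕ) : ℝ) := by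
    rw [hH'r]
    linarith
  refine ⟨hHn, hHhalf, ?_, ?_⟩
  · refine le_trans ?_ hHhalf
    rw [div_div, le_div_iff₀ (by positivity)]
    refine le_trans ?_ hXH
    calc X ^ hx' * (M * 2) ≤ X ^ hx' * X ^ (hx - hx') :=
          mul_le_mul_of_nonneg_left (by linarith) (by positivity)
      _ = X ^ hx := by
          rw [← Real.rpow_add hX0]
          congr 1
          ring
  · have h1 : B / M + 1 + (H / M - 3) ≤ B + H := by
      have := Nat.div_le_self B M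
      have := Nat.div_le_self H M
      omega
    have h2 : ((B / M + 1 : ℕ) : ℝ) + ((H / M - 3 : ℕ) : ℝ) ≤ (B : ℝ) + (H : ℝ) := by exact_mod_cast h1
    exact h2.trans hBH

lemma blk_sep {W Dm i j Di Dj : ℕ} (h1 : Di < 2 * i * W + W) (h2 : 2 * j * W ≤ Dj) (hij : i < j)
    (hu : 2 * Dm < W) : Di + 2 * Dm < Dj := by
  have h5 : 2 * (i + 1) * W ≤ 2 * j * W :=
    Nat.mul_le_mul_right _ (Nat.mul_le_mul_left _ hij)
  have h6 : 2 * (i + 1) * W = 2 * i * W + 2 * W := by ring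
  omega

lemma blk_le {M u J j Dj : ℕ} {L : ℝ} (h3 : Dj < 2 * j * (M * u) + M * u) (hj : j ≤ J)
    (huL : (M : ℝ) * u * (2 * (J + 1)) ≤ L) : (Dj : ℝ) ≤ L := by
  have h4 : 2 * j * (M * u) + M * u ≤ M * u * (2 * (J + 1)) := by
    nlinarith [Nat.mul_le_mul_right (M * u) hj]
  have h5 : (Dj : ℝ) ≤ (M : ℝ) * u * (2 * (J + 1)) := by exact_mod_cast h3.le.trans h4
  exact h5.trans huL

lemma u_le {M J : ℕ} (hM : 1 ≤ M) {L : ℝ} (hL0 : 0 < L) :
    (M : ℝ) * (⌊L / (4 * M * (J + 1))⌋₊ : ℝ) * (2 * (J + 1)) ≤ L := by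
  have hM0 : (0 : ℝ) < M := by exact_mod_cast hM
  have h3 : ((⌊L / (4 * M * (J + 1))⌋₊ : ℕ) : ℝ) ≤ L / (4 * M * (J + 1)) := Nat.floor_le (by positivity)
  rw [le_div_iff₀ (by positivity)] at h3
  have h4 : (0 : ℝ) ≤ ((⌊L / (4 * M * (J + 1))⌋₊ : ℕ) : ℝ) * (M * (J + 1)) := by positivity
  nlinarith

/-- the sieve products of the family -/
lemma fam_le {A C ν₁ X Y : ℝ} {κ : ℕ} (hA : 0 ≤ A) (hC : 0 < C) (hY4 : 4 ≤ Y) (hYX : Y ≤ X) {V : ℝ}
    (f9 : A * (C / Real.log ⌊Y⌋₊ ^ κ) ≤ ν₁) (hV : ∀ y : ℕ, 2 ≤ y → y = ⌊X⌋₊ → V ≤ C / Real.log y ^ κ) :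
    A * V ≤ ν₁ := by
  have g1 : 2 ≤ ⌊Y⌋₊ := Nat.le_floor (by norm_num; linarith)
  have g0 : ⌊Y⌋₊ ≤ ⌊X⌋₊ := Nat.floor_le_floor hYX
  have g2 := hV ⌊X⌋₊ (g1.trans g0) rfl
  refine le_trans ?_ f9
  have g3 : (0 : ℝ) < Real.log (⌊Y⌋₊ : ℝ) := Real.log_pos (by exact_mod_cast g1)
  have g4 : Real.log (⌊Y⌋₊ : ℝ) ≤ Real.log (⌊X⌋₊ : ℝ) :=
    Real.log_le_log (by exact_mod_cast (by omega : 0 < ⌊Y⌋₊)) (by exact_mod_cast g0)
  refine mul_le_mul_of_nonneg_left (g2.trans ?_) hA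
  exact div_le_div_of_nonneg_left hC.le (by positivity) (pow_le_pow_left₀ g3.le g4 _)

/-- the final bound -/
lemma fin_le {X c c₂ Hr Hp V : ℝ} {M r : ℕ} (hM : 1 ≤ M) (hX : 2 ≤ X) (hc : 0 < c) (hc₂ : 0 < c₂)
    (hHr : 0 ≤ Hr) (hH : Hr / M / 2 ≤ Hp) (hlow : ∀ y : ℕ, 2 ≤ y → y = ⌊X⌋₊ → c₂ / Real.log y ^ r ≤ V) :
    c * c₂ / (2 * M) * (Hr / Real.log X ^ r) ≤ c * (Hp * V) := by
  have hM0 : (0 : ℝ) < M := by exact_mod_cast hM
  have g1 : 2 ≤ ⌊X⌋₊ := Nat.le_floor (by norm_num; linarith)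
  have h4 := hlow ⌊X⌋₊ g1 rfl
  have g2 : (1 : ℝ) < ⌊X⌋₊ := by exact_mod_cast g1
  have h5 : 0 < Real.log (⌊X⌋₊ : ℝ) := Real.log_pos g2
  have h6 : Real.log (⌊X⌋₊ : ℝ) ≤ Real.log X := by
    apply Real.log_le_log (by linarith)
    exact Nat.floor_le (by linarith)
  have h7 : 0 ≤ Hp := le_trans (by positivity) hH
  have h8 : c₂ / Real.log X ^ r ≤ c₂ / Real.log (⌊X⌋₊ : ℝ) ^ r :=
    div_le_div_of_nonneg_left hc₂.le (by positivity) (pow_le_pow_left₀ h5.le h6 _)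
  have h9 : 0 < Real.log X := by linarith
  calc c * c₂ / (2 * M) * (Hr / Real.log X ^ r) = c * (Hr / M / 2 * (c₂ / Real.log X ^ r)) := by
        field_simp
    _ ≤ c * (Hp * V) := by
        apply mul_le_mul_of_nonneg_left _ hc.le
        exact mul_le_mul hH (h8.trans h4) (by positivity) h7

end STI

open STI in
open Pool.Agent.Q117.LF.STCJ (cls adm_M VN_lower fam_upper ev_all sft sft_zero sft_blk sft_cong sft_inj) in
/-- **STI** -/
theorem sti : St_STI := by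
  classical
  intro hN hV J g q κ R hx S hq hκ hR hx1 hxR hS hinj τ a hadm hcop j₁ h₁ hh₁
  obtain ⟨hx0, hx', h2', h3', h4'⟩ := exps hR hxR
  have hx'0 : 0 < hx' := by linarith
  -- the sizes
  obtain ⟨Dm, hDm⟩ : ∃ Dm : ℕ, ∀ γ, ∀ h ∈ S γ, h ≤ Dm := by
    refine ⟨(univ.biUnion S).sup id, fun γ h hh => ?_⟩
    exact le_sup (f := id) (mem_biUnion.mpr ⟨γ, mem_univ _, hh⟩)
  set r : ℕ := (J + 1) * κ with hr
  set P0 : ℕ := 4 * r ^ 2 + 2 * r + 2 + κ + q with hP0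
  set M : ℕ := P0.factorial with hMdef
  have hM : 1 ≤ M := Nat.factorial_pos _
  have hM0 : (0 : ℝ) < M := by exact_mod_cast hM
  have hMz : (0 : ℤ) < M := by exact_mod_cast hM
  -- the classes
  have hcls := fun j => cls q P0 hq (by omega) (S (τ j)) (a j) (hadm j) (hcop j)
  choose b hbM hbq hbc using hcls
  -- enumerations of the types
  set en : Fin g → Fin κ → ℕ := fun γ => (S γ).orderEmbOfFin (hS γ).1 with hen0
  have hen : ∀ γ h, h ∈ S γ ↔ ∃ y, en γ y = h := by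
    intro γ h
    have h3 := Finset.range_orderEmbOfFin (S γ) (hS γ).1
    constructor
    · intro hh
      have h4 : h ∈ Set.range ((S γ).orderEmbOfFin (hS γ).1) := by
        rw [h3]
        exact hh
      exact h4
    · rintro ⟨y, rfl⟩
      exact Finset.orderEmbOfFin_mem _ _ _
  have heni : ∀ γ, Function.Injective (en γ) := fun γ => ((S γ).orderEmbOfFin (hS γ).1).injective
  obtain ⟨y₁, hy₁⟩ := (hen _ _).mp hh₁
  -- the family
  set FT : Type := {p : Fin g × Fin M // ∀ h ∈ S p.1, (b 0 + (p.2 : ℕ) + h).Coprime M} with hFT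
  set G : ℕ := Fintype.card FT with hG
  set eq : Fin G ≃ FT := (Fintype.equivFin FT).symm with heq
  set F : Fin G → Fin g × ℕ := fun γ => ((eq γ).1.1, ((eq γ).1.2 : ℕ)) with hFdef
  have hF : ∀ γ e, e < M → (∀ h ∈ S γ, (b 0 + e + h).Coprime M) → ∃ y, F y = (γ, e) := by
    intro γ e he h
    refine ⟨eq.symm ⟨(γ, ⟨e, he⟩), h⟩, ?_⟩
    rw [hFdef]
    simp only
    rw [Equiv.apply_symm_apply]
  have hFc : ∀ γ, (F γ).2 < M ∧ ∀ h ∈ S (F γ).1, (b 0 + (F γ).2 + h).Coprime M :=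
    fun γ => ⟨(eq γ).1.2.2, (eq γ).2⟩
  set be' : Fin G → Fin κ → ℤ := fun γ y => ((b 0 + (F γ).2 + en (F γ).1 y : ℕ) : ℤ) with hbe'
  have hbei : ∀ γ, Function.Injective (be' γ) := by
    intro γ y y' h
    rw [hbe'] at h
    simp only [Nat.cast_inj] at h
    exact heni (F γ).1 (by omega)
  obtain ⟨C, hC, hCb⟩ := fam_upper hV hM be' hbei
  -- the theorem at the natural scale
  obtain ⟨t, ht, hT⟩ := hN r (fun _ => M) (fun _ => hM) G (fun _ => κ) (fun _ _ => M)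
    (fun _ => hκ) (fun _ _ => hM) 2 R hx' (by norm_num) hR (by linarith) h4' (finProdFinEquiv (j₁, y₁))
  obtain ⟨c, hc, ν₁, hν₁, X0, hX0⟩ := hT t le_rfl
  obtain ⟨c₂, hc₂, hlow⟩ := VN_lower r P0 (by omega)
  set ν : ℝ := ν₁ / (2 * (C * 2 ^ κ)) with hν
  have hν0 : 0 < ν := by positivity
  have hνC : ν * (C * 2 ^ κ) ≤ ν₁ / 2 := by
    rw [hν]
    apply le_of_eq
    field_simp
  have ev1 : ∀ᶠ X : ℝ in atTop, (8 : ℝ) * M ≤ X ^ hx :=
    (tendsto_rpow_atTop hx0).eventually_ge_atTop _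
  have ev2 : ∀ᶠ X : ℝ in atTop, (2 : ℝ) * M ≤ X ^ (hx - hx') :=
    (tendsto_rpow_atTop (by linarith)).eventually_ge_atTop _
  obtain ⟨X1, hX1⟩ := eventually_atTop.mp (((ev_all M P0 Dm J κ t hM hκ ht ν ν₁ C (max X0 1) hν0 hν₁ hC hνC).and
    ev1).and ev2)
  refine ⟨t, ht, (ν / (8 * M * (J + 1))) ^ J * (c * c₂ / (2 * M)), by positivity, ν, hν0,
    X1, fun X hX B H hXH hBH => ?_⟩
  obtain ⟨⟨⟨f1, f2, f3, f4, f5, f6, f7, f8, f9, f10, f11, f12⟩, f13⟩, f14⟩ := hX1 X hX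
  have hXM0 : 0 < X / M := by linarith
  have hX0' : 0 < X := by
    have : 0 < X / M * M := by positivity
    rwa [div_mul_cancel₀ _ hM0.ne'] at this
  have hM1 : (1 : ℝ) ≤ M := by exact_mod_cast hM
  have hXMX : X / M ≤ X := div_le_self hX0'.le hM1
  have hX2 : 2 ≤ X := by linarith
  have hX1' : 1 ≤ X := by linarith
  have hl0 : 0 < Real.log X := Real.log_pos (by linarith)
  set L : ℝ := ν * Real.log X ^ κ with hL
  have hL0 : 0 < L := by positivity
  set z : ℝ := X ^ (1 / (t : ℝ)) with hz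
  have hP0z : (P0 : ℝ) ≤ z := by
    refine f6.trans (Real.rpow_le_rpow_of_exponent_le hX1' ?_)
    apply one_div_le_one_div_of_le (by exact_mod_cast ht)
    push_cast
    linarith
  set u : ℕ := ⌊L / (4 * M * (J + 1))⌋₊ with hu
  have hu1 : 1 ≤ u := by omega
  have huL : (M : ℝ) * u * (2 * (J + 1)) ≤ L := u_le hM hL0
  have huD : 2 * Dm < M * u := by
    have : 1 * u ≤ M * u := Nat.mul_le_mul_right _ hM
    omega
  obtain ⟨hHn, hHhalf, hHX', hBH'⟩ := wlen hM hX0' f13 f14 hXH hBH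
  have hww : X ^ (hx / 7) ≤ X ^ (hx' / 6) :=
    Real.rpow_le_rpow_of_exponent_le hX1' (by linarith)
  -- the shifts
  set D : (Fin J → Fin u) → Fin (J + 1) → ℕ := fun v => sft M u b v with hD
  have hD0 : ∀ v, D v 0 = 0 := fun v => sft_zero hbM v
  have hDw : ∀ v, ∀ j : Fin (J + 1), 2 * (j : ℕ) * (M * u) ≤ D v j ∧
      D v j < 2 * (j : ℕ) * (M * u) + M * u := fun v j => sft_blk hM hu1 v j
  have hDs : ∀ v, ∀ i j : Fin (J + 1), i < j → D v i + 2 * Dm < D v j := by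
    intro v i j hij
    exact blk_sep (hDw v i).2 (hDw v j).1 hij huD
  have hDL : ∀ v, ∀ j : Fin (J + 1), (D v j : ℝ) ≤ L := by
    intro v j
    exact blk_le (hDw v j).2 (Nat.lt_succ_iff.mp j.2) huL
  have hDc : ∀ v, ∀ j : Fin (J + 1), b 0 + D v j ≡ b j [MOD M] := fun v j => sft_cong hbM v j
  -- the good points
  set be : (Fin J → Fin u) → Fin r → ℤ := fun v l => ((b 0 + D v (finProdFinEquiv.symm l).1 +
        en (τ (finProdFinEquiv.symm l).1) (finProdFinEquiv.symm l).2 : ℕ) : ℤ) with hbe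
  set P : (Fin J → Fin u) → Finset ℕ := fun v => PtsI (fun _ => M) (be v)
      (finProdFinEquiv (j₁, y₁)) R (X ^ (hx' / 6)) z (fun _ => L / M + 1) (fun _ : Fin G => κ) (fun _ _ => M)
      be' (B / M + 1) (H / M - 3) with hP
  have hgood : ∀ v, ∀ x ∈ P v, Gd R (X ^ (hx / 7)) z L S τ j₁ h₁ B H (D v) (M * x + b 0) := by
    intro v x hx
    have h3 := stepA hM S τ en hen j₁ y₁ (b 0) (hbM 0) (D v) F hF hww (z := z) (L := L)
      (fun p hp hpM => by
        have h4 : p ≤ P0 := (Nat.Prime.dvd_factorial hp).mp hpM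
        have h5 : (p : ℝ) ≤ P0 := by exact_mod_cast h4
        exact h5.trans hP0z) hHn x hx
    rw [hy₁] at h3
    exact h3
  -- the lower bound for one vector
  have hcopz : ∀ v, ∀ l, IsCoprime (be v l) (M : ℤ) := by
    intro v l
    rw [hbe]
    simp only
    rw [Nat.isCoprime_iff_coprime]
    set j := (finProdFinEquiv.symm l).1
    set y := (finProdFinEquiv.symm l).2
    have h3 := hbc j (en (τ j) y) ((hen _ _).mpr ⟨y, rfl⟩)
    have h4 : b 0 + D v j + en (τ j) y ≡ b j + en (τ j) y [MOD M] := (hDc v j).add_right _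
    unfold Nat.Coprime at h3 ⊢
    rw [h4.gcd_eq]
    exact h3
  have hcard : ∀ v, c * c₂ / (2 * M) * (H / Real.log X ^ r) ≤ ((P v).card : ℝ) := by
    intro v
    have h3 := hX0 X ((le_max_left _ _).trans (f1.trans hXMX)) (be v)
      (by
        intro l
        rw [hbe]
        simp only
        rw [Int.cast_natCast, abs_of_nonneg (Nat.cast_nonneg _)]
        have g1 : (b 0 : ℝ) ≤ M := by exact_mod_cast (hbM 0).le
        have g2 := hDL v (finProdFinEquiv.symm l).1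
        have g3 : ((en (τ (finProdFinEquiv.symm l).1) (finProdFinEquiv.symm l).2 : ℕ) : ℝ) ≤ Dm := by
          exact_mod_cast hDm _ _ ((hen _ _).mpr ⟨_, rfl⟩)
        push_cast
        linarith)
      (adm_M (be v) (by omega) (hcopz v))
      be'
      (by
        intro γ y
        rw [hbe']
        simp only
        rw [Int.cast_natCast, abs_of_nonneg (Nat.cast_nonneg _)]
        have g1 : (b 0 : ℝ) ≤ M := by exact_mod_cast (hbM 0).le
        have g2 : (((F γ).2 : ℕ) : ℝ) ≤ M := by exact_mod_cast (hFc γ).1.le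
        have g3 : ((en (F γ).1 y : ℕ) : ℝ) ≤ Dm := by
          exact_mod_cast hDm _ _ ((hen _ _).mpr ⟨_, rfl⟩)
        have g4 : (0 : ℝ) ≤ Dm := Nat.cast_nonneg _
        push_cast
        linarith)
      (by
        intro γ
        apply adm_M (be' γ) (by omega)
        intro y
        rw [hbe']
        simp only
        rw [Nat.isCoprime_iff_coprime]
        exact (hFc γ).2 _ ((hen _ _).mpr ⟨_, rfl⟩))
      (fun _ => L / M + 1)
      (by
        intro γ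
        refine ⟨by positivity, f8.trans hXMX, ?_⟩
        exact fam_le (by positivity) hC f2 hXMX f9 (fun y hy _hyX => by rw [← _hyX]; exact hCb γ y hy))
      z le_rfl le_rfl (B / M + 1) (H / M - 3) hHX' hBH'
    exact (fin_le hM hX2 hc hc₂ (Nat.cast_nonneg H) hHhalf
      (fun y hy _hyX => by rw [← _hyX]; exact hlow (be v) (hcopz v) y hy)).trans h3
  -- the union over the vectors
  set U : Finset ℕ := (univ : Finset (Fin J → Fin u)).biUnion
    (fun v => (P v).image (fun x => M * x + b 0)) with hU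
  have hUcard : U.card = ∑ v : Fin J → Fin u, (P v).card := by
    rw [hU, card_biUnion]
    · apply sum_congr rfl
      intro v _
      apply card_image_of_injective
      intro x x' h
      simp only at h
      exact Nat.eq_of_mul_eq_mul_left hM (by omega)
    · intro v _ v' _ hvv
      rw [Function.onFun, disjoint_left]
      intro n hn hn'
      obtain ⟨x, hx, rfl⟩ := mem_image.mp hn
      obtain ⟨x', hx', hxx⟩ := mem_image.mp hn'
      have g1 := hgood v x hx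
      have g2 := hgood v' x' hx'
      rw [hxx] at g2
      apply hvv
      apply sft_inj (b := b) hM
      exact Gd_unique hS hinj Dm hDm (hDs v') (hDL v) (hDw v) (hDw v') g1 g2
  have hUsub : (U : Set ℕ) ⊆ StrI q R (X ^ (hx / 7)) z L S τ a j₁ h₁ B H := by
    intro n hn
    rw [mem_coe, hU, mem_biUnion] at hn
    obtain ⟨v, -, hn⟩ := hn
    obtain ⟨x, hx, rfl⟩ := mem_image.mp hn
    apply Gd_str hS hinj Dm hDm (hDs v) (hD0 v) (hDL v) _ (hgood v x hx)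
    intro j
    have g1 : M * x + b 0 + D v j ≡ b j [MOD M] := by
      have g2 : M * x + (b 0 + D v j) ≡ 0 + b j [MOD M] :=
        (Nat.modEq_zero_iff_dvd.mpr (Dvd.intro _ rfl)).add (hDc v j)
      rw [zero_add, ← add_assoc] at g2
      exact g2
    have g3 : q ∣ M := Nat.dvd_factorial hq (by omega)
    exact (g1.of_dvd g3).trans (hbq j)
  have hfin : (StrI q R (X ^ (hx / 7)) z L S τ a j₁ h₁ B H).Finite := by
    apply (Ioc B (B + H)).finite_toSet.subset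
    intro n hn
    exact hn.1
  have hle : (U.card : ℝ) ≤ ((StrI q R (X ^ (hx / 7)) z L S τ a j₁ h₁ B H).ncard : ℝ) := by
    rw [← Set.ncard_coe_finset]
    exact_mod_cast Set.ncard_le_ncard hUsub hfin
  refine le_trans ?_ hle
  rw [hUcard]
  push_cast
  calc (ν / (8 * M * (J + 1))) ^ J * (c * c₂ / (2 * M)) * (H / Real.log X ^ κ)
      = (L / (8 * M * (J + 1))) ^ J * (c * c₂ / (2 * M) * (H / Real.log X ^ r)) := by
        have e1 : Real.log X ^ r = (Real.log X ^ κ) ^ J * Real.log X ^ κ := by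
          rw [hr, ← pow_mul, ← pow_add]
          congr 1
          ring
        rw [e1, hL]
        have e2 : ν * Real.log X ^ κ / (8 * M * (J + 1)) =
            ν / (8 * M * (J + 1)) * Real.log X ^ κ := by ring
        rw [e2, mul_pow]
        field_simp
    _ ≤ (u : ℝ) ^ J * (c * c₂ / (2 * M) * (H / Real.log X ^ r)) := by
        gcongr
    _ = ∑ _v : Fin J → Fin u, (c * c₂ / (2 * M) * (H / Real.log X ^ r)) := by
        rw [sum_const, card_univ, Fintype.card_fun, Fintype.card_fin, Fintype.card_fin,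
          nsmul_eq_mul]
        push_cast
        ring
    _ ≤ ∑ v : Fin J → Fin u, ((P v).card : ℝ) := sum_le_sum fun v _ => hcard v

end Pool.Agent.Q117.SI
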