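import Pool.Agent.Q117.SI.Stm2

/-! Project SI, job SIM (helper176): the same offset in several short intervals. -/

set_option autoImplicit false

namespace Pool.Agent.Q117.SI

open Finset Filter
open Pool.Agent.Q117.LF

namespace SIM

lemma mod_iff {p : ℕ} (hp : 0 < p) {n u : ℕ} (hn : n < p) :
    ((p : ℤ) ∣ (n : ℤ) + u) ↔ n = (p - u % p) % p := by
  have hu := Nat.mod_lt u hp
  have hu' := Nat.div_add_mod u p
  rw [show ((n : ℤ) + u) = ((n + u : ℕ) : ℤ) by push_cast; rfl, Int.natCast_dvd_natCast]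
  have h1 : p ∣ n + u ↔ p ∣ n + u % p := by
    have h2 : n + u = (n + u % p) + p * (u / p) := by omega
    rw [h2]
    exact Nat.dvd_add_left (Dvd.intro _ rfl)
  rw [h1]
  set r := u % p
  rcases Nat.eq_zero_or_pos r with e | e
  · rw [e, add_zero, Nat.sub_zero, Nat.mod_self]
    constructor
    · intro h
      exact Nat.eq_zero_of_dvd_of_lt h hn
    · rintro rfl
      exact dvd_zero _
  · rw [Nat.mod_eq_of_lt (by omega)]
    constructor
    · rintro ⟨j, hj⟩
      rcases Nat.lt_or_ge j 2 with h | h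
      · interval_cases j
        · omega
        · omega
      · have : p * 2 ≤ p * j := Nat.mul_le_mul_left _ h
        omega
    · intro h
      exact ⟨1, by omega⟩

lemma om_eq {k : ℕ} (u : Fin k → ℕ) {p : ℕ} (hp : 0 < p) :
    om (fun _ => 1) (fun l => (u l : ℤ)) p = rhoU u p := by
  classical
  unfold om rhoU
  have h1 : (range p).filter (fun n : ℕ => ∃ l, (p : ℤ) ∣ fm (fun _ => 1) (fun l => (u l : ℤ)) l n) =
      (univ.image (fun l => u l % p)).image (fun r => (p - r) % p) := by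
    ext n
    rw [mem_filter, mem_range, mem_image]
    constructor
    · rintro ⟨hn, l, hl⟩
      refine ⟨u l % p, mem_image.2 ⟨l, mem_univ _, rfl⟩, ?_⟩
      unfold fm at hl
      rw [Nat.cast_one, one_mul] at hl
      exact ((mod_iff hp hn).1 hl).symm
    · rintro ⟨r, hr, rfl⟩
      rw [mem_image] at hr
      obtain ⟨l, _, rfl⟩ := hr
      refine ⟨Nat.mod_lt _ hp, l, ?_⟩
      unfold fm
      rw [Nat.cast_one, one_mul]
      exact (mod_iff hp (Nat.mod_lt _ hp)).2 rfl
  rw [h1, card_image_of_injOn]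
  intro r hr r' hr' h
  rw [mem_coe, mem_image] at hr hr'
  obtain ⟨l, _, rfl⟩ := hr
  obtain ⟨l', _, rfl⟩ := hr'
  have a1 := Nat.mod_lt (u l) hp
  have a2 := Nat.mod_lt (u l') hp
  simp only at h
  rcases Nat.eq_zero_or_pos (u l % p) with e | e <;>
    rcases Nat.eq_zero_or_pos (u l' % p) with e' | e'
  · rw [e, e']
  · exfalso
    have q2 : (p - u l' % p) % p = p - u l' % p := Nat.mod_eq_of_lt (by omega)
    rw [e, Nat.sub_zero, Nat.mod_self, q2] at h
    omega
  · exfalso
    have q1 : (p - u l % p) % p = p - u l % p := Nat.mod_eq_of_lt (by omega)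
    rw [e', Nat.sub_zero, Nat.mod_self, q1] at h
    omega
  · have q1 : (p - u l % p) % p = p - u l % p := Nat.mod_eq_of_lt (by omega)
    have q2 : (p - u l' % p) % p = p - u l' % p := Nat.mod_eq_of_lt (by omega)
    rw [q1, q2] at h
    omega

lemma adm {k : ℕ} (u : Fin k → ℕ) (hu : ∀ p : ℕ, p.Prime → rhoU u p < p) :
    AdmS (fun _ => 1) (fun l => (u l : ℤ)) := by
  classical
  intro p hp
  by_contra hcon
  push Not at hcon
  have h1 := om_eq u hp.pos
  have h2 := hu p hp
  rw [← h1] at h2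
  unfold om at h2
  rw [filter_true_of_mem (fun n _ => hcon n), card_range] at h2
  exact lt_irrefl _ h2

lemma VN_eq {k : ℕ} (u : Fin k → ℕ) (X : ℝ) :
    VN ⌊X⌋₊ (fun _ => 1) (fun l => (u l : ℤ)) = densU u X := by
  unfold VN densU
  apply prod_congr rfl
  intro p hp
  rw [om_eq u (mem_filter.1 hp).2.pos]

lemma dens_nonneg {k : ℕ} (u : Fin k → ℕ) (hu : ∀ p : ℕ, p.Prime → rhoU u p < p) (X : ℝ) :
    0 ≤ densU u X := by
  unfold densU
  apply prod_nonneg
  intro p hp
  have hp' := (mem_filter.1 hp).2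
  have h1 : (rhoU u p : ℝ) ≤ p := by exact_mod_cast (hu p hp').le
  have h2 : (0 : ℝ) < p := by exact_mod_cast hp'.pos
  have : (rhoU u p : ℝ) / p ≤ 1 := (div_le_one h2).2 h1
  linarith

lemma adm1 (v : ℕ) : AdmS (fun _ : Fin 1 => 1) (fun _ => (v : ℤ)) := by
  intro p hp
  refine ⟨(p - 1) * v + 1, fun _ hd => ?_⟩
  unfold fm at hd
  obtain ⟨q, rfl⟩ : ∃ q, p = q + 1 := ⟨p - 1, by have := hp.pos; omega⟩
  have h1 : (((1 : ℕ) : ℤ) * (((q + 1 - 1) * v + 1 : ℕ) : ℤ) + (v : ℤ)) = ((q + 1 : ℕ) : ℤ) * v + 1 := by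
    rw [Nat.add_sub_cancel]
    push_cast
    ring
  rw [h1] at hd
  have h2 : ((q + 1 : ℕ) : ℤ) ∣ 1 := (Int.dvd_add_right (Dvd.intro _ rfl)).1 hd
  have h3 : (q + 1) ∣ 1 := by exact_mod_cast h2
  exact hp.one_lt.ne' (Nat.dvd_one.1 h3)

end SIM

open SIM

theorem sim : St_SIM := by
  classical
  intro hN hO k R h hR hh hhR
  rcases Nat.eq_zero_or_pos k with rfl | hk
  · exact ⟨1, le_refl 1, 1, one_pos, 1, one_pos, 0, fun X _ u _ _ i => i.elim0⟩
  have key := fun i : Fin k => hN k (fun _ => 1) (fun _ => le_refl 1) k (fun _ => 1)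
    (fun _ _ => 1) (fun _ => le_refl 1) (fun _ _ => le_refl 1) 1 R h (le_refl 1) hR hh hhR i
  choose t ht hT using key
  set t0 := max 1 (univ.sup t) with ht0
  have htle : ∀ i, t i ≤ t0 := fun i => le_max_of_le_right (le_sup (f := t) (mem_univ i))
  choose c hc ν hν X0 hX using fun i => hT i t0 (htle i)
  have : Nonempty (Fin k) := ⟨⟨0, hk⟩⟩
  obtain ⟨i1, hi1⟩ := Finite.exists_min c
  obtain ⟨i2, hi2⟩ := Finite.exists_min ν
  obtain ⟨i3, hi3⟩ := Finite.exists_max X0
  obtain ⟨C, hC, X1, hX1⟩ := hO.2 1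
  refine ⟨t0, le_max_left _ _, c i1, hc i1, min 1 (ν i2 / C),
    lt_min one_pos (div_pos (hν i2) hC), max (max (X0 i3) X1) (Real.exp 1), ?_⟩
  intro X hXX u hu hrho i H hH1 hH2
  set ν0 := min 1 (ν i2 / C) with hν0
  have hν0pos : 0 < ν0 := lt_min one_pos (div_pos (hν i2) hC)
  have hXi : X0 i ≤ X := (hi3 i).trans ((le_max_left _ _).trans ((le_max_left _ _).trans hXX))
  have hX1' : X1 ≤ X := (le_max_right _ _).trans ((le_max_left _ _).trans hXX)
  have hXe : Real.exp 1 ≤ X := (le_max_right _ _).trans hXX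
  have hXpos : 0 < X := (Real.exp_pos 1).trans_le hXe
  have hlog : 1 ≤ Real.log X := (Real.le_log_iff_exp_le hXpos).2 hXe
  have hX1le : 1 ≤ X := by
    have := Real.add_one_le_exp (1 : ℝ)
    linarith
  have hlogX : Real.log X ≤ X := by
    have := Real.log_le_sub_one_of_pos hXpos
    linarith
  have hdens := dens_nonneg u hrho X
  have hbe : ∀ l, |(((u l : ℕ) : ℤ) : ℝ)| ≤ ((1 : ℕ) : ℝ) * X := by
    intro l
    rw [Nat.cast_one, one_mul, Int.cast_natCast, abs_of_nonneg (Nat.cast_nonneg _)]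
    exact hu l
  have hmain := hX i X hXi (fun l => (u l : ℤ)) hbe (adm u hrho) (fun γ _ => (u γ : ℤ))
    (fun γ _ => hbe γ) (fun γ => adm1 (u γ)) (fun _ => ν0 * Real.log X) (by
      intro γ
      refine ⟨by positivity, ?_, ?_⟩
      · calc ν0 * Real.log X ≤ 1 * Real.log X :=
              mul_le_mul_of_nonneg_right (min_le_left _ _) (by linarith)
          _ ≤ X := by rw [one_mul]; exact hlogX
      · have h1 := hX1 X hX1' 1 (fun _ => 1) (fun _ => (u γ : ℤ)) (le_refl 1)
          (fun _ => ⟨le_refl 1, le_refl 1⟩)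
        calc ν0 * Real.log X * VN ⌊X⌋₊ (fun _ : Fin 1 => 1) (fun _ => (u γ : ℤ)) ≤
              ν0 * Real.log X * (C / Real.log X) :=
              mul_le_mul_of_nonneg_left h1 (by positivity)
          _ = ν0 * C := by
              field_simp
          _ ≤ (ν i2 / C) * C := mul_le_mul_of_nonneg_right (min_le_right _ _) hC.le
          _ = ν i2 := by field_simp
          _ ≤ ν i := hi2 i) (X ^ (1 / (t0 : ℝ))) (le_refl _) (by
      apply Real.rpow_le_rpow_of_exponent_le hX1le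
      have h1 : (0 : ℝ) < t i := by exact_mod_cast (ht i)
      apply one_div_le_one_div_of_le h1
      exact_mod_cast htle i) 0 H hH1 (by
      rw [Nat.cast_zero, zero_add]; exact hH2)
  rw [VN_eq] at hmain
  have h1 : c i1 * (H * densU u X) ≤ c i * (H * densU u X) :=
    mul_le_mul_of_nonneg_right (hi1 i) (mul_nonneg (Nat.cast_nonneg _) hdens)
  refine h1.trans (hmain.trans ?_)
  have hsub : PtsI (fun _ => 1) (fun l => (u l : ℤ)) i R (X ^ (h / 6)) (X ^ (1 / (t0 : ℝ)))
      (fun _ : Fin k => ν0 * Real.log X) (fun _ => 1) (fun _ _ => 1) (fun γ _ => (u γ : ℤ)) 0 H ⊆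
      Off u i R (X ^ (h / 6)) (X ^ (1 / (t0 : ℝ))) (ν0 * Real.log X) H := by
    intro n hn
    unfold PtsI at hn
    rw [mem_filter, mem_Ioc] at hn
    obtain ⟨⟨hn1, hn2⟩, hn3, hn4, hn5, hn6⟩ := hn
    have hfm : ∀ l, fm (fun _ => 1) (fun l => (u l : ℤ)) l n = ((u l + n : ℕ) : ℤ) := by
      intro l
      unfold fm
      push_cast
      ring
    unfold Off
    rw [mem_filter, mem_Icc]
    refine ⟨⟨hn1, by omega⟩, ?_, ?_, ?_, ?_⟩
    · rw [hfm, Int.natAbs_natCast] at hn3
      exact hn3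
    · intro p hp hd
      apply hn4 p hp
      rw [hfm]
      exact_mod_cast hd
    · intro l
      rw [← hfm l]
      exact hn5 l
    · intro l s hs hR'
      obtain ⟨l', _, hl'⟩ := hn6 l s hs (by
        intro _
        have e : (((1 : ℕ) : ℤ) * ((n : ℤ) + s) + (u l : ℤ)) = ((u l + n : ℕ) : ℤ) + s := by
          push_cast
          ring
        rw [e]
        exact hR') 0
      refine ⟨l', ?_⟩
      have h9 : ((1 : ℕ) : ℤ) * s + (u l : ℤ) = (u l' : ℤ) := hl'
      rw [← h9]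
      push_cast
      ring
  exact_mod_cast card_le_card hsub

end Pool.Agent.Q117.SI
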