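import Pool.Agent.Q117.SI.All1
import Pool.Agent.Q117.SI.Sim

/-!
Project SI (helper117): isolated almost primes with an almost prime member of few factors, in every short interval.
-/

set_option autoImplicit false

namespace Pool.Agent.Q117.SI

theorem simC : SIMc := sim nsiC Pool.Agent.Q117.LF.oms

end Pool.Agent.Q117.SI
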