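import Pool.Agent.Q117.SI.Stm

/-!
Project SI (helper117), part 2: the theorems for the rows.

Every `St_X` below is the statement of one job; the doc comment is its complete proof. The file of a job is `Pool/Agent/Q117/SI/<Name>.lean`, the theorem
has the name given in the comment (namespace `Pool.Agent.Q117.SI`).
-/

set_option autoImplicit false

namespace Pool.Agent.Q117.SI

open Finset Filter
open Pool.Agent.Q117.LF

/-- the number of the classes modulo `p` represented by the numbers `u l` -/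
noncomputable def rhoU {k : ℕ} (u : Fin k → ℕ) (p : ℕ) : ℕ := (univ.image (fun l => u l % p)).card

/-- the product of `1 - rhoU p / p` over the primes `p ≤ X` -/
noncomputable def densU {k : ℕ} (u : Fin k → ℕ) (X : ℝ) : ℝ := ∏ p ∈ (Icc 1 ⌊X⌋₊).filter Nat.Prime, (1 - (rhoU u p : ℝ) / p)

open Classical in
/-- the offsets `1 ≤ m ≤ H` for which all the `u l + m` are rough, `u i + m` is a product of at most `R` primes, all `≥ w`, and every rough number at distance `≤ L` from one of the `u l + m` is one of them -/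
noncomputable def Off {k : ℕ} (u : Fin k → ℕ) (i : Fin k) (R : ℕ) (w z L : ℝ) (H : ℕ) : Finset ℕ :=
  (Icc 1 H).filter (fun m : ℕ => (u i + m).primeFactorsList.length ≤ R ∧ (∀ p : ℕ, p.Prime → p ∣ u i + m → w ≤ p) ∧
    (∀ l, Ro z ((u l + m : ℕ) : ℤ)) ∧ ∀ l, ∀ s : ℤ, |(s : ℝ)| ≤ L → Ro z ((u l + m : ℕ) + s) → ∃ l', (u l' : ℤ) = u l + s)

/-- conclusion of SIM -/
def SIMc : Prop := ∀ (k R : ℕ) (h : ℝ), 1 ≤ R → h ≤ 1 → 25 < 3 * (8 * R - 1) * h → ∃ t : ℕ, 1 ≤ t ∧ ∃ c : ℝ, 0 < c ∧ ∃ ν : ℝ, 0 < ν ∧ ∃ X0 : ℝ, ∀ X : ℝ, X0 ≤ X →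
  ∀ u : Fin k → ℕ, (∀ l, (u l : ℝ) ≤ X) → (∀ p : ℕ, p.Prime → rhoU u p < p) → ∀ i : Fin k, ∀ H : ℕ, X ^ h ≤ H → (H : ℝ) ≤ X →
    c * (H * densU u X) ≤ ((Off u i R (X ^ (h / 6)) (X ^ (1 / (t : ℝ))) (ν * Real.log X) H).card : ℝ)

/-- **SIM** (theorem `sim : St_SIM`): the same offset in several short intervals.

Proof. If `k = 0` there is no `i`. For every `i : Fin k` apply `NSIc` with `r = k`, `A = fun _ => 1`, `g = k`, `s = fun _ => 1`, `A' = fun _ _ => 1`, `K = 1`, `R`, `h`, `i`: it gives `t i`; let `t` be the maximum of the `t i` (and `1`), and take `T = t` (`t i ≤ t`) there: `c i`, `ν i`, `X0 i`; take the minima and the maximum over `i` (`c i` may be replaced by a smaller constant; the hypothesis of `NSIc` asks `L γ * VN ≤ ν i`). `z = X ^ (1 / t)`.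
For given `u` put `be l = u l`, `be' γ x = u γ`, `L γ = ν log X`, `B = 0`, the same `H` (so `B + H ≤ X`). `AdmS`: `p ∣ n + u l` for some `l` iff `n` is the residue of `- u l`; there are `rhoU u p < p` of these residues. In the same way `om (fun _ => 1) be p = rhoU u p` for every prime `p`, so `VN ⌊X⌋₊ = densU u X`. The systems of the family have one form: `AdmS` is clear (`n = 1 - u γ` modulo `p`, as a natural number), and `VN ⌊X⌋₊ ≤ C / log X` by `St_OMS` (`a0 = 1`, `s = 1`): so with `ν ≤ ν i / C` for all `i`, `L γ * VN ≤ ν i`, and `L γ ≤ X` for `X` large.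
`PtsI` (a subset of `Ioc 0 H = Icc 1 H`) is contained in `Off`: `fm A be i m = m + u i`, `natAbs` of it is `u i + m`; last condition: `s` with `|s| ≤ L` and `u l + m + s` rough: this is the system `γ = l` at `d = s`: so there is `l'` with `s + u l = u l'`. -/
def St_SIM : Prop := NSIc → St_OMS → SIMc

/-- the number of the `k` modulo `p` with `p ∣ (N ^ 2 + k + 1) ((N + 1) ^ 2 - k)` -/
noncomputable def omS (N p : ℕ) : ℕ := ((range p).filter (fun k : ℕ => (p : ℤ) ∣ (N ^ 2 + k + 1) * ((N + 1) ^ 2 - k))).card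

/-- the product of `1 - omS N p / p` over the primes `p ≤ N` -/
noncomputable def densS (N : ℕ) : ℝ := ∏ p ∈ (Icc 1 N).filter Nat.Prime, (1 - (omS N p : ℝ) / p)

open Classical in
/-- the `2 ≤ k ≤ 2 N` for which `N ^ 2 + k + 1` is a product of at most three primes, all `≥ w`, `(N + 1) ^ 2 - k` is rough, there is no other rough number at distance `≤ L` from one of these two numbers, and no other integer `k'` at distance `≤ D` from `k` for which both numbers are rough -/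
noncomputable def Sym (N : ℕ) (w z L D : ℝ) : Finset ℕ :=
  (Icc 2 (2 * N)).filter (fun k : ℕ => (N ^ 2 + k + 1).primeFactorsList.length ≤ 3 ∧ (∀ p : ℕ, p.Prime → p ∣ N ^ 2 + k + 1 → w ≤ p) ∧ Ro z ((N + 1) ^ 2 - k) ∧
    (∀ s : ℤ, s ≠ 0 → |(s : ℝ)| ≤ L → ¬ Ro z (N ^ 2 + k + 1 + s) ∧ ¬ Ro z ((N + 1) ^ 2 - k + s)) ∧
    ∀ k' : ℤ, k' ≠ k → |(k' : ℝ) - k| ≤ D → ¬ (Ro z (N ^ 2 + k' + 1) ∧ Ro z ((N + 1) ^ 2 - k')))

/-- conclusion of SYM -/
def SYMc : Prop := ∃ t : ℕ, 1 ≤ t ∧ ∃ c : ℝ, 0 < c ∧ ∃ ν : ℝ, 0 < ν ∧ ∃ N0 : ℕ, ∀ N : ℕ, N0 ≤ N →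
    0 < densS N ∧ c * (N * densS N) ≤ ((Sym N ((N : ℝ) ^ (3 / 20 : ℝ)) ((N : ℝ) ^ (1 / (t : ℝ))) (ν * Real.log N) (ν / densS N)).card : ℝ)

/-- **SYM** (theorem `sym : St_SYM`): symmetric pairs between consecutive squares.

Proof. Apply `NSIc` with `r = 2`, `A = fun _ => 1`, `g = 3`, `s = ![2, 1, 1]` (if the dependent types are unpleasant apply `NSIc` to `s = fun _ => 2` with the three systems `(be 0, be 1)`, `(be 0, be 0)`, `(be 1, be 1)`; repetitions are allowed), `A' = fun _ _ => 1`, `K = 1`, `R = 3`, `h = 48 / 100` (`3 * 23 * 48 / 100 = 33.12 > 25`), `i = 0`: `t₁`; take `T = t₁`: `c₁`, `ν₁`, `X0`.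
For `N` let `X = 2 (N + 1) ^ 2`, `be = ![N ^ 2 + 1, - (N + 1) ^ 2]`: the forms `n + N ^ 2 + 1` and `n - (N + 1) ^ 2` (minus the second number), `|be| ≤ X`. `B = 1`, `H = 2 N - 1` (`X ^ h ≤ H` for `N` large since `2 h < 1`). `n` runs over `(1, 2 N] = [2, 2 N]`. `z = X ^ (1 / t₁)`; `Ro` with a larger parameter is stronger, but the isolation needs the same parameter everywhere: choose `t = t₁` and `z' = N ^ (1 / t)`: `X ^ (1/T) ≤ z' ≤ X ^ (1/t₁)` holds if `T = 3 t₁` (`X ≤ N ^ 3`) and `N ≤ X`. So use `z' = N ^ (1 / t₁)`, `T = 3 t₁`, `t = t₁`.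
`AdmS`: `p = 2`: `n ≡ N ^ 2` mod `2` makes both forms odd (the sum `N ^ 2 + 1 - (N + 1) ^ 2 = - 2 N` is even); `p ≥ 3`: at most two residues are excluded. `om = omS N p` for every prime (`p ∣ (n + N ^ 2 + 1) (n - (N + 1) ^ 2)`). `VN ⌊X⌋₊ be` and `densS N` differ by the primes `N < p ≤ X`: `densS N ≥ VN ⌊X⌋₊ be ≥ c₂ densS N` (each factor is at least `1 - 2 / p`, `≥ (1 - 1 / p) ^ 3` say for `p` large; Mertens, `V1_bounds`, `log X ≤ 3 log N`). `densS N > 0`: every factor is positive since `omS N p < p`.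
FAMILY: the pair with `L 0 = ν / densS N`: `L 0 * VN ≤ ν ≤ ν₁`, and `L 0 ≤ X` for `N` large (`densS N ≥ c / (log N) ^ 2`, for instance by `prod (1 - 2 / p)`; or `VZ_low`); the two single forms (twice) with `L = ν log N`: `VN ≤ C / log X ≤ C / log N` by `St_OMS` (`1 ≤ s`), choose `ν ≤ ν₁ / C`. `AdmS` for the members of the family: clear.
CONCLUSION for `n = k` in `PtsI`: the first form is `N ^ 2 + k + 1 > 0`, prime factors `≥ X ^ (h / 6) = X ^ (8 / 100) ≥ N ^ (16 / 100) ≥ N ^ (3 / 20)`. `Ro z' (k - (N + 1) ^ 2)` iff `Ro z' ((N + 1) ^ 2 - k)` (divisibility of the negative). For `s ≠ 0`, `|s| ≤ ν log N`: if `N ^ 2 + k + 1 + s` is rough then by the system of the first form at `d = s`: `s + N ^ 2 + 1 ∈ {N ^ 2 + 1, - (N + 1) ^ 2}`, impossible as `s ≠ 0` and `|s| < N ^ 2`; similarly `(N + 1) ^ 2 - k + s` is minus the second form at `d = - s`. For `k' ≠ k` use the pair at `d = k' - k`: `d + N ^ 2 + 1 ∈ {..}` is impossible,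 `|d| ≤ ν / densS N ≤ C (log N) ^ 2 < N ^ 2`. -/
def St_SYM : Prop := NSIc → St_OMS → SYMc

/-- the `n ∈ (B, B + H]` which are the first of `J + 1` numbers `m 0 < m 1 < ... < m J ≤ n + L` with prescribed types and residues, one number at a prescribed place having at most `R` prime factors, all `≥ w`, such that there are no other numbers of any type at distance `≤ L` from `n` -/
def StrI (q R : ℕ) (w z L : ℝ) {J g : ℕ} (S : Fin g → Finset ℕ) (τ : Fin (J + 1) → Fin g) (a : Fin (J + 1) → ℕ) (j₁ : Fin (J + 1)) (h₁ : ℕ) (B H : ℕ) : Set ℕ :=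
  {n : ℕ | n ∈ Ioc B (B + H) ∧ ∃ m : Fin (J + 1) → ℕ, m 0 = n ∧ StrictMono m ∧ (∀ j, (m j : ℝ) ≤ n + L) ∧ (∀ j, m j ≡ a j [MOD q]) ∧
    (∀ j, Ty z (S (τ j)) (m j)) ∧ (m j₁ + h₁).primeFactorsList.length ≤ R ∧ (∀ p : ℕ, p.Prime → p ∣ m j₁ + h₁ → w ≤ p) ∧
    ∀ γ, ∀ k : ℤ, |((k - n : ℤ) : ℝ)| ≤ L → Ty z (S γ) k → ∃ j, k = m j ∧ γ = τ j}

/-- conclusion of STI -/
def STIc : Prop := ∀ (J g q κ R : ℕ) (h : ℝ) (S : Fin g → Finset ℕ), 1 ≤ q → 1 ≤ κ → 1 ≤ R → h ≤ 1 → 25 < 3 * (8 * R - 1) * h → (∀ γ, (S γ).card = κ ∧ 0 ∈ S γ) → Function.Injective S →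
  ∀ (τ : Fin (J + 1) → Fin g) (a : Fin (J + 1) → ℕ), (∀ j, ∀ p : ℕ, p.Prime → ∃ r : ℕ, ∀ h ∈ S (τ j), ¬ p ∣ r + h) → (∀ j, ∀ h ∈ S (τ j), (a j + h).Coprime q) →
  ∀ (j₁ : Fin (J + 1)) (h₁ : ℕ), h₁ ∈ S (τ j₁) →
    ∃ t : ℕ, 1 ≤ t ∧ ∃ c : ℝ, 0 < c ∧ ∃ ν : ℝ, 0 < ν ∧ ∃ X0 : ℝ, ∀ X : ℝ, X0 ≤ X → ∀ B H : ℕ, X ^ h ≤ H → (B : ℝ) + H ≤ X →
      c * (H / Real.log X ^ κ) ≤ ((StrI q R (X ^ (h / 7)) (X ^ (1 / (t : ℝ))) (ν * Real.log X ^ κ) S τ a j₁ h₁ B H).ncard : ℝ)

/-- **STI** (theorem `sti : St_STI`): every string of types and residues has a positive proportion in every short interval.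

Proof. Copy the proof of `stc` (`LF/Stc.lean`, statement and complete proof in `LF/Stm6.lean`) with these changes: `NSIc` in place of `NSCc`, with `K = 2`, `R`, `h' < h` such that `25 < 3 (8 R - 1) h'` and `h' / 6 ≥ h / 7`, `i` = the index of `(j₁, h₁)` (there is no second place). It is applied at the scale `X` itself (not `X / M`), to the forms `M x + (b 0 + D j + h)`, to the window `B' = B / M + 1`, `H' = H / M - 3` (natural numbers, `X ^ h' ≤ H'` for `X` large, `B' + H' ≤ X`; for `x ∈ (B', B' + H']`: `n = M x + b 0 ∈ (B, B + H]`), with `L' = L / M + 1` for all members of the family, `VUP` at `⌊X⌋₊`, and `z = X ^ (1 / t)`, `T = t`.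
Sizes: the intercepts are `≤ M + ν (log X) ^ κ + Dm ≤ 2 X`. The lower bound for the sieve product is the same. For the place `(j₁, h₁)`: the form is `m j₁ + h₁ > 0`, its prime factors are `≥ X ^ (h' / 6) ≥ X ^ (h / 7)`. The rest (no other numbers, disjointness for different vectors, the sum over the vectors) does not change; the final bound is `u ^ J c₃ H' / (log X) ^ (κ (J + 1)) ≥ c H / (log X) ^ κ`. -/
def St_STI : Prop := NSIc → St_VUP → STIc

end Pool.Agent.Q117.SI
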