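import Pool.Agent.Q117.SI.Stm2
import Pool.Agent.Q117.SI.Ubi

/-!
Project SI (helper117), job SYM: symmetric pairs between consecutive squares.
-/

set_option autoImplicit false

namespace Pool.Agent.Q117.SI

open Finset Filter
open Pool.Agent.Q117.LF
open Pool.Agent.Q253.Thin (SysZ VZ_low)
open Pool.Agent.Y843.HS (Pr VV Pr_mem)

namespace SYM

/-- the intercepts -/
def be (N : ℕ) : Fin 2 → ℤ := ![(N : ℤ) ^ 2 + 1, -((N : ℤ) + 1) ^ 2]

/-- the slopes -/
def A1 (k : ℕ) : Fin k → ℕ := fun _ => 1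

lemma be0 (N : ℕ) : be N 0 = (N : ℤ) ^ 2 + 1 := rfl
lemma be1 (N : ℕ) : be N 1 = -((N : ℤ) + 1) ^ 2 := rfl

lemma fm0 (N n : ℕ) : fm (A1 2) (be N) 0 n = (n : ℤ) + N ^ 2 + 1 := by
  unfold fm A1
  rw [be0]
  push_cast
  ring

lemma fm1 (N n : ℕ) : fm (A1 2) (be N) 1 n = (n : ℤ) - (N + 1) ^ 2 := by
  unfold fm A1
  rw [be1]
  push_cast
  ring

lemma not_dvd_two {p : ℕ} (hp : p.Prime) (hp2 : p ≠ 2) {d : ℤ} (hd : d = 1 ∨ d = 2) : ¬ (p : ℤ) ∣ d := by
  have h2 := hp.two_le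
  rcases hd with rfl | rfl
  · intro h
    have := Int.le_of_dvd (by norm_num) h
    omega
  · intro h
    have := Int.le_of_dvd (by norm_num) h
    omega

lemma adm (N : ℕ) : AdmS (A1 2) (be N) := by
  intro p hp
  by_cases h2 : p = 2
  · subst h2
    refine ⟨N, ?_⟩
    rw [Fin.forall_fin_two, fm0, fm1]
    have h3 : (2 : ℤ) ∣ (N : ℤ) * (N + 1) := even_iff_two_dvd.1 (Int.even_mul_succ_self _)
    constructor
    · intro h
      have h' : (2 : ℤ) ∣ (N : ℤ) + N ^ 2 + 1 := by exact_mod_cast h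
      have h4 : (2 : ℤ) ∣ ((N : ℤ) + N ^ 2 + 1) - (N : ℤ) * (N + 1) := dvd_sub h' h3
      have h5 : ((N : ℤ) + N ^ 2 + 1) - (N : ℤ) * (N + 1) = 1 := by ring
      rw [h5] at h4
      norm_num at h4
    · intro h
      have h' : (2 : ℤ) ∣ (N : ℤ) - (N + 1) ^ 2 := by exact_mod_cast h
      have h4 : (2 : ℤ) ∣ ((N : ℤ) - (N + 1) ^ 2) + (N : ℤ) * (N + 1) := dvd_add h' h3
      have h5 : ((N : ℤ) - (N + 1) ^ 2) + (N : ℤ) * (N + 1) = -1 := by ring
      rw [h5] at h4
      norm_num at h4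
  · by_contra hcon
    push Not at hcon
    have key : ∀ n : ℕ, (p : ℤ) ∣ (n : ℤ) + N ^ 2 + 1 ∨ (p : ℤ) ∣ (n : ℤ) - (N + 1) ^ 2 := by
      intro n
      obtain ⟨l, hl⟩ := hcon n
      fin_cases l
      · left
        have := fm0 N n
        simp only [Fin.zero_eta] at hl
        rwa [this] at hl
      · right
        have := fm1 N n
        simp only [Fin.mk_one] at hl
        rwa [this] at hl
    have n1 := not_dvd_two hp h2 (Or.inl rfl)
    have n2 := not_dvd_two hp h2 (Or.inr rfl)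
    have k0 := key 0
    have k1 := key 1
    have k2 := key 2
    have dd : ∀ (a b c : ℤ), (p : ℤ) ∣ a → (p : ℤ) ∣ b → b - a = c → (p : ℤ) ∣ c := by
      intro a b c ha hb hc
      rw [← hc]
      exact dvd_sub hb ha
    rcases k0 with k0 | k0 <;> rcases k1 with k1 | k1 <;> rcases k2 with k2 | k2
    · exact n1 (dd _ _ _ k0 k1 (by push_cast; ring))
    · exact n1 (dd _ _ _ k0 k1 (by push_cast; ring))
    · exact n2 (dd _ _ _ k0 k2 (by push_cast; ring))
    · exact n1 (dd _ _ _ k1 k2 (by push_cast; ring))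
    · exact n1 (dd _ _ _ k1 k2 (by push_cast; ring))
    · exact n2 (dd _ _ _ k0 k2 (by push_cast; ring))
    · exact n1 (dd _ _ _ k0 k1 (by push_cast; ring))
    · exact n1 (dd _ _ _ k0 k1 (by push_cast; ring))

lemma om_eq (N : ℕ) {p : ℕ} (hp : p.Prime) : om (A1 2) (be N) p = omS N p := by
  unfold om omS
  congr 1
  refine filter_congr ?_
  intro n _
  have hpi : Prime (p : ℤ) := Nat.prime_iff_prime_int.1 hp
  rw [hpi.dvd_mul]
  constructor
  · rintro ⟨l, hl⟩
    revert hl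
    fin_cases l
    · intro hl
      left
      have := fm0 N n
      simp only [Fin.zero_eta] at hl
      rw [this] at hl
      have e : (N : ℤ) ^ 2 + n + 1 = (n : ℤ) + N ^ 2 + 1 := by ring
      rwa [e]
    · intro hl
      right
      have := fm1 N n
      simp only [Fin.mk_one] at hl
      rw [this] at hl
      have e : ((N : ℤ) + 1) ^ 2 - n = -((n : ℤ) - (N + 1) ^ 2) := by ring
      rw [e]
      exact (dvd_neg).2 hl
  · rintro (h | h)
    · refine ⟨0, ?_⟩
      rw [fm0]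
      have e : (n : ℤ) + N ^ 2 + 1 = (N : ℤ) ^ 2 + n + 1 := by ring
      rwa [e]
    · refine ⟨1, ?_⟩
      rw [fm1]
      have e : (n : ℤ) - (N + 1) ^ 2 = -(((N : ℤ) + 1) ^ 2 - n) := by ring
      rw [e]
      exact (dvd_neg).2 h

lemma om_lt {k : ℕ} {A : Fin k → ℕ} {b : Fin k → ℤ} (hadm : AdmS A b) {p : ℕ} (hp : p.Prime) :
    om A b p < p := by
  obtain ⟨n, hn⟩ := hadm p hp
  have h1 : ubsZ A b p ⊂ range p := by
    refine (ssubset_iff_of_subset (filter_subset _ _)).2 ⟨n % p, mem_range.2 (Nat.mod_lt _ hp.pos), ?_⟩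
    intro h
    obtain ⟨l, hl⟩ := (mem_filter.1 h).2
    exact hn l ((ubs_dvd_mod A b l p n).1 hl)
  have h2 := card_lt_card h1
  rwa [ubsZ_card, card_range] at h2

lemma VN_eq (N y : ℕ) : VN y (A1 2) (be N) = ∏ p ∈ (Icc 1 y).filter Nat.Prime, (1 - (omS N p : ℝ) / p) := by
  unfold VN
  refine prod_congr rfl ?_
  intro p hp
  rw [om_eq N (mem_filter.1 hp).2]

lemma fac_pos (N : ℕ) {p : ℕ} (hp : p.Prime) : 0 < 1 - (omS N p : ℝ) / p ∧ 1 - (omS N p : ℝ) / p ≤ 1 := by
  have hp0 : (0 : ℝ) < p := by exact_mod_cast hp.pos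
  have h1 : omS N p < p := by
    rw [← om_eq N hp]
    exact om_lt (adm N) hp
  have h2 : (omS N p : ℝ) < p := by exact_mod_cast h1
  constructor
  · rw [sub_pos, div_lt_one hp0]
    exact h2
  · have : 0 ≤ (omS N p : ℝ) / p := by positivity
    linarith

lemma dens_pos (N : ℕ) : 0 < densS N := prod_pos fun p hp => (fac_pos N (mem_filter.1 hp).2).1

lemma VN_le (N y : ℕ) (h : N ≤ y) : VN y (A1 2) (be N) ≤ densS N := by
  rw [VN_eq]
  unfold densS
  have hsub : (Icc 1 N).filter Nat.Prime ⊆ (Icc 1 y).filter Nat.Prime := by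
    intro p hp
    rw [mem_filter, mem_Icc] at hp ⊢
    exact ⟨⟨hp.1.1, hp.1.2.trans h⟩, hp.2⟩
  rw [← prod_sdiff hsub]
  have h1 : ∏ p ∈ (Icc 1 y).filter Nat.Prime \ (Icc 1 N).filter Nat.Prime, (1 - (omS N p : ℝ) / p) ≤ 1 := by
    refine Finset.prod_le_one (fun p hp => ?_) fun p hp => ?_
    · exact (fac_pos N (mem_filter.1 (mem_sdiff.1 hp).1).2).1.le
    · exact (fac_pos N (mem_filter.1 (mem_sdiff.1 hp).1).2).2
  have h2 : 0 ≤ ∏ p ∈ (Icc 1 N).filter Nat.Prime, (1 - (omS N p : ℝ) / p) := (dens_pos N).le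
  exact mul_le_of_le_one_left h2 h1

lemma VV_eq (N : ℕ) : VV (ubsZ (A1 2) (be N)) 0 N = densS N := by
  unfold VV densS
  have : Pr 0 N = (Icc 1 N).filter Nat.Prime := by
    ext p
    rw [Pr_mem, mem_filter, mem_Icc]
    constructor
    · rintro ⟨⟨h3, h4⟩, h5⟩
      exact ⟨⟨h3, h4⟩, h5⟩
    · rintro ⟨⟨h3, h4⟩, h5⟩
      exact ⟨⟨h3, h4⟩, h5⟩
  rw [this]
  refine prod_congr rfl ?_
  intro p hp
  rw [ubsZ_card, om_eq N (mem_filter.1 hp).2]

lemma sysZ (N : ℕ) : SysZ 2 (ubsZ (A1 2) (be N)) := by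
  refine ⟨fun p hp => ?_, fun p hp => ?_, fun p hp c hc => ?_⟩
  · exact ubsZ_le (a0 := 1) _ _ (fun _ => ⟨le_refl 1, le_refl 1⟩) hp hp.one_lt
  · rw [ubsZ_card]
    exact om_lt (adm N) hp
  · exact mem_range.1 (mem_filter.1 hc).1

lemma ro_neg {z : ℝ} {m : ℤ} : Ro z (-m) ↔ Ro z m := by
  unfold Ro
  simp only [dvd_neg]

lemma ro_mono {z z' : ℝ} (h : z' ≤ z) {m : ℤ} (hm : Ro z m) : Ro z' m :=
  fun p hp hd => lt_of_le_of_lt h (hm p hp hd)

/-- the systems of the family -/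
def bb (N : ℕ) : Fin 3 → Fin 2 → ℤ := ![be N, fun _ => be N 0, fun _ => be N 1]

lemma bb_cases (N : ℕ) (γ : Fin 3) (x : Fin 2) : bb N γ x = be N 0 ∨ bb N γ x = be N 1 := by
  fin_cases γ
  · fin_cases x
    · exact Or.inl rfl
    · exact Or.inr rfl
  · exact Or.inl rfl
  · exact Or.inr rfl

lemma bb_adm (N : ℕ) (γ : Fin 3) : AdmS (A1 2) (bb N γ) := by
  intro p hp
  obtain ⟨n, hn⟩ := adm N p hp
  refine ⟨n, fun l => ?_⟩
  rcases bb_cases N γ l with h | h
  · have := hn 0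
    unfold fm at this ⊢
    rw [h]
    exact this
  · have := hn 1
    unfold fm at this ⊢
    rw [h]
    exact this

lemma large (ν cV X0 X1 : ℝ) (hν : 0 < ν) (hcV : 0 < cV) : ∃ N0 : ℕ, ∀ N : ℕ, N0 ≤ N →
    8 ≤ (N : ℝ) ^ (1 / 12 : ℝ) ∧ X0 ≤ N ∧ X1 ≤ N ∧ ν * Real.log N ≤ N ∧
      ν / cV * Real.log N ^ 2 ≤ N ∧ 10 ≤ N := by
  have h1 : ∀ᶠ N : ℕ in atTop, 8 ≤ (N : ℝ) ^ (1 / 12 : ℝ) :=
    ((tendsto_rpow_atTop (by norm_num)).comp tendsto_natCast_atTop_atTop).eventually_ge_atTop 8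
  have h2 : ∀ᶠ N : ℕ in atTop, X0 ≤ N := tendsto_natCast_atTop_atTop.eventually_ge_atTop X0
  have h3 : ∀ᶠ N : ℕ in atTop, X1 ≤ N := tendsto_natCast_atTop_atTop.eventually_ge_atTop X1
  have h4 : ∀ (M : ℝ) (k : ℕ), 0 < M → ∀ᶠ N : ℕ in atTop, M * Real.log N ^ k ≤ N := by
    intro M k hM
    have h5 := (Real.isLittleO_pow_log_id_atTop (n := k)).def (c := 1 / M) (by positivity)
    have h6 := tendsto_natCast_atTop_atTop (R := ℝ) |>.eventually h5
    filter_upwards [h6, eventually_ge_atTop 1] with N hN hN1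
    have h7 : (0 : ℝ) ≤ Real.log N := Real.log_nonneg (by exact_mod_cast hN1)
    rw [Real.norm_of_nonneg (pow_nonneg h7 k), id, Real.norm_of_nonneg (by positivity)] at hN
    calc M * Real.log N ^ k ≤ M * (1 / M * N) := mul_le_mul_of_nonneg_left hN hM.le
      _ = N := by field_simp
  have h8 := h4 ν 1 hν
  have h9 := h4 (ν / cV) 2 (by positivity)
  have h10 : ∀ᶠ N : ℕ in atTop, 10 ≤ N := eventually_ge_atTop 10
  obtain ⟨N0, hN0⟩ := eventually_atTop.1 (h1.and (h2.and (h3.and (h8.and (h9.and h10)))))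
  refine ⟨N0, fun N hN => ?_⟩
  obtain ⟨a, b, c, d, e, f⟩ := hN0 N hN
  rw [pow_one] at d
  exact ⟨a, b, c, d, e, f⟩

end SYM

open SYM in
theorem sym : St_SYM := by
  classical
  intro hNSI hOMS
  obtain ⟨t₁, ht₁, hT⟩ := hNSI 2 (A1 2) (fun _ => le_refl 1) 3 (fun _ => 2) (fun _ => A1 2)
    (fun _ => by norm_num) (fun _ _ => le_refl 1) 1 3 (48 / 100) le_rfl (by norm_num) (by norm_num)
    (by norm_num) 0
  obtain ⟨c₁, hc₁, ν₁, hν₁, X0, hX⟩ := hT (3 * t₁) (by omega)
  obtain ⟨C, hC, X1, hOM⟩ := hOMS.2 1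
  obtain ⟨C', hC', hsc⟩ := UBI.scales 2 1 (1 / 3) (by norm_num)
  obtain ⟨cV, hcV, hVZ⟩ := VZ_low 2 (by norm_num)
  obtain ⟨ν, hνd⟩ : ∃ ν : ℝ, ν = min ν₁ (ν₁ / C) := ⟨_, rfl⟩
  have hν : 0 < ν := by
    rw [hνd]
    exact lt_min hν₁ (by positivity)
  have hνν₁ : ν ≤ ν₁ := by
    rw [hνd]
    exact min_le_left _ _
  have hνC : ν * C ≤ ν₁ := by
    have : ν ≤ ν₁ / C := by
      rw [hνd]
      exact min_le_right _ _
    rwa [le_div_iff₀ hC] at this
  obtain ⟨N0, hN0⟩ := large ν cV X0 X1 hν hcV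
  refine ⟨t₁, ht₁, c₁ / C', by positivity, ν, hν, N0, ?_⟩
  intro N hN
  obtain ⟨e1, e2, e3, e4, e5, e6⟩ := hN0 N hN
  have hNr : (10 : ℝ) ≤ N := by exact_mod_cast e6
  have hN0' : (0 : ℝ) < N := by linarith
  refine ⟨dens_pos N, ?_⟩
  have hD := dens_pos N
  obtain ⟨XN, hXN⟩ : ∃ XN : ℕ, XN = 2 * (N + 1) ^ 2 := ⟨_, rfl⟩
  have hXr : (XN : ℝ) = 2 * ((N : ℝ) + 1) ^ 2 := by
    rw [hXN]
    push_cast
    ring
  have hXN8 : (XN : ℝ) ≤ 8 * (N : ℝ) ^ 2 := by
    rw [hXr]
    nlinarith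
  have hXN3 : (XN : ℝ) ≤ (N : ℝ) ^ 3 := by
    rw [hXr]
    nlinarith [mul_self_nonneg ((N : ℝ) - 10), mul_nonneg (by linarith : (0:ℝ) ≤ N - 10) (mul_self_nonneg (N : ℝ))]
  have hNX : (N : ℝ) ≤ XN := by
    rw [hXr]
    nlinarith
  have hN2X : (N : ℝ) ^ 2 ≤ XN := by
    rw [hXr]
    nlinarith
  have hNXn : N ≤ XN := by exact_mod_cast hNX
  have hX0' : (0 : ℝ) < XN := by linarith
  have hlN : 0 < Real.log N := Real.log_pos (by linarith)
  have hlX : Real.log N ≤ Real.log XN := Real.log_le_log hN0' hNX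
  have hlX0 : 0 < Real.log XN := by linarith
  have hlX3 : Real.log XN ≤ 3 * Real.log N := by
    have h1 := Real.log_le_log hX0' hXN3
    rwa [Real.log_pow] at h1
  have hfl : ⌊(XN : ℝ)⌋₊ = XN := Nat.floor_natCast _
  have ht0 : (0 : ℝ) < t₁ := by exact_mod_cast ht₁
  -- the sieve product at the two scales
  have hVNle : VN XN (A1 2) (be N) ≤ densS N := VN_le N XN hNXn
  have hVNge : densS N ≤ C' * VN XN (A1 2) (be N) := by
    have h1 := hsc XN N (A1 2) (be N) (fun _ => ⟨le_refl 1, le_refl 1⟩)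
      (fun p hp => om_lt (adm N) hp) (by omega) hNXn (by omega) (by omega) (by linarith)
    rwa [VV_eq] at h1
  have hDlow : cV / Real.log N ^ 2 ≤ densS N := by
    have h1 := hVZ N (by omega) _ (sysZ N)
    rwa [VV_eq] at h1
  have hL0 : ν / densS N ≤ N := by
    have h1 : ν / densS N ≤ ν / (cV / Real.log N ^ 2) :=
      div_le_div_of_nonneg_left hν.le (by positivity) hDlow
    have h2 : ν / (cV / Real.log N ^ 2) = ν / cV * Real.log N ^ 2 := by
      field_simp
    linarith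
  -- the family
  obtain ⟨L, hLdef⟩ : ∃ L : Fin 3 → ℝ, L = ![ν / densS N, ν * Real.log N, ν * Real.log N] := ⟨_, rfl⟩
  have hL0' : L 0 = ν / densS N := by rw [hLdef]; rfl
  have hL1' : L 1 = ν * Real.log N := by rw [hLdef]; rfl
  have hL2' : L 2 = ν * Real.log N := by rw [hLdef]; rfl
  have hbe0 : |((be N 0 : ℤ) : ℝ)| ≤ XN := by
    rw [be0, hXr]
    push_cast
    rw [abs_of_nonneg (by positivity)]
    nlinarith
  have hbe1 : |((be N 1 : ℤ) : ℝ)| ≤ XN := by
    rw [be1, hXr]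
    push_cast
    rw [abs_neg, abs_of_nonneg (by positivity)]
    nlinarith [sq_nonneg ((N : ℝ) + 1)]
  have hOM' : ∀ b : Fin 2 → ℤ, ν * Real.log N * VN XN (A1 2) b ≤ ν₁ := by
    intro b
    have h1 := hOM XN (by linarith) 2 (A1 2) b (by norm_num) (fun _ => ⟨le_refl 1, le_refl 1⟩)
    rw [hfl] at h1
    calc ν * Real.log N * VN XN (A1 2) b ≤ ν * Real.log N * (C / Real.log XN) :=
          mul_le_mul_of_nonneg_left h1 (by positivity)
      _ = ν * C * (Real.log N / Real.log XN) := by ring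
      _ ≤ ν * C * 1 := by
          refine mul_le_mul_of_nonneg_left ?_ (by positivity)
          rw [div_le_one hlX0]
          exact hlX
      _ ≤ ν₁ := by linarith
  have hLL : ∀ γ, 0 ≤ L γ ∧ L γ ≤ XN ∧ L γ * VN ⌊(XN : ℝ)⌋₊ (A1 2) (bb N γ) ≤ ν₁ := by
    intro γ
    rw [hfl]
    fin_cases γ
    · simp only [Fin.zero_eta]
      rw [hL0']
      refine ⟨by positivity, by linarith, ?_⟩
      calc ν / densS N * VN XN (A1 2) (bb N 0) ≤ ν / densS N * densS N :=
            mul_le_mul_of_nonneg_left hVNle (by positivity)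
        _ = ν := by field_simp
        _ ≤ ν₁ := hνν₁
    · simp only [Fin.mk_one]
      rw [hL1']
      exact ⟨by positivity, by linarith, hOM' _⟩
    · simp only [Fin.reduceFinMk]
      rw [hL2']
      exact ⟨by positivity, by linarith, hOM' _⟩
  have hz1 : (XN : ℝ) ^ (1 / ((3 * t₁ : ℕ) : ℝ)) ≤ (N : ℝ) ^ (1 / (t₁ : ℝ)) := by
    calc (XN : ℝ) ^ (1 / ((3 * t₁ : ℕ) : ℝ)) ≤ ((N : ℝ) ^ 3) ^ (1 / ((3 * t₁ : ℕ) : ℝ)) :=
          Real.rpow_le_rpow hX0'.le hXN3 (by positivity)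
      _ = (N : ℝ) ^ (1 / (t₁ : ℝ)) := by
          rw [← Real.rpow_natCast, ← Real.rpow_mul hN0'.le]
          congr 1
          push_cast
          field_simp
  have hz2 : (N : ℝ) ^ (1 / (t₁ : ℝ)) ≤ (XN : ℝ) ^ (1 / (t₁ : ℝ)) :=
    Real.rpow_le_rpow hN0'.le hNX (by positivity)
  have hHr : ((2 * N - 1 : ℕ) : ℝ) = 2 * (N : ℝ) - 1 := by
    rw [Nat.cast_sub (by omega)]
    push_cast
    ring
  have hH : (XN : ℝ) ^ (48 / 100 : ℝ) ≤ ((2 * N - 1 : ℕ) : ℝ) := by
    have h1 : (XN : ℝ) ≤ (N : ℝ) ^ (25 / 12 : ℝ) := by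
      have h2 : (N : ℝ) ^ (25 / 12 : ℝ) = (N : ℝ) ^ (1 / 12 : ℝ) * (N : ℝ) ^ 2 := by
        rw [← Real.rpow_natCast (N : ℝ) 2, ← Real.rpow_add hN0']
        norm_num
      rw [h2]
      nlinarith [mul_le_mul_of_nonneg_right e1 (sq_nonneg (N : ℝ))]
    have h3 : (XN : ℝ) ^ (48 / 100 : ℝ) ≤ N := by
      calc (XN : ℝ) ^ (48 / 100 : ℝ) ≤ ((N : ℝ) ^ (25 / 12 : ℝ)) ^ (48 / 100 : ℝ) :=
            Real.rpow_le_rpow hX0'.le h1 (by norm_num)
        _ = N := by
            rw [← Real.rpow_mul hN0'.le]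
            norm_num
    rw [hHr]
    linarith
  have hcount := hX (XN : ℝ) (by linarith) (be N) (by
      intro l
      rw [Nat.cast_one, one_mul]
      fin_cases l
      · exact hbe0
      · exact hbe1) (adm N) (bb N) (by
      intro γ x
      rw [Nat.cast_one, one_mul]
      rcases bb_cases N γ x with h | h <;> rw [h]
      · exact hbe0
      · exact hbe1) (bb_adm N) L hLL ((N : ℝ) ^ (1 / (t₁ : ℝ))) hz1 hz2 1 (2 * N - 1) hH (by
      rw [hHr, hXr]
      push_cast
      nlinarith)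
  rw [hfl] at hcount
  have hsub : PtsI (A1 2) (be N) 0 3 ((XN : ℝ) ^ ((48 / 100 : ℝ) / 6)) ((N : ℝ) ^ (1 / (t₁ : ℝ))) L (fun _ => 2)
      (fun _ => A1 2) (bb N) 1 (2 * N - 1) ⊆
      Sym N ((N : ℝ) ^ (3 / 20 : ℝ)) ((N : ℝ) ^ (1 / (t₁ : ℝ))) (ν * Real.log N) (ν / densS N) := by
    obtain ⟨z, hz⟩ : ∃ z : ℝ, z = (N : ℝ) ^ (1 / (t₁ : ℝ)) := ⟨_, rfl⟩
    rw [← hz]
    intro n hn
    unfold PtsI at hn
    unfold Sym
    rw [mem_filter, mem_Ioc] at hn
    obtain ⟨hn1, hn2, hn3, hn4, hn5⟩ := hn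
    rw [mem_filter, mem_Icc]
    have hf0 : fm (A1 2) (be N) 0 n = ((N ^ 2 + n + 1 : ℕ) : ℤ) := by
      rw [fm0]
      push_cast
      ring
    have hf1 : fm (A1 2) (be N) 1 n = -(((N : ℤ) + 1) ^ 2 - n) := by
      rw [fm1]
      ring
    have habs : ∀ s : ℤ, |(s : ℝ)| ≤ N → |s| ≤ N := by
      intro s hs
      have h1 : ((|s| : ℤ) : ℝ) ≤ ((N : ℤ) : ℝ) := by
        push_cast
        exact hs
      exact_mod_cast h1
    have hNz : (10 : ℤ) ≤ N := by exact_mod_cast e6
    refine ⟨⟨by omega, by omega⟩, ?_, ?_, ?_, ?_, ?_⟩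
    · rw [hf0, Int.natAbs_natCast] at hn2
      exact hn2
    · intro p hp hpd
      have h1 := hn3 p hp (by
        rw [hf0]
        exact_mod_cast hpd)
      refine le_trans ?_ h1
      calc (N : ℝ) ^ (3 / 20 : ℝ) ≤ (N : ℝ) ^ (4 / 25 : ℝ) :=
            Real.rpow_le_rpow_of_exponent_le (by linarith) (by norm_num)
        _ = ((N : ℝ) ^ 2) ^ ((48 / 100 : ℝ) / 6) := by
            rw [← Real.rpow_natCast, ← Real.rpow_mul hN0'.le]
            norm_num
        _ ≤ _ := Real.rpow_le_rpow (by positivity) hN2X (by norm_num)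
    · have h1 := hn4 1
      rw [hf1, ro_neg] at h1
      exact h1
    · intro s hs0 hsL
      have hsN : |s| ≤ N := habs s (by linarith)
      have hsN' := abs_le.1 hsN
      constructor
      · intro hr
        have h1 := hn5 1 s (by rw [hL1']; exact hsL) (by
          intro x
          have h2 : ((A1 2 x : ℕ) : ℤ) * ((n : ℤ) + s) + bb N 1 x = (N : ℤ) ^ 2 + n + 1 + s := by
            have h3 : bb N 1 x = be N 0 := rfl
            rw [h3, be0]
            unfold A1
            push_cast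
            ring
          rw [h2]
          exact hr) 0
        obtain ⟨l, -, hl⟩ := h1
        have h3 : bb N 1 0 = be N 0 := rfl
        rw [h3] at hl
        revert hl
        fin_cases l
        · intro hl
          simp only [Fin.zero_eta] at hl
          rw [be0] at hl
          unfold A1 at hl
          push_cast at hl
          apply hs0
          linarith
        · intro hl
          simp only [Fin.mk_one] at hl
          rw [be0, be1] at hl
          unfold A1 at hl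
          push_cast at hl
          nlinarith
      · intro hr
        have h1 := hn5 2 (-s) (by
          rw [hL2']
          push_cast
          rw [abs_neg]
          exact hsL) (by
          intro x
          have h2 : ((A1 2 x : ℕ) : ℤ) * ((n : ℤ) + -s) + bb N 2 x = -(((N : ℤ) + 1) ^ 2 - n + s) := by
            have h3 : bb N 2 x = be N 1 := rfl
            rw [h3, be1]
            unfold A1
            push_cast
            ring
          rw [h2, ro_neg]
          exact hr) 0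
        obtain ⟨l, -, hl⟩ := h1
        have h3 : bb N 2 0 = be N 1 := rfl
        rw [h3] at hl
        revert hl
        fin_cases l
        · intro hl
          simp only [Fin.zero_eta] at hl
          rw [be0, be1] at hl
          unfold A1 at hl
          push_cast at hl
          nlinarith
        · intro hl
          simp only [Fin.mk_one] at hl
          rw [be1] at hl
          unfold A1 at hl
          push_cast at hl
          apply hs0
          linarith
    · intro k' hk' hkD hr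
      have hdN : |k' - n| ≤ N := habs (k' - n) (by
        push_cast
        linarith)
      have hdN' := abs_le.1 hdN
      have h1 := hn5 0 (k' - n) (by
        rw [hL0']
        push_cast
        exact hkD) (by
        intro x
        fin_cases x
        · have h2 : ((A1 2 0 : ℕ) : ℤ) * ((n : ℤ) + (k' - n)) + bb N 0 0 = (N : ℤ) ^ 2 + k' + 1 := by
            have h3 : bb N 0 0 = be N 0 := rfl
            rw [h3, be0]
            unfold A1
            push_cast
            ring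
          simp only [Fin.zero_eta]
          rw [h2]
          exact hr.1
        · have h2 : ((A1 2 1 : ℕ) : ℤ) * ((n : ℤ) + (k' - n)) + bb N 0 1 = -(((N : ℤ) + 1) ^ 2 - k') := by
            have h3 : bb N 0 1 = be N 1 := rfl
            rw [h3, be1]
            unfold A1
            push_cast
            ring
          simp only [Fin.mk_one]
          rw [h2, ro_neg]
          exact hr.2) 0
      obtain ⟨l, -, hl⟩ := h1
      have h3 : bb N 0 0 = be N 0 := rfl
      rw [h3] at hl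
      revert hl
      fin_cases l
      · intro hl
        simp only [Fin.zero_eta] at hl
        rw [be0] at hl
        unfold A1 at hl
        push_cast at hl
        apply hk'
        linarith
      · intro hl
        simp only [Fin.mk_one] at hl
        rw [be0, be1] at hl
        unfold A1 at hl
        push_cast at hl
        nlinarith
  have hcard : ((PtsI (A1 2) (be N) 0 3 ((XN : ℝ) ^ ((48 / 100 : ℝ) / 6)) ((N : ℝ) ^ (1 / (t₁ : ℝ))) L (fun _ => 2)
      (fun _ => A1 2) (bb N) 1 (2 * N - 1)).card : ℝ) ≤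
      ((Sym N ((N : ℝ) ^ (3 / 20 : ℝ)) ((N : ℝ) ^ (1 / (t₁ : ℝ))) (ν * Real.log N) (ν / densS N)).card : ℝ) := by
    exact_mod_cast card_le_card hsub
  refine le_trans ?_ (hcount.trans hcard)
  have hVN0 : 0 < VN XN (A1 2) (be N) := by
    by_contra hcon
    have h1 : C' * VN XN (A1 2) (be N) ≤ 0 := mul_nonpos_of_nonneg_of_nonpos hC'.le (not_lt.1 hcon)
    linarith
  calc c₁ / C' * (N * densS N) ≤ c₁ / C' * (N * (C' * VN XN (A1 2) (be N))) := by
        refine mul_le_mul_of_nonneg_left ?_ (by positivity)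
        exact mul_le_mul_of_nonneg_left hVNge (by positivity)
    _ = c₁ * (N * VN XN (A1 2) (be N)) := by
        field_simp
    _ ≤ c₁ * (((2 * N - 1 : ℕ) : ℝ) * VN XN (A1 2) (be N)) := by
        refine mul_le_mul_of_nonneg_left ?_ hc₁.le
        refine mul_le_mul_of_nonneg_right ?_ hVN0.le
        rw [hHr]
        linarith

end Pool.Agent.Q117.SI
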